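import Pool.Agent.Mg.Xc01216.G532bdd

section

set_option autoImplicit false

namespace Pool.Agent.MP_c01216_gt.Zoll

open Set Filter Topology MeasureTheory Complex
open scoped ComplexConjugate

theorem om_comb (z : ℂ) :
    2 / 3 * ∑ i : Fin 3, om ^ (i : ℕ) * ((om ^ (2 * (i : ℕ)) * z).re : ℂ) = z := by
  have h3 := sqrt3_sq
  rw [Fin.sum_univ_three]
  show 2 / 3 * (1 * ((1 * z).re : ℂ) + om ^ 1 * ((om ^ 2 * z).re : ℂ) +
    om ^ 2 * ((om ^ 4 * z).re : ℂ)) = z
  rw [om_four, pow_one, show (2 / 3 : ℂ) = ((2 / 3 : ℝ) : ℂ) by push_cast; rfl]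
  apply Complex.ext
  · simp only [mul_re, add_re, add_im, mul_im, ofReal_re, ofReal_im, om_sq_re, om_sq_im, om_re,
      om_im, one_re, one_im]
    ring
  · simp only [mul_re, add_re, add_im, mul_im, ofReal_re, ofReal_im, om_sq_re, om_sq_im, om_re,
      om_im, one_re, one_im]
    linear_combination (1 / 3) * z.im * h3

/-- The rigidity of the lengths and the antilinear time `c` map. -/
theorem wiedersehen (hE : StE) (hF : StF) (hG : StG) {N : C2 → ℝ} {Y : C2 → C2}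
    {φ : ℝ → C2 → C2} {M : ℝ → C2 → C2 →L[ℝ] C2} {l : Fin 3 → C2 → ℝ} (h : Sp N Y φ M)
    (hT : Th φ l) :
    ∃ (c : ℝ) (T : C2 →L[ℝ] C2), 0 < c ∧ (∀ i w, w ≠ 0 → l i w = c) ∧ Anti T ∧
      ∀ w, φ c w = T w := by
  have hC := stC N Y φ M l h hT
  obtain ⟨hL, ha⟩ := stD N Y φ M l h hT hC
  refine hG N Y φ M l h hT (hF N Y φ M l h hT hC hL ha ?_)
  refine hE N Y φ M h (fun w => 2 / 3 * ∑ i : Fin 3, om ^ (i : ℕ) * (l i w : ℂ)) ?_ ?_ ?_
  · refine contDiffOn_const.mul (ContDiffOn.sum fun i _ => contDiffOn_const.mul ?_)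
    exact ofRealCLM.contDiff.comp_contDiffOn (hC i)
  · intro r w hr
    simp only [hT.hom _ r w hr]
  · intro w hw
    obtain ⟨a, ha⟩ := ha w hw
    refine ⟨a, fun z => ?_⟩
    have hd : ∀ i, HasFDerivAt (fun w => (l i w : ℂ)) (ofRealCLM.comp (fderiv ℝ (l i) w)) w :=
      fun i => ofRealCLM.hasFDerivAt.comp w
        (((hC i).contDiffAt (OO_nhds hw)).differentiableAt one_ne_zero).hasFDerivAt
    have h1 := (HasFDerivAt.fun_sum (u := Finset.univ)
      fun (i : Fin 3) _ => (hd i).const_mul (om ^ (i : ℕ))).const_mul (2 / 3 : ℂ)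
    rw [h1.fderiv]
    simp only [smul_apply, sum_apply, ContinuousLinearMap.comp_apply, ofRealCLM_apply, ha,
      smul_eq_mul, ofReal_mul]
    have h2 := om_comb z
    rw [Fin.sum_univ_three] at h2 ⊢
    linear_combination (a : ℂ) * h2

theorem round_of (hA : StA) (hB1 : StB1) (hB3 : StB3) (hE : StE) (hF : StF) (hG : StG)
    (hH1 : StH1) (hH2 : StH2) (hI2 : StI2) (hI3 : StI3) (hJ : StJ) (hK1 : StK1) (hK2 : StK2)
    (u : E3 → ℝ) (hu : ContDiff ℝ 3 u) (l : Fin 3 → E3 × E3 → ℝ)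
    (hl : ∀ i, ContinuousOn (l i) (UT u))
    (h : ∀ p ∈ UT u, ∃ γ : Fin 3 → ℝ → E3, IsTheta u γ (fun i => l i p) ∧ γ 0 0 = p.1 ∧
      deriv (γ 0) 0 = p.2 ∧ deriv (γ 1) 0 = rot p.1 p.2) : IsRound u := by
  obtain ⟨φ, M, hS⟩ := hA _ _ (hB1 u hu)
  have hT := hB3 u hu φ M hS l hl h
  obtain ⟨c, T, hc, hlc, hAn, hφ⟩ := wiedersehen hE hF hG hS hT
  have h1 := hH1 _ _ φ M _ c T hS hT hc hlc hAn hφ
  have h2 := hH2 _ _ φ M _ c T hS hT hc hlc hAn hφ
  obtain ⟨κ, hκ⟩ := hJ (NN u) c T hS.cN.continuousOn hS.pos hS.toHam.rhom hc hAn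
    (hI2 _ _ φ M c hS hc h1 h2) (hI3 _ _ φ M c T hS hc hAn hφ)
  obtain ⟨α, b, hb⟩ := hK1 u T κ hAn hκ
  exact hK2 u α b hb

end Pool.Agent.MP_c01216_gt.Zoll

end

section

set_option autoImplicit false

namespace Pool.Agent.MP_c01216_gt.Zoll

open Set Filter Topology Complex
open scoped ComplexConjugate

theorem B1_nn_eq : nn = fun w : C2 =>
    w.1.re * w.1.re + w.1.im * w.1.im + (w.2.re * w.2.re + w.2.im * w.2.im) := rfl

theorem B1_nn_pos {w : C2} (hw : w ≠ 0) : 0 < nn w := by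
  refine (add_nonneg (normSq_nonneg _) (normSq_nonneg _)).lt_of_ne fun h => hw ?_
  have := (add_eq_zero_iff_of_nonneg (normSq_nonneg _) (normSq_nonneg _)).1 h.symm
  exact Prod.ext (normSq_eq_zero.1 this.1) (normSq_eq_zero.1 this.2)

theorem B1_nn_smul (c : ℂ) (w : C2) : nn (c • w) = normSq c * nn w := by
  simp only [nn, Prod.smul_fst, Prod.smul_snd, smul_eq_mul, map_mul, mul_add]

theorem B1_hopf_eq : hopf = fun w : C2 => (nn w)⁻¹ •
    ((2 * (w.1.re * w.2.re + w.1.im * w.2.im)) • (!₂[1, 0, 0] : E3) +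
      (2 * (w.1.im * w.2.re - w.1.re * w.2.im)) • (!₂[0, 1, 0] : E3) +
      (w.1.re * w.1.re + w.1.im * w.1.im - (w.2.re * w.2.re + w.2.im * w.2.im)) •
        (!₂[0, 0, 1] : E3)) := by
  funext w
  unfold hopf
  congr 1
  ext i
  fin_cases i <;> simp [normSq_apply]
  ring

theorem B1_hopf_smul {c : ℂ} (hc : c ≠ 0) (w : C2) : hopf (c • w) = hopf w := by
  have h0 := (normSq_pos.2 hc).ne'
  have e : c * w.1 * conj (c * w.2) = (normSq c : ℝ) * (w.1 * conj w.2) := by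
    rw [map_mul, ← mul_conj]
    ring
  unfold hopf
  rw [B1_nn_smul, mul_inv, mul_comm, mul_smul]
  congr 1
  simp only [Prod.smul_fst, Prod.smul_snd, smul_eq_mul]
  rw [e, re_ofReal_mul, im_ofReal_mul, map_mul normSq, map_mul normSq]
  ext i
  fin_cases i <;> simp <;> field_simp

theorem B1_contDiff_nn (n : WithTop ℕ∞) : ContDiff ℝ n nn := by
  have a1 : ContDiff ℝ n fun w : C2 => w.1.re := reCLM.contDiff.comp contDiff_fst
  have a2 : ContDiff ℝ n fun w : C2 => w.1.im := imCLM.contDiff.comp contDiff_fst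
  have b1 : ContDiff ℝ n fun w : C2 => w.2.re := reCLM.contDiff.comp contDiff_snd
  have b2 : ContDiff ℝ n fun w : C2 => w.2.im := imCLM.contDiff.comp contDiff_snd
  exact ((a1.mul a1).add (a2.mul a2)).add ((b1.mul b1).add (b2.mul b2))

theorem B1_contDiffOn_hopf (n : WithTop ℕ∞) : ContDiffOn ℝ n hopf OO := by
  have a1 : ContDiff ℝ n fun w : C2 => w.1.re := reCLM.contDiff.comp contDiff_fst
  have a2 : ContDiff ℝ n fun w : C2 => w.1.im := imCLM.contDiff.comp contDiff_fst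
  have b1 : ContDiff ℝ n fun w : C2 => w.2.re := reCLM.contDiff.comp contDiff_snd
  have b2 : ContDiff ℝ n fun w : C2 => w.2.im := imCLM.contDiff.comp contDiff_snd
  rw [B1_hopf_eq]
  exact ((B1_contDiff_nn n).contDiffOn.inv fun w hw => (B1_nn_pos hw).ne').smul
    ((((contDiff_const.mul ((a1.mul b1).add (a2.mul b2))).smul contDiff_const).add
      ((contDiff_const.mul ((a2.mul b1).sub (a1.mul b2))).smul contDiff_const)).add
      ((((a1.mul a1).add (a2.mul a2)).sub ((b1.mul b1).add (b2.mul b2))).smul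
        contDiff_const)).contDiffOn

theorem B1_hasFDerivAt_nn (w : C2) : ∃ D : C2 →L[ℝ] ℝ, HasFDerivAt nn D w ∧
    ∀ η, D η = 2 * (dt (conj w.2, -conj w.1) η).re := by
  have a1 : HasFDerivAt (fun w : C2 => w.1.re) _ w := reCLM.hasFDerivAt.comp w hasFDerivAt_fst
  have a2 : HasFDerivAt (fun w : C2 => w.1.im) _ w := imCLM.hasFDerivAt.comp w hasFDerivAt_fst
  have b1 : HasFDerivAt (fun w : C2 => w.2.re) _ w := reCLM.hasFDerivAt.comp w hasFDerivAt_snd
  have b2 : HasFDerivAt (fun w : C2 => w.2.im) _ w := imCLM.hasFDerivAt.comp w hasFDerivAt_snd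
  refine ⟨_, ((a1.mul a1).add (a2.mul a2)).add ((b1.mul b1).add (b2.mul b2)), fun η => ?_⟩
  simp [dt]
  ring

theorem B1_hasFDerivAt_hopf {w : C2} (hw : w ≠ 0) : ∃ D : C2 →L[ℝ] E3, HasFDerivAt hopf D w ∧
    ∀ η, D η = (2 / nn w ^ 2) • ((dt η w).re • nuR w + (dt η w).im • nuI w) := by
  have a1 : HasFDerivAt (fun w : C2 => w.1.re) _ w := reCLM.hasFDerivAt.comp w hasFDerivAt_fst
  have a2 : HasFDerivAt (fun w : C2 => w.1.im) _ w := imCLM.hasFDerivAt.comp w hasFDerivAt_fst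
  have b1 : HasFDerivAt (fun w : C2 => w.2.re) _ w := reCLM.hasFDerivAt.comp w hasFDerivAt_snd
  have b2 : HasFDerivAt (fun w : C2 => w.2.im) _ w := imCLM.hasFDerivAt.comp w hasFDerivAt_snd
  obtain ⟨D, h1, h2⟩ := B1_hasFDerivAt_nn w
  have n0 := (B1_nn_pos hw).ne'
  rw [B1_hopf_eq]
  refine ⟨_, ((hasDerivAt_inv n0).comp_hasFDerivAt w h1).smul
    ((((((a1.mul b1).add (a2.mul b2)).const_mul 2).smul_const _).add
      ((((a2.mul b1).sub (a1.mul b2)).const_mul 2).smul_const _)).add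
      ((((a1.mul a1).add (a2.mul a2)).sub ((b1.mul b1).add (b2.mul b2))).smul_const _)),
    fun η => ?_⟩
  have e : nn w = w.1.re * w.1.re + w.1.im * w.1.im + (w.2.re * w.2.re + w.2.im * w.2.im) := rfl
  ext i
  fin_cases i <;> simp [h2, dt, nuR, nuI, pow_two] <;> field_simp <;> rw [e] <;> ring

theorem stB1 : StB1 := by
  intro u hu
  refine ⟨?_, fun w hw => ?_, fun c w => ?_, fun w hw η => ?_⟩
  · exact ((B1_contDiff_nn 3).contDiffOn.mul
      (hu.comp_contDiffOn (B1_contDiffOn_hopf 3)).neg.exp).div_const 2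
  · exact div_pos (mul_pos (B1_nn_pos hw) (Real.exp_pos _)) two_pos
  · rcases eq_or_ne c 0 with rfl | hc
    · simp [NN, nn]
    · rw [NN, NN, B1_nn_smul, B1_hopf_smul hc, normSq_eq_norm_sq]
      ring
  · obtain ⟨D, h1, h2⟩ := B1_hasFDerivAt_nn w
    obtain ⟨D', h3, h4⟩ := B1_hasFDerivAt_hopf hw
    have h5 := ((hu.differentiable (by norm_num)) (hopf w)).hasGradientAt.hasFDerivAt
    have h6 : HasFDerivAt (NN u) _ w := (h1.mul (h5.comp w h3).neg.exp).mul_const 2⁻¹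
    have n0 := (B1_nn_pos hw).ne'
    have e1 : (GG u w * dt w η).re = -((inner ℝ (gradient u (hopf w)) (nuR w) * (dt η w).re +
        inner ℝ (gradient u (hopf w)) (nuI w) * (dt η w).im) / nn w ^ 2) := by
      rw [GG, dt_swap w η, ← ofReal_pow, div_mul_eq_mul_div, div_ofReal_re]
      simp
      ring
    rw [h6.fderiv, YY, dt_smul_left, dt_add_left, dt_smul_left, dt_smul_left, re_ofReal_mul, add_re,
      ← ofReal_inv, re_ofReal_mul, e1, NN]
    simp [h2, h4, inner_add_right, inner_smul_right]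
    field_simp
    ring

end Pool.Agent.MP_c01216_gt.Zoll

end

section

set_option autoImplicit false

namespace Pool.Agent.MP_c01216_gt.Zoll

open Set Filter Topology Complex
open scoped ComplexConjugate

namespace StB2

theorem hd3 {f g h : ℝ → ℝ} {f' g' h' t : ℝ} (hf : HasDerivAt f f' t) (hg : HasDerivAt g g' t)
    (hh : HasDerivAt h h' t) :
    HasDerivAt (fun s => (!₂[f s, g s, h s] : E3)) !₂[f', g', h'] t := by
  have e : ∀ x y z : ℝ, (!₂[x, y, z] : E3) =
      x • (!₂[1, 0, 0] : E3) + y • (!₂[0, 1, 0] : E3) + z • (!₂[0, 0, 1] : E3) := fun x y z => by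
    ext i
    fin_cases i <;> simp
  simp only [e (f _), e f']
  exact ((hf.smul_const _).add (hg.smul_const _)).add (hh.smul_const _)

theorem ext3 {x y : E3} (h0 : x 0 = y 0) (h1 : x 1 = y 1) (h2 : x 2 = y 2) : x = y := by
  ext i
  fin_cases i
  exacts [h0, h1, h2]

theorem inner3 (x y : E3) : inner ℝ x y = x 0 * y 0 + x 1 * y 1 + x 2 * y 2 := by
  simp only [PiLp.inner_apply, Fin.sum_univ_three, RCLike.inner_apply, conj_trivial]
  ring

theorem nn_eq (w : C2) : nn w = w.1.re * w.1.re + w.1.im * w.1.im +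
    (w.2.re * w.2.re + w.2.im * w.2.im) := rfl

theorem nn_pos {w : C2} (hw : w ≠ 0) : 0 < nn w := by
  refine (add_nonneg (normSq_nonneg _) (normSq_nonneg _)).lt_of_ne fun h => hw (Prod.ext ?_ ?_)
  · exact normSq_eq_zero.1 (by linarith [normSq_nonneg w.1, normSq_nonneg w.2])
  · exact normSq_eq_zero.1 (by linarith [normSq_nonneg w.1, normSq_nonneg w.2])

theorem hopf_eq (w : C2) : hopf w = (nn w)⁻¹ • !₂[2 * (w.1.re * w.2.re + w.1.im * w.2.im),
    2 * (w.1.im * w.2.re - w.1.re * w.2.im), w.1.re * w.1.re + w.1.im * w.1.im -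
      (w.2.re * w.2.re + w.2.im * w.2.im)] := by
  unfold hopf
  congr 1
  refine ext3 ?_ ?_ ?_ <;> simp [normSq_apply]
  ring

theorem nuR_eq (w : C2) : nuR w = !₂[w.2.re * w.2.re - w.2.im * w.2.im -
    (w.1.re * w.1.re - w.1.im * w.1.im), -(2 * (w.1.re * w.1.im + w.2.re * w.2.im)),
    2 * (w.1.re * w.2.re - w.1.im * w.2.im)] := by
  unfold nuR
  refine ext3 ?_ ?_ ?_ <;> simp [sq] <;> ring

theorem nuI_eq (w : C2) : nuI w = !₂[2 * (w.2.re * w.2.im - w.1.re * w.1.im),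
    w.1.re * w.1.re - w.1.im * w.1.im + (w.2.re * w.2.re - w.2.im * w.2.im),
    2 * (w.1.re * w.2.im + w.1.im * w.2.re)] := by
  unfold nuI
  refine ext3 ?_ ?_ ?_ <;> simp [sq] <;> ring

theorem norm_nuR (w : C2) : ‖nuR w‖ ^ 2 = nn w ^ 2 := by
  rw [← real_inner_self_eq_norm_sq, inner3, nuR_eq, nn_eq]
  simp
  ring

theorem frame {w : C2} (hw : w ≠ 0) (g : E3) : g = (inner ℝ g (nuR w) / nn w ^ 2) • nuR w +
    (inner ℝ g (nuI w) / nn w ^ 2) • nuI w + inner ℝ g (hopf w) • hopf w := by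
  have hn := (nn_pos hw).ne'
  have e := nn_eq w
  simp only [inner3, nuR_eq, nuI_eq, hopf_eq]
  generalize nn w = n at hn e
  refine ext3 ?_ ?_ ?_ <;> simp <;> field_simp <;> rw [e] <;> ring

theorem der {y : ℝ → C2} {t N : ℝ} {G : ℂ} (hw : y t ≠ 0)
    (hy : HasDerivAt y ((N : ℂ) • (((nn (y t) : ℂ)⁻¹) • ((conj (y t).2, -conj (y t).1) : C2) +
      G • y t)) t) :
    HasDerivAt (fun s => nn (y s)) (2 * N * G.re * nn (y t)) t ∧
    HasDerivAt (fun s => nuR (y s))
      ((2 * N) • (G.re • nuR (y t) - G.im • nuI (y t) - hopf (y t))) t ∧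
    HasDerivAt (fun s => hopf (y s)) ((2 * N / nn (y t) ^ 2) • nuR (y t)) t := by
  have hn := (nn_pos hw).ne'
  have ha : HasDerivAt (fun s => (y s).1.re) (N * ((nn (y t))⁻¹ * (y t).2.re +
      (G.re * (y t).1.re - G.im * (y t).1.im))) t := by
    refine (reCLM.hasFDerivAt.comp_hasDerivAt t hy.fst).congr_deriv ?_
    simp [← ofReal_inv]
    ring
  have hb : HasDerivAt (fun s => (y s).1.im) (N * (-((nn (y t))⁻¹ * (y t).2.im) +
      (G.re * (y t).1.im + G.im * (y t).1.re))) t := by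
    refine (imCLM.hasFDerivAt.comp_hasDerivAt t hy.fst).congr_deriv ?_
    simp [← ofReal_inv]
    ring
  have hc : HasDerivAt (fun s => (y s).2.re) (N * (-((nn (y t))⁻¹ * (y t).1.re) +
      (G.re * (y t).2.re - G.im * (y t).2.im))) t := by
    refine (reCLM.hasFDerivAt.comp_hasDerivAt t hy.snd).congr_deriv ?_
    simp [← ofReal_inv]
    ring
  have hd : HasDerivAt (fun s => (y s).2.im) (N * ((nn (y t))⁻¹ * (y t).1.im +
      (G.re * (y t).2.im + G.im * (y t).2.re))) t := by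
    refine (imCLM.hasFDerivAt.comp_hasDerivAt t hy.snd).congr_deriv ?_
    simp [← ofReal_inv]
    ring
  have h1 : HasDerivAt (fun s => nn (y s)) (2 * N * G.re * nn (y t)) t := by
    refine (((ha.fun_mul ha).fun_add (hb.fun_mul hb)).fun_add
      ((hc.fun_mul hc).fun_add (hd.fun_mul hd))).congr_deriv ?_
    rw [nn_eq (y t)]
    ring
  have e := nn_eq (y t)
  refine ⟨h1, ?_, ?_⟩
  · simp only [nuR_eq, nuI_eq, hopf_eq]
    refine (hd3 (((hc.fun_mul hc).fun_sub (hd.fun_mul hd)).fun_sub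
      ((ha.fun_mul ha).fun_sub (hb.fun_mul hb)))
      (((ha.fun_mul hb).fun_add (hc.fun_mul hd)).const_mul 2).fun_neg
      (((ha.fun_mul hc).fun_sub (hb.fun_mul hd)).const_mul 2)).congr_deriv ?_
    refine ext3 ?_ ?_ ?_ <;> simp <;> ring
  · simp only [nuR_eq, hopf_eq]
    refine ((h1.fun_inv hn).fun_smul (hd3 (((ha.fun_mul hc).fun_add (hb.fun_mul hd)).const_mul 2)
      (((hb.fun_mul hc).fun_sub (ha.fun_mul hd)).const_mul 2)
      (((ha.fun_mul ha).fun_add (hb.fun_mul hb)).fun_sub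
        ((hc.fun_mul hc).fun_add (hd.fun_mul hd))))).congr_deriv ?_
    generalize nn (y t) = n at hn
    refine ext3 ?_ ?_ ?_ <;> simp <;> field_simp <;> ring

/-- The geodesic field. -/
noncomputable def Fld (u : E3 → ℝ) (p : E3 × E3) : E3 × E3 :=
  (p.2, -(2 * inner ℝ (gradient u p.1) p.2) • p.2 + ‖p.2‖ ^ 2 • gradient u p.1 -
    (‖p.2‖ ^ 2 * (1 + inner ℝ (gradient u p.1) p.1)) • p.1)

theorem Fld_c1 {u : E3 → ℝ} (hu : ContDiff ℝ 3 u) : ContDiff ℝ 1 (Fld u) := by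
  have h1 : ContDiff ℝ 1 (gradient u) := contDiff_euclidean.2 fun i => by
    have e : (fun x => gradient u x i) = fun x => fderiv ℝ u x (EuclideanSpace.single i 1) := by
      ext x
      rw [← inner_gradient_left, EuclideanSpace.inner_single_right]
      simp
    rw [e]
    exact (hu.fderiv_right (by norm_num)).clm_apply contDiff_const
  have h2 : ContDiff ℝ 1 fun p : E3 × E3 => gradient u p.1 := h1.comp contDiff_fst
  have h3 : ContDiff ℝ 1 fun p : E3 × E3 => ‖p.2‖ ^ 2 := contDiff_snd.norm_sq ℝ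
  exact contDiff_snd.prodMk ((((contDiff_const.mul (h2.inner ℝ contDiff_snd)).neg.smul
    contDiff_snd).add (h3.smul h2)).sub
    ((h3.mul (contDiff_const.add (h2.inner ℝ contDiff_fst))).smul contDiff_fst))

theorem flow {u : E3 → ℝ} (hu : ContDiff ℝ 3 u) {y : ℝ → C2} {t : ℝ} (hw : y t ≠ 0)
    (hy : HasDerivAt y (YY u (y t)) t) :
    HasDerivAt (fun s => (hopf (y s), vel u (y s))) (Fld u (hopf (y t), vel u (y t))) t := by
  have hn := (nn_pos hw).ne'
  obtain ⟨h1, h2, h3⟩ := der hw hy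
  have e1 : (2 * NN u (y t) / nn (y t) ^ 2) • nuR (y t) = vel u (y t) := by
    unfold vel NN
    congr 1
    field_simp
  rw [e1] at h3
  have h4 := ((hu.differentiable (by norm_num) _).hasFDerivAt.comp_hasDerivAt t h3).fun_neg.exp
  rw [← inner_gradient_left] at h4
  refine h3.prodMk (((h4.fun_div h1 hn).fun_smul h2).congr_deriv ?_)
  have e2 : (GG u (y t)).re = inner ℝ (gradient u (hopf (y t))) (nuR (y t)) / nn (y t) ^ 2 := by
    rw [GG, ← ofReal_pow, div_ofReal_re]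
    simp
  have e3 : (GG u (y t)).im = -(inner ℝ (gradient u (hopf (y t))) (nuI (y t)) / nn (y t) ^ 2) := by
    rw [GG, ← ofReal_pow, div_ofReal_im]
    simp [neg_div]
  have e4 := frame hw (gradient u (hopf (y t)))
  have e5 : ‖vel u (y t)‖ ^ 2 = Real.exp (-u (hopf (y t))) ^ 2 := by
    rw [vel, norm_smul, mul_pow, norm_nuR, Real.norm_eq_abs, sq_abs]
    field_simp
  simp only [Function.comp_apply, e2, e3, e5]
  simp only [vel, NN, real_inner_smul_right]
  generalize inner ℝ (gradient u (hopf (y t))) (nuR (y t)) = A at e4 ⊢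
  generalize inner ℝ (gradient u (hopf (y t))) (nuI (y t)) = B at e4 ⊢
  generalize inner ℝ (gradient u (hopf (y t))) (hopf (y t)) = C at e4 ⊢
  rw [e4]
  match_scalars <;> field_simp <;> ring

theorem geod {u : E3 → ℝ} {γ : ℝ → E3} {a t : ℝ} (ha : 0 < a) (h : IsGeod u γ a)
    (ht : t ∈ Icc 0 a) : HasDerivAt (fun s => (γ s, deriv γ s)) (Fld u (γ t, deriv γ t)) t := by
  have d1 := (h.1.differentiable (by norm_num) t).hasDerivAt
  have d2 := ((h.1.iterate_deriv' 1 1).differentiable one_ne_zero t).hasDerivAt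
  rw [Function.iterate_one] at d2
  obtain ⟨⟨h1, h2, -⟩, c, hc⟩ := h.2 t ht
  have h3 := (uniqueDiffOn_Icc ha t ht).eq_deriv _ (d1.inner ℝ d2).hasDerivWithinAt
    ((hasDerivWithinAt_const t _ (0 : ℝ)).congr (fun s hs => (h.2 s hs).1.2.1) h2)
  have h4 := congrArg (inner ℝ (γ t)) hc
  simp only at h1 h2
  rw [inner_sub_right, inner_add_right, real_inner_smul_right, real_inner_smul_right,
    real_inner_smul_right, h2, real_inner_self_eq_norm_sq, h1, real_inner_comm] at h4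
  rw [real_inner_self_eq_norm_sq] at h3
  refine d1.prodMk (d2.congr_deriv ?_)
  have h5 : c = -(‖deriv γ t‖ ^ 2 * (1 + inner ℝ (gradient u (γ t)) (γ t))) := by
    rw [real_inner_comm] at h3
    rw [real_inner_comm (γ t)]
    linarith
  rw [h5] at hc
  linear_combination (norm := module) hc

end StB2

open StB2 in
theorem stB2 : StB2 := by
  intro u hu φ M h w hw γ a ha hγ h0 h1 t ht
  have d1 := fun s => flow hu (h.ne s hw) (h.deriv s hw)
  have c1 : ContinuousOn (fun s => (γ s, deriv γ s)) (Icc 0 a) := fun s hs =>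
    (geod ha hγ hs).continuousAt.continuousWithinAt
  have c2 : ContinuousOn (fun s => (hopf (φ s w), vel u (φ s w))) (Icc 0 a) := fun s _ =>
    (d1 s).continuousAt.continuousWithinAt
  obtain ⟨R, hR⟩ := ((isCompact_Icc.image_of_continuousOn c1).union
    (isCompact_Icc.image_of_continuousOn c2)).isBounded.subset_closedBall 0
  obtain ⟨K, hK⟩ := (Fld_c1 hu).contDiffOn.exists_lipschitzOnWith one_ne_zero
    (convex_closedBall 0 R) (isCompact_closedBall 0 R)
  exact Prod.ext_iff.1 (ODE_solution_unique_of_mem_Icc_right (v := fun _ => Fld u)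
    (s := fun _ => Metric.closedBall 0 R) (fun _ _ => hK) c1
    (fun s hs => (geod ha hγ (Ico_subset_Icc_self hs)).hasDerivWithinAt)
    (fun s hs => hR (Or.inl ⟨s, Ico_subset_Icc_self hs, rfl⟩)) c2
    (fun s _ => (d1 s).hasDerivWithinAt)
    (fun s hs => hR (Or.inr ⟨s, Ico_subset_Icc_self hs, rfl⟩)) (by simp only [h.zero, h0, h1]) ht)

end Pool.Agent.MP_c01216_gt.Zoll

end

section

set_option autoImplicit false

namespace Pool.Agent.MP_c01216_gt.Zoll

open Set Filter Topology MeasureTheory Complex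
open scoped ComplexConjugate

namespace StE

noncomputable def e (θ : ℝ) : ℂ := cexp (θ * I)

theorem e_ne (θ : ℝ) : e θ ≠ 0 := Complex.exp_ne_zero _

theorem e_add (θ α : ℝ) : e (θ + α) = e θ * e α := by
  unfold e
  rw [← Complex.exp_add]
  push_cast
  ring_nf

theorem e_pi : e Real.pi = -1 := Complex.exp_pi_mul_I

theorem e_zero : e 0 = 1 := by simp [e]

theorem conj_e (θ : ℝ) : conj (e θ) = (e θ)⁻¹ := by
  unfold e
  rw [← Complex.exp_conj, ← Complex.exp_neg]
  simp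

theorem continuous_e : Continuous e := by
  unfold e
  fun_prop

/-- Fourier modes along the fibres. -/
noncomputable def mode (g : C2 → ℂ) (k : ℤ) (w : C2) : ℂ :=
  ∫ θ in (0 : ℝ)..Real.pi, e θ ^ (-(2 * k)) * g (e θ • w)

noncomputable def dmode (g : C2 → ℂ) (k : ℤ) (w : C2) (θ : ℝ) : C2 →L[ℝ] ℂ :=
  e θ ^ (-(2 * k)) • (fderiv ℝ g (e θ • w)).comp (e θ • ContinuousLinearMap.id ℝ C2)

theorem continuous_ez (k : ℤ) : Continuous fun θ => e θ ^ k :=
  continuous_e.zpow₀ k fun θ => Or.inl (e_ne θ)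

theorem cont_int {g : C2 → ℂ} (hg : ContinuousOn g OO) (k : ℤ) {w : C2} (hw : w ≠ 0) :
    Continuous fun θ => e θ ^ k * g (e θ • w) :=
  (continuous_ez k).mul (hg.comp_continuous (continuous_e.smul continuous_const)
    fun θ => smul_ne_zero (e_ne θ) hw)

theorem cont_dmode {g : C2 → ℂ} (hg : ContDiffOn ℝ 1 g OO) (k : ℤ) :
    ContinuousOn (fun q : C2 × ℝ => dmode g k q.1 q.2) (OO ×ˢ univ) := by
  have h1 : ContinuousOn (fderiv ℝ g) OO := hg.continuousOn_fderiv_of_isOpen isOpen_OO le_rfl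
  have h2 : Continuous fun q : C2 × ℝ => e q.2 := continuous_e.comp continuous_snd
  unfold dmode
  refine ContinuousOn.smul ((continuous_ez _).comp continuous_snd).continuousOn ?_
  refine ContinuousOn.clm_comp ?_ (h2.smul continuous_const).continuousOn
  exact h1.comp (h2.smul continuous_fst).continuousOn fun q hq => smul_ne_zero (e_ne _) hq.1

theorem cont_dmode' {g : C2 → ℂ} (hg : ContDiffOn ℝ 1 g OO) (k : ℤ) {w : C2} (hw : w ≠ 0) :
    Continuous (dmode g k w) :=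
  (cont_dmode hg k).comp_continuous (f := fun θ : ℝ => (w, θ)) (by fun_prop)
    fun θ => ⟨hw, mem_univ _⟩

theorem hasF {g : C2 → ℂ} (hg : ContDiffOn ℝ 1 g OO) (k : ℤ) {w : C2} (hw : w ≠ 0) :
    HasFDerivAt (mode g k) (∫ θ in (0 : ℝ)..Real.pi, dmode g k w θ) w := by
  have hr : 0 < ‖w‖ / 2 := by have := norm_pos_iff.2 hw; positivity
  have hs : Metric.closedBall w (‖w‖ / 2) ⊆ OO := by
    rintro x hx rfl
    rw [Metric.mem_closedBall, dist_zero_left] at hx
    linarith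
  have hK : IsCompact (Metric.closedBall w (‖w‖ / 2) ×ˢ uIcc (0 : ℝ) Real.pi) :=
    (isCompact_closedBall _ _).prod isCompact_uIcc
  obtain ⟨C, hC⟩ := hK.exists_bound_of_continuousOn
    ((cont_dmode hg k).mono (prod_mono hs (subset_univ _)))
  refine intervalIntegral.hasFDerivAt_integral_of_dominated_of_fderiv_le
    (F := fun x θ => e θ ^ (-(2 * k)) * g (e θ • x)) (F' := dmode g k) (bound := fun _ => C)
    (Metric.closedBall_mem_nhds w hr) ?_ ?_ ?_ ?_ ?_ ?_
  · filter_upwards [OO_nhds hw] with x hx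
    exact (cont_int hg.continuousOn _ hx).aestronglyMeasurable
  · exact (cont_int hg.continuousOn _ hw).intervalIntegrable _ _
  · exact (cont_dmode' hg k hw).aestronglyMeasurable
  · exact Eventually.of_forall fun t ht x hx => hC (x, t) ⟨hx, uIoc_subset_uIcc ht⟩
  · exact intervalIntegrable_const
  · refine Eventually.of_forall fun t _ x hx => ?_
    have h1 : e t • x ≠ 0 := smul_ne_zero (e_ne t) (hs hx)
    have h2 : HasFDerivAt g (fderiv ℝ g (e t • x)) (e t • x) :=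
      ((hg.contDiffAt (OO_nhds h1)).differentiableAt one_ne_zero).hasFDerivAt
    have h3 : HasFDerivAt (fun y : C2 => e t • y) (e t • ContinuousLinearMap.id ℝ C2) x :=
      (hasFDerivAt_id x).const_smul (e t)
    exact (h2.comp x h3).const_smul (e t ^ (-(2 * k)))

theorem mode_diff {g : C2 → ℂ} (hg : ContDiffOn ℝ 1 g OO) (k : ℤ) :
    DifferentiableOn ℝ (mode g k) OO := fun _ hw =>
  (hasF hg k hw).differentiableAt.differentiableWithinAt

theorem mode_Y {g : C2 → ℂ} (hg : ContDiffOn ℝ 1 g OO) {Y : C2 → C2}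
    (hY : ∀ (c : ℂ) (w : C2), c ≠ 0 → w ≠ 0 → Y (c • w) = conj c • Y w) {a : C2 → ℝ}
    (ha : ∀ w, w ≠ 0 → ∀ z : ℂ, fderiv ℝ g w (z • Y w) = a w * z) (k : ℤ) {w : C2} (hw : w ≠ 0)
    (z : ℂ) : fderiv ℝ (mode g k) w (z • Y w) = z * mode (fun v => (a v : ℂ)) (k - 1) w := by
  rw [(hasF hg k hw).fderiv, ContinuousLinearMap.intervalIntegral_apply
    ((cont_dmode' hg k hw).intervalIntegrable _ _), mode, ← intervalIntegral.integral_const_mul]
  refine intervalIntegral.integral_congr fun θ _ => ?_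
  have h0 := e_ne θ
  have h1 : e θ • z • Y w = (z * e θ ^ 2) • Y (e θ • w) := by
    rw [hY _ _ h0 hw, conj_e, smul_smul, smul_smul]
    congr 1
    field_simp
  have h2 : e θ ^ (-(2 * (k - 1))) = e θ ^ (-(2 * k)) * e θ ^ 2 := by
    rw [← zpow_natCast, ← zpow_add₀ h0]
    congr 1
    push_cast
    ring
  simp only [dmode, smul_apply, ContinuousLinearMap.comp_apply,
    ContinuousLinearMap.id_apply, smul_eq_mul]
  rw [h1, ha _ (smul_ne_zero h0 hw), h2]
  ring

theorem mode_conj (a : C2 → ℝ) (k : ℤ) (w : C2) :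
    conj (mode (fun v => (a v : ℂ)) k w) = mode (fun v => (a v : ℂ)) (-k) w := by
  unfold mode
  rw [← intervalIntegral.intervalIntegral_conj]
  refine intervalIntegral.integral_congr fun θ _ => ?_
  simp only [map_mul, conj_ofReal, map_zpow₀, conj_e, inv_zpow', mul_neg]

theorem per {g : C2 → ℂ} (hg : ∀ (r : ℝ) (w : C2), r ≠ 0 → g (r • w) = g w) (w : C2) :
    Function.Periodic (fun θ => g (e θ • w)) Real.pi := by
  intro θ
  have := hg (-1) (e θ • w) (by norm_num)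
  simp only [e_add, e_pi]
  rw [← this]
  simp

theorem mode_hom {g : C2 → ℂ} (hg : ∀ (r : ℝ) (w : C2), r ≠ 0 → g (r • w) = g w) (k : ℤ)
    (c : ℂ) (w : C2) (hc : c ≠ 0) : mode g k (c • w) = (c / ‖c‖) ^ (2 * k) * mode g k w := by
  have hn : ‖c‖ ≠ 0 := norm_ne_zero_iff.2 hc
  have hn' : (‖c‖ : ℂ) ≠ 0 := by exact_mod_cast hn
  have h1 : c / ‖c‖ = e (arg c) := by
    rw [div_eq_iff hn', mul_comm]
    exact (norm_mul_exp_arg_mul_I c).symm
  set u : ℝ → ℂ := fun θ => e θ ^ (-(2 * k)) * g (e θ • w) with hu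
  have hp : Function.Periodic u Real.pi := by
    intro θ
    have h2 := per hg w θ
    simp only at h2
    simp only [hu, h2]
    rw [e_add, e_pi, mul_zpow, zpow_neg (-1 : ℂ), zpow_mul]
    norm_num
  have h2 : ∀ θ, e θ ^ (-(2 * k)) * g (e θ • c • w) = e (arg c) ^ (2 * k) * u (θ + arg c) := by
    intro θ
    have h3 : e θ • c • w = ‖c‖ • e (θ + arg c) • w := by
      rw [← Complex.coe_smul, smul_smul, smul_smul, e_add, ← h1]
      congr 1
      field_simp
    rw [h3, hg _ _ hn]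
    simp only [hu]
    rw [e_add θ (arg c), mul_zpow, zpow_neg (e (arg c))]
    have := zpow_ne_zero (2 * k) (e_ne (arg c))
    field_simp
  rw [h1]
  unfold mode
  simp only [h2]
  rw [intervalIntegral.integral_const_mul, intervalIntegral.integral_comp_add_right u]
  have h4 := hp.intervalIntegral_add_eq (arg c) 0
  rw [zero_add] at h4
  rw [zero_add, add_comm Real.pi, h4]

/-- Euler identity in the complex direction. -/
theorem euler {F : C2 → ℂ} {n : ℤ} {w : C2} (hF : DifferentiableAt ℝ F w)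
    (hom : ∀ c : ℂ, c ≠ 0 → F (c • w) = c ^ n * F w) (z : ℂ) :
    fderiv ℝ F w (z • w) = n * z * F w := by
  have h0 : HasDerivAt (fun s : ℂ => 1 + s * z) z ((0 : ℝ) : ℂ) := by
    simpa using ((hasDerivAt_id ((0 : ℝ) : ℂ)).mul_const z).const_add 1
  have h1 : HasDerivAt (fun t : ℝ => (1 + (t : ℂ) * z) • w) (z • w) 0 :=
    h0.comp_ofReal.smul_const w
  have h2 : HasDerivAt (fun t : ℝ => F ((1 + (t : ℂ) * z) • w)) (fderiv ℝ F w (z • w)) 0 := by
    refine HasFDerivAt.comp_hasDerivAt_of_eq (0 : ℝ) hF.hasFDerivAt h1 ?_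
    simp
  have h3 : HasDerivAt (fun s : ℂ => (1 + s * z) ^ n) (n * z) ((0 : ℝ) : ℂ) := by
    have h4 := (hasDerivAt_zpow n (1 : ℂ) (Or.inl one_ne_zero)).comp_of_eq ((0 : ℝ) : ℂ) h0
      (by simp)
    rw [one_zpow, mul_one] at h4
    exact h4
  have h5 := h3.comp_ofReal.mul_const (F w)
  refine h2.unique (h5.congr_of_eventuallyEq ?_)
  have h6 : ∀ᶠ t : ℝ in 𝓝 0, 1 + (t : ℂ) * z ≠ 0 :=
    h0.comp_ofReal.continuousAt.eventually_ne (by simp)
  filter_upwards [h6] with t ht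
  exact hom _ ht

theorem key (h1 : StE1) {N : C2 → ℝ} {Y : C2 → C2} {φ : ℝ → C2 → C2}
    {M : ℝ → C2 → C2 →L[ℝ] C2} (h : Sp N Y φ M) (G : C2 → ℂ) (k : ℤ)
    (hG : DifferentiableOn ℝ G OO)
    (hom : ∀ (c : ℂ) (w : C2), c ≠ 0 → G (c • w) = (c / ‖c‖) ^ (2 * k) * G w)
    (hY : ∀ w, w ≠ 0 → ∃ b : ℂ, ∀ z : ℂ, fderiv ℝ G w (z • Y w) = z * b) :
    (k < 0 → ∀ w, w ≠ 0 → G w = 0) ∧ (k = 0 → ∃ A, ∀ w, w ≠ 0 → G w = A) ∧
    (k = 1 → ∃ A B C, ∀ w, w ≠ 0 →
      G w = (A * w.1 ^ 2 + B * w.1 * w.2 + C * w.2 ^ 2) / N w) := by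
  have hN : ∀ w, w ≠ 0 → (N w : ℂ) ≠ 0 := fun w hw => by exact_mod_cast (h.pos w hw).ne'
  set F : C2 → ℂ := fun w => (N w : ℂ) ^ k * G w with hF
  have hd : ∀ w, w ≠ 0 → ∃ D : C2 →L[ℝ] ℂ, HasFDerivAt F D w ∧ ∀ ξ, D ξ =
      (N w : ℂ) ^ k * fderiv ℝ G w ξ + G w * (k * (N w : ℂ) ^ (k - 1) * (fderiv ℝ N w ξ : ℝ)) := by
    intro w hw
    have a1 : HasFDerivAt N (fderiv ℝ N w) w :=
      ((h.cN.contDiffAt (OO_nhds hw)).differentiableAt (by norm_num)).hasFDerivAt
    have a2 : HasFDerivAt (fun v => (N v : ℂ)) (ofRealCLM.comp (fderiv ℝ N w)) w :=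
      ofRealCLM.hasFDerivAt.comp w a1
    have a3 := ((hasDerivAt_zpow k (N w : ℂ) (Or.inl (hN w hw))).hasFDerivAt.restrictScalars
      ℝ).comp w a2
    have a4 := (hG.differentiableAt (OO_nhds hw)).hasFDerivAt
    refine ⟨_, a3.mul a4, fun ξ => ?_⟩
    simp [mul_comm]
  have hhom : ∀ (c : ℂ) (w : C2), c ≠ 0 → w ≠ 0 → F (c • w) = c ^ (2 * k) * F w := by
    intro c w hc _
    have hn' : (‖c‖ : ℂ) ≠ 0 := by exact_mod_cast norm_ne_zero_iff.2 hc
    simp only [hF]
    rw [h.hom, hom c w hc, div_zpow]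
    push_cast
    rw [mul_zpow, ← zpow_natCast, ← zpow_mul]
    have := zpow_ne_zero (2 * k) hn'
    push_cast
    field_simp
  have hlin : ∀ w, w ≠ 0 → ∀ (z : ℂ) (η : C2), fderiv ℝ F w (z • η) = z * fderiv ℝ F w η := by
    intro w hw z η
    obtain ⟨D, hD, hD'⟩ := hd w hw
    obtain ⟨b, hb⟩ := hY w hw
    have a1 : ∀ x : ℂ, fderiv ℝ F w (x • Y w) = x * ((N w : ℂ) ^ k * b) := by
      intro x
      rw [hD.fderiv, hD', hb, h.dN w hw, dt_smul_right, dt_self]
      simp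
      ring
    have a2 := euler hD.differentiableAt (fun c hc => hhom c w hc hw)
    obtain ⟨x, y, rfl⟩ := exists_coords (a := Y w) (b := w) (by rw [h.Yw w hw]; exact hN w hw) η
    rw [smul_add, smul_smul, smul_smul, map_add, map_add, a1, a1, a2, a2]
    ring
  obtain ⟨b1, b2, -, b4⟩ := h1 F (2 * k)
    (fun w hw => (hd w hw).choose_spec.1.differentiableAt.differentiableWithinAt) hlin hhom
  refine ⟨fun hk w hw => ?_, fun hk => ?_, fun hk => ?_⟩
  · exact (mul_eq_zero.1 (b1 (by omega) w hw)).resolve_left (zpow_ne_zero k (hN w hw))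
  · obtain ⟨A, hA⟩ := b2 (by omega)
    refine ⟨A, fun w hw => ?_⟩
    have := hA w hw
    simpa [hF, hk] using this
  · obtain ⟨A, B, C, hA⟩ := b4 (by omega)
    refine ⟨A, B, C, fun w hw => ?_⟩
    have := hA w hw
    simp only [hF, hk, zpow_one] at this
    rw [eq_div_iff (hN w hw), ← this, mul_comm]

theorem fderiv_const {G : C2 → ℂ} {A : ℂ} (hA : ∀ w, w ≠ 0 → G w = A) {w : C2} (hw : w ≠ 0) :
    fderiv ℝ G w = 0 := by
  have : G =ᶠ[𝓝 w] fun _ => A := by
    filter_upwards [OO_nhds hw] with v hv using hA v hv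
  rw [this.fderiv_eq]
  simp

theorem fourier_two {g : C2 → ℂ} (hc : ContinuousOn g OO)
    (hg : ∀ (r : ℝ) (w : C2), r ≠ 0 → g (r • w) = g w) {w : C2} (hw : w ≠ 0)
    (h0 : ∀ k : ℤ, k ≠ 0 → k ≠ 1 → mode g k w = 0) :
    g w = mode g 0 w / Real.pi + mode g 1 w / Real.pi := by
  have : Fact (0 < Real.pi) := ⟨Real.pi_pos⟩
  have hu : Continuous fun θ => g (e θ • w) := by simpa using cont_int hc 0 hw
  let f : C(AddCircle Real.pi, ℂ) := ⟨(per hg w).lift, continuous_coinduced_dom.mpr hu⟩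
  have hf : ∀ θ : ℝ, f θ = g (e θ • w) := fun θ => rfl
  have hπ : (Real.pi : ℂ) ≠ 0 := by exact_mod_cast Real.pi_ne_zero
  have h1 : ∀ k : ℤ, fourierCoeff f k = mode g k w / Real.pi := by
    intro k
    rw [fourierCoeff_eq_intervalIntegral f k 0, zero_add, mode, real_smul]
    push_cast
    rw [one_div, div_eq_inv_mul]
    congr 1
    refine intervalIntegral.integral_congr fun θ _ => ?_
    simp only [hf, smul_eq_mul]
    rw [fourier_coe_apply, e, ← Complex.exp_int_mul]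
    congr 2
    push_cast
    field_simp
  have h2 : ∀ k : ℤ, k ∉ ({0, 1} : Finset ℤ) → fourierCoeff f k = 0 := by
    intro k hk
    simp only [Finset.mem_insert, Finset.mem_singleton, not_or] at hk
    rw [h1, h0 k hk.1 hk.2, zero_div]
  have h3 := has_pointwise_sum_fourier_series_of_summable
    (hasSum_sum_of_ne_finset_zero h2).summable ((0 : ℝ) : AddCircle Real.pi)
  have h4 : ∀ k : ℤ, fourierCoeff f k • fourier k ((0 : ℝ) : AddCircle Real.pi) =
      fourierCoeff f k := by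
    intro k
    rw [fourier_coe_apply]
    simp
  simp only [h4] at h3
  have h5 := h3.unique (hasSum_sum_of_ne_finset_zero h2)
  rw [hf, e_zero, one_smul, Finset.sum_pair (by norm_num), h1, h1] at h5
  exact h5

end StE

open StE in
theorem stE (h1 : StE1) : StE := by
  intro N Y φ M h g hg hr ha
  choose! a ha using ha
  have hD := fun k w hw z => mode_Y hg h.Yhom ha k (w := w) hw z
  have hk := fun k => key h1 h (mode g k) k (mode_diff hg k) (mode_hom hr k)
    fun w hw => ⟨_, hD k w hw⟩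
  have hA : ∀ m : ℤ, m ≤ -1 → ∀ w, w ≠ 0 → mode (fun v => (a v : ℂ)) m w = 0 := by
    intro m hm w hw
    have b1 : fderiv ℝ (mode g (m + 1)) w = 0 := by
      rcases hm.lt_or_eq with hm | hm
      · exact fderiv_const ((hk (m + 1)).1 (by omega)) hw
      · obtain ⟨A, hA⟩ := (hk (m + 1)).2.1 (by omega)
        exact fderiv_const hA hw
    have b2 := hD (m + 1) w hw 1
    rw [b1, add_sub_cancel_right, one_mul] at b2
    exact b2.symm
  have hz : ∀ k : ℤ, k ≠ 0 → k ≠ 1 → ∀ w, w ≠ 0 → mode g k w = 0 := by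
    intro k k0 k1 w hw
    rcases lt_or_gt_of_ne k0 with hneg | hpos
    · exact (hk k).1 hneg w hw
    · have b1 := (key h1 h (fun v => conj (mode g k v)) (-k) ?_ ?_ ?_).1 (by omega) w hw
      · simpa using b1
      · exact fun v hv => (conjCLE.differentiableAt.comp v
          (hasF hg k hv).differentiableAt).differentiableWithinAt
      · intro c v hc
        have hn' : (‖c‖ : ℂ) ≠ 0 := by exact_mod_cast norm_ne_zero_iff.2 hc
        have c1 : conj (c / ‖c‖) = (c / ‖c‖)⁻¹ := by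
          rw [map_div₀, conj_ofReal, inv_div, div_eq_div_iff hn' hc, mul_comm, mul_conj,
            normSq_eq_norm_sq]
          push_cast
          ring
        rw [mode_hom hr k c v hc, map_mul, map_zpow₀, c1, inv_zpow', mul_neg]
      · intro v hv
        refine ⟨0, fun z => ?_⟩
        have c1 : HasFDerivAt (fun v => conj (mode g k v))
            ((conjCLE : ℂ →L[ℝ] ℂ).comp (fderiv ℝ (mode g k) v)) v :=
          conjCLE.hasFDerivAt.comp v (hasF hg k hv).differentiableAt.hasFDerivAt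
        have c2 := mode_conj a (k - 1) v
        rw [hA (-(k - 1)) (by omega) v hv, map_eq_zero] at c2
        rw [c1.fderiv, ContinuousLinearMap.comp_apply, hD k v hv, c2]
        simp
  obtain ⟨A0, hA0⟩ := (hk 0).2.1 rfl
  obtain ⟨A, B, C, hA1⟩ := (hk 1).2.2 rfl
  refine ⟨A0 / Real.pi, A / Real.pi, B / Real.pi, C / Real.pi, fun w hw => ?_⟩
  rw [fourier_two hg.continuousOn hr hw fun k k0 k1 => hz k k0 k1 w hw, hA0 w hw, hA1 w hw]
  ring

end Pool.Agent.MP_c01216_gt.Zoll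

end

section

set_option autoImplicit false

namespace Pool.Agent.MP_c01216_gt.Zoll

open Set Complex
open scoped ComplexConjugate

theorem K1_sign {T : C2 →L[ℝ] C2} (h : Anti T) :
    ∃ ε : ℝ, ∀ w, |(dt (T w) w).re| = ε * (dt (T w) w).re := by
  have he : ((1, 0) : C2) ≠ 0 := by simp
  have h1 : dt ((1, 0) : C2) (T (1, 0)) ≠ 0 := by
    rw [dt_swap]; exact neg_ne_zero.2 (h.dt_ne he)
  have key : ∀ w, ∃ s : ℝ, 0 ≤ s ∧ (dt (T w) w).re = s * (dt (T (1, 0)) (1, 0)).re := by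
    intro w
    obtain ⟨x, y, rfl⟩ := exists_coords h1 w
    refine ⟨normSq x + normSq y, add_nonneg (normSq_nonneg _) (normSq_nonneg _), ?_⟩
    rw [h.form_coords, re_ofReal_mul]
  rcases le_total 0 (dt (T (1, 0)) (1, 0)).re with h0 | h0
  · refine ⟨1, fun w => ?_⟩
    obtain ⟨s, hs, e⟩ := key w
    rw [one_mul, abs_of_nonneg (by rw [e]; exact mul_nonneg hs h0)]
  · refine ⟨-1, fun w => ?_⟩
    obtain ⟨s, hs, e⟩ := key w
    rw [neg_one_mul, abs_of_nonpos (by rw [e]; exact mul_nonpos_of_nonneg_of_nonpos hs h0)]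

theorem K1_form {T : C2 →L[ℝ] C2} (h : Anti T) (w : C2) :
    (dt (T w) w).re = (T (0, 1)).1.re * normSq w.2 - (T (1, 0)).2.re * normSq w.1 +
      ((T (1, 0)).1.re - (T (0, 1)).2.re) * (w.1 * conj w.2).re +
      ((T (1, 0)).1.im + (T (0, 1)).2.im) * (w.1 * conj w.2).im := by
  have e : w = w.1 • ((1, 0) : C2) + w.2 • ((0, 1) : C2) := by ext <;> simp
  have h1 : T w = conj w.1 • T (1, 0) + conj w.2 • T (0, 1) := by
    conv_lhs => rw [e]
    rw [map_add, h.anti, h.anti]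
  rw [h1]
  simp only [dt, Prod.fst_add, Prod.snd_add, Prod.smul_fst, Prod.smul_snd, smul_eq_mul, sub_re,
    mul_re, add_re, add_im, mul_im, conj_re, conj_im, normSq_apply]
  ring

theorem K1_onto (x : E3) (hx : ‖x‖ = 1) : ∃ w : C2, w ≠ 0 ∧ 0 < nn w ∧
    2 * (w.1 * conj w.2).re = nn w * x 0 ∧ 2 * (w.1 * conj w.2).im = nn w * x 1 ∧
    normSq w.1 - normSq w.2 = nn w * x 2 := by
  have h1 : x 0 ^ 2 + x 1 ^ 2 + x 2 ^ 2 = 1 := by
    have := EuclideanSpace.real_norm_sq_eq x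
    rw [hx, Fin.sum_univ_three] at this
    linarith
  by_cases h2 : x 2 = -1
  · have h3 : x 0 ^ 2 + x 1 ^ 2 = 0 := by rw [h2] at h1; linarith
    have h4 : x 0 = 0 := by nlinarith [sq_nonneg (x 0), sq_nonneg (x 1)]
    have h5 : x 1 = 0 := by nlinarith [sq_nonneg (x 0), sq_nonneg (x 1)]
    refine ⟨(0, 1), by simp, ?_, ?_, ?_, ?_⟩ <;> simp [nn, h2, h4, h5]
  · have h3 : -1 ≤ x 2 := by nlinarith [sq_nonneg (x 0), sq_nonneg (x 1)]
    have h4 : 0 < 1 + x 2 := by
      rcases h3.eq_or_lt with h | h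
      · exact absurd h.symm h2
      · linarith
    have hn : nn ((⟨1 + x 2, 0⟩, ⟨x 0, -x 1⟩) : C2) = 2 * (1 + x 2) := by
      simp only [nn, normSq_apply]
      linear_combination h1
    refine ⟨(⟨1 + x 2, 0⟩, ⟨x 0, -x 1⟩), fun h0 => ?_, ?_, ?_, ?_, ?_⟩
    · have := congrArg (fun v : C2 => v.1.re) h0
      simp only [Prod.fst_zero, zero_re] at this
      linarith
    · rw [hn]; linarith
    · rw [hn]; simp only [mul_re, conj_re, conj_im]; ring
    · rw [hn]; simp only [mul_im, conj_re, conj_im]; ring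
    · rw [hn]; simp only [normSq_apply]; linear_combination -h1

theorem stK1 : StK1 := by
  intro u T κ hT hN
  obtain ⟨ε, hε⟩ := K1_sign hT
  refine ⟨κ * ε * ((T (0, 1)).1.re - (T (1, 0)).2.re),
    !₂[κ * ε * ((T (1, 0)).1.re - (T (0, 1)).2.re), κ * ε * ((T (1, 0)).1.im + (T (0, 1)).2.im),
      -(κ * ε * ((T (0, 1)).1.re + (T (1, 0)).2.re))], fun x hx => ?_⟩
  obtain ⟨w, hw, hn, e0, e1, e2⟩ := K1_onto x hx
  have hh : hopf w = x := by
    rw [hopf, e0, e1, e2]
    ext i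
    fin_cases i <;> simp [hn.ne']
  have h1 := hN w hw
  rw [hε, K1_form hT, NN, hh] at h1
  have e3 : normSq w.1 + normSq w.2 = nn w := rfl
  have a1 : normSq w.1 = nn w * (1 + x 2) / 2 := by linarith
  have a2 : normSq w.2 = nn w * (1 - x 2) / 2 := by linarith
  have a3 : (w.1 * conj w.2).re = nn w * x 0 / 2 := by linarith
  have a4 : (w.1 * conj w.2).im = nn w * x 1 / 2 := by linarith
  rw [a1, a2, a3, a4] at h1
  apply mul_left_cancel₀ hn.ne'
  simp only [PiLp.inner_apply, Fin.sum_univ_three, RCLike.inner_apply, conj_trivial]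
  simp only [Matrix.cons_val_zero, Matrix.cons_val_one, Matrix.cons_val]
  linear_combination 2 * h1

end Pool.Agent.MP_c01216_gt.Zoll

end

section

set_option autoImplicit false

namespace Pool.Agent.MP_c01216_gt.Zoll

open Set

/-- The boost of the sphere with vector `B`. -/
noncomputable def K2_P (B : E3) (s : ℝ) (x : E3) : E3 :=
  (1 + inner ℝ B x : ℝ)⁻¹ • (s • x + ((1 + s)⁻¹ * inner ℝ B x + 1 : ℝ) • B)

theorem K2_norm (a c d : ℝ) (v x B : E3) : ‖a • v + c • x + d • B‖ ^ 2 =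
    a ^ 2 * ‖v‖ ^ 2 + c ^ 2 * ‖x‖ ^ 2 + d ^ 2 * ‖B‖ ^ 2 + 2 * a * c * inner ℝ x v +
      2 * a * d * inner ℝ B v + 2 * c * d * inner ℝ B x := by
  simp only [← real_inner_self_eq_norm_sq, inner_add_left, inner_add_right, real_inner_smul_left,
    real_inner_smul_right, real_inner_comm x v, real_inner_comm B v, real_inner_comm B x]
  ring

theorem K2_pos {B x : E3} {s : ℝ} (hs : 0 < s) (hB : ‖B‖ ^ 2 = 1 - s ^ 2) (hx : ‖x‖ = 1) :
    0 < 1 + inner ℝ B x := by
  have h1 := abs_real_inner_le_norm B x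
  rw [hx, mul_one] at h1
  have h2 : ‖B‖ < 1 := by nlinarith [norm_nonneg B]
  linarith [neg_abs_le (inner ℝ B x : ℝ)]

theorem K2_unit {B x : E3} {s : ℝ} (hs : 0 < s) (hB : ‖B‖ ^ 2 = 1 - s ^ 2) (hx : ‖x‖ = 1) :
    ‖K2_P B s x‖ = 1 := by
  have h0 := K2_pos hs hB hx
  have h1 := K2_norm 0 s ((1 + s)⁻¹ * inner ℝ B x + 1) x x B
  rw [zero_smul, zero_add, hB, hx] at h1
  have h2 : ‖s • x + ((1 + s)⁻¹ * inner ℝ B x + 1 : ℝ) • B‖ ^ 2 = (1 + inner ℝ B x) ^ 2 := by
    rw [h1]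
    field_simp
    ring
  unfold K2_P
  rw [norm_smul, (pow_left_inj₀ (norm_nonneg _) h0.le two_ne_zero).mp h2, Real.norm_eq_abs,
    abs_of_pos (inv_pos.mpr h0), inv_mul_cancel₀ h0.ne']

theorem K2_inv {B x : E3} {s : ℝ} (hs : 0 < s) (hB : ‖B‖ ^ 2 = 1 - s ^ 2) (hx : ‖x‖ = 1) :
    K2_P (-B) s (K2_P B s x) = x := by
  have h0 := (K2_pos hs hB hx).ne'
  have h1 : inner ℝ (-B) (K2_P B s x) = s ^ 2 / (1 + inner ℝ B x) - 1 := by
    unfold K2_P
    rw [inner_neg_left, real_inner_smul_right, inner_add_right, real_inner_smul_right,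
      real_inner_smul_right, real_inner_self_eq_norm_sq, hB]
    field_simp
    ring
  rw [K2_P, h1, K2_P]
  match_scalars
  · field_simp
    ring
  · field_simp
    ring

theorem K2_der {B x : E3} {s : ℝ} (hs : 0 < s) (hB : ‖B‖ ^ 2 = 1 - s ^ 2) (hx : ‖x‖ = 1)
    {v : E3} (hv : inner ℝ x v = (0 : ℝ)) :
    ‖fderiv ℝ (K2_P B s) x v‖ = s / (1 + inner ℝ B x) * ‖v‖ := by
  have h0 := K2_pos hs hB hx
  have d1 : HasFDerivAt (fun y : E3 => (inner ℝ B y : ℝ)) (innerSL ℝ B) x :=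
    (innerSL ℝ B).hasFDerivAt
  have d2 := (hasDerivAt_inv h0.ne').comp_hasFDerivAt x (d1.const_add 1)
  have d3 := ((hasFDerivAt_id x).const_smul s).add
    (((d1.const_mul (1 + s)⁻¹).add_const 1).smul_const B)
  have d4 : HasFDerivAt (K2_P B s) _ x := d2.smul d3
  have e1 : fderiv ℝ (K2_P B s) x v = (s / (1 + inner ℝ B x) : ℝ) • v +
      (-(s * inner ℝ B v / (1 + inner ℝ B x) ^ 2) : ℝ) • x +
      (-(s * inner ℝ B v / (1 + inner ℝ B x) ^ 2 / (1 + s)) : ℝ) • B := by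
    rw [d4.fderiv]
    simp only [ContinuousLinearMap.add_apply, ContinuousLinearMap.smul_apply,
      ContinuousLinearMap.smulRight_apply, ContinuousLinearMap.id_apply, innerSL_apply_apply,
      Function.comp_apply, Pi.add_apply, Pi.smul_apply, id, smul_eq_mul]
    match_scalars
    · field_simp
    · field_simp
      ring
    · field_simp
  refine (pow_left_inj₀ (norm_nonneg _) (by positivity) two_ne_zero).mp ?_
  rw [e1, K2_norm, hv, hx, hB]
  field_simp
  ring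

theorem stK2 : StK2 := by
  intro u α b h
  have hα : ‖b‖ < α := by
    by_cases hb : b = 0
    · have h1 := h (EuclideanSpace.single 0 1) (by simp)
      rw [hb, inner_zero_left, add_zero] at h1
      rw [hb, norm_zero, ← h1]
      exact Real.exp_pos _
    · have h0 : 0 < ‖b‖ := norm_pos_iff.mpr hb
      have h1 := h ((-‖b‖⁻¹) • b) (by
        rw [norm_smul, norm_neg, norm_inv, norm_norm, inv_mul_cancel₀ h0.ne'])
      rw [real_inner_smul_right, real_inner_self_eq_norm_sq] at h1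
      have h2 : -‖b‖⁻¹ * ‖b‖ ^ 2 = -‖b‖ := by field_simp
      linarith [Real.exp_pos (-u ((-‖b‖⁻¹) • b))]
  have hα0 : 0 < α := lt_of_le_of_lt (norm_nonneg b) hα
  have hB1 : ‖α⁻¹ • b‖ < 1 := by
    rw [norm_smul, norm_inv, Real.norm_eq_abs, abs_of_pos hα0, inv_mul_lt_iff₀ hα0, mul_one]
    exact hα
  have hB2 : 0 < 1 - ‖α⁻¹ • b‖ ^ 2 := by nlinarith [norm_nonneg (α⁻¹ • b)]
  have hs : 0 < √(1 - ‖α⁻¹ • b‖ ^ 2) := Real.sqrt_pos.mpr hB2
  have hB : ‖α⁻¹ • b‖ ^ 2 = 1 - √(1 - ‖α⁻¹ • b‖ ^ 2) ^ 2 := by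
    rw [Real.sq_sqrt hB2.le]
    ring
  generalize √(1 - ‖α⁻¹ • b‖ ^ 2) = s at hs hB
  have hB' : ‖-(α⁻¹ • b)‖ ^ 2 = 1 - s ^ 2 := by rw [norm_neg, hB]
  refine ⟨(α * s)⁻¹, by positivity, K2_P (α⁻¹ • b) s, ?_, fun x hx => ⟨?_, fun v hv => ?_⟩⟩
  · refine InvOn.bijOn (f' := K2_P (-(α⁻¹ • b)) s) ⟨fun x hx => ?_, fun x hx => ?_⟩
      (fun x hx => ?_) fun x hx => ?_
    · exact K2_inv hs hB (mem_sphere_zero_iff_norm.mp hx)
    · have := K2_inv hs hB' (mem_sphere_zero_iff_norm.mp hx)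
      rwa [neg_neg] at this
    · exact mem_sphere_zero_iff_norm.mpr (K2_unit hs hB (mem_sphere_zero_iff_norm.mp hx))
    · exact mem_sphere_zero_iff_norm.mpr (K2_unit hs hB' (mem_sphere_zero_iff_norm.mp hx))
  · have d1 : ContDiffAt ℝ 2 (fun y : E3 => (inner ℝ (α⁻¹ • b) y : ℝ)) x :=
      (innerSL ℝ (α⁻¹ • b)).contDiff.contDiffAt
    exact ((contDiffAt_const.add d1).inv (K2_pos hs hB hx).ne').smul
      ((contDiffAt_id.const_smul s).add
        (((contDiffAt_const.mul d1).add contDiffAt_const).smul contDiffAt_const))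
  · have h0 := K2_pos hs hB hx
    have h1 : Real.exp (u x) = (α * (1 + inner ℝ (α⁻¹ • b) x))⁻¹ := by
      rw [← inv_inv (Real.exp (u x)), ← Real.exp_neg, h x hx, real_inner_smul_left]
      congr 1
      field_simp
    rw [K2_der hs hB hx hv, h1]
    field_simp

end Pool.Agent.MP_c01216_gt.Zoll

end

section

set_option autoImplicit false

namespace Pool.Agent.MP_c01216_gt.Zoll

open Set Complex

theorem L1_onto (u : E3 → ℝ) {p : E3 × E3} (hp : p ∈ UT u) :
    ∃ w : C2, w ≠ 0 ∧ hopf w = p.1 ∧ vel u w = p.2 := by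
  obtain ⟨x, v⟩ := p
  obtain ⟨h1, h2, h3⟩ := hp
  simp only at h1 h2 h3 ⊢
  obtain ⟨w, hw, hn, e0, e1, e2⟩ := K1_onto x h1
  have hh : hopf w = x := by
    rw [hopf, e0, e1, e2]
    ext i
    fin_cases i <;> simp [hn.ne']
  have hf := StB2.frame hw v
  rw [hh, real_inner_comm x v, h2, zero_smul, add_zero] at hf
  generalize inner ℝ v (nuR w) / nn w ^ 2 = a at hf
  generalize inner ℝ v (nuI w) / nn w ^ 2 = b at hf
  have hv : ‖v‖ ^ 2 = (a ^ 2 + b ^ 2) * nn w ^ 2 := by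
    rw [← real_inner_self_eq_norm_sq, hf]
    simp only [inner_add_left, inner_add_right, real_inner_smul_left, real_inner_smul_right,
      StB3.RR, StB3.II, StB3.RI, real_inner_comm (nuR w) (nuI w)]
    ring
  obtain ⟨c, hc⟩ := IsAlgClosed.exists_pow_nat_eq
    (⟨a * (nn w * Real.exp (u x)), -(b * (nn w * Real.exp (u x)))⟩ : ℂ) two_pos
  have hc1 : ‖c‖ = 1 := by
    have h4 : ‖c‖ ^ 4 = 1 := by
      have h5 := congrArg normSq hc
      rw [map_pow, normSq_eq_norm_sq, normSq_mk] at h5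
      have h6 : (Real.exp (u x) * ‖v‖) ^ 2 = 1 := by rw [h3, one_pow]
      rw [mul_pow, hv] at h6
      linear_combination h5 + h6
    exact (pow_eq_one_iff_of_nonneg (norm_nonneg _) (by norm_num)).1 h4
  have hc0 : c ≠ 0 := by rintro rfl; simp at hc1
  refine ⟨c • w, smul_ne_zero hc0 hw, by rw [StB3.hopf_smul hc0, hh], ?_⟩
  rw [StB3.vel_unit u hc1, hc, hh, hf, Real.exp_neg]
  have h7 := (Real.exp_pos (u x)).ne'
  have h8 := hn.ne'
  match_scalars <;> field_simp

theorem stL1 (hA : StA) (hB : StB1) : StL1 := by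
  intro u hu p hp
  obtain ⟨φ, M, h⟩ := hA _ _ (hB u hu)
  obtain ⟨w, hw, e1, e2⟩ := L1_onto u hp
  have d := fun s => StB2.flow hu (h.ne s hw) (h.deriv s hw)
  have d1 : ∀ s, HasDerivAt (fun s => hopf (φ s w)) (vel u (φ s w)) s := fun s => (d s).fst
  have d2 : ∀ s, HasDerivAt (fun s => vel u (φ s w))
      (StB2.Fld u (hopf (φ s w), vel u (φ s w))).2 s := fun s => (d s).snd
  have q1 : deriv (fun s => hopf (φ s w)) = fun s => vel u (φ s w) := funext fun s => (d1 s).deriv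
  have q2 : deriv (fun s => vel u (φ s w)) =
      fun s => (StB2.Fld u (hopf (φ s w), vel u (φ s w))).2 := funext fun s => (d2 s).deriv
  have c1 : ContDiff ℝ 1 fun s => vel u (φ s w) := by
    refine contDiff_one_iff_deriv.2 ⟨fun s => (d2 s).differentiableAt, ?_⟩
    rw [q2]
    exact ((StB2.Fld_c1 hu).continuous.comp
      (continuous_iff_continuousAt.2 fun s => (d s).continuousAt)).snd
  have c2 : ContDiff ℝ 2 fun s => hopf (φ s w) := by
    rw [show (2 : WithTop ℕ∞) = 1 + 1 from rfl]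
    refine contDiff_succ_iff_deriv.2 ⟨fun s => (d1 s).differentiableAt, by simp, ?_⟩
    rw [q1]
    exact c1
  refine ⟨fun s => hopf (φ s w), fun a => ⟨c2, fun t _ => ?_⟩, by simp only [h.zero, e1], by
    rw [q1]; simp only [h.zero, e2]⟩
  rw [q1, q2]
  refine ⟨StB3.mem_UT u (h.ne t hw), -(‖vel u (φ t w)‖ ^ 2 *
    (1 + inner ℝ (gradient u (hopf (φ t w))) (hopf (φ t w)))), ?_⟩
  simp only [StB2.Fld]
  module

end Pool.Agent.MP_c01216_gt.Zoll

end

section

set_option autoImplicit false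

namespace Pool.Agent.MP_c01216_gt.Zoll

theorem theta_iff_round (u : E3 → ℝ) (hu : ContDiff ℝ 3 u) : ThetaField u ↔ IsRound u :=
  ⟨fun ⟨l, hl, h⟩ => round_of stA stB1 (stB3 stB2) (stE stE1) stF (stG stE1) stH1 (stH2 stX)
    (stI2 stI1) (stI3 stI1) (stJ stJ1 stJ2) stK1 stK2 u hu l hl h,
    stL3 (stL1 stA stB1) stL2 u hu⟩

end Pool.Agent.MP_c01216_gt.Zoll

end
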