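import Pool.Agent.MP_c01216_gt.Zoll.Defs
import Pool.Agent.Mg.F019006.G9405fb

section

set_option autoImplicit false

namespace Pool.Agent.MP_c01216_gt.Zoll

open Set Filter Topology MeasureTheory Complex
open Pool.Agent.MP_019006_gt (IsFlow)
open scoped ComplexConjugate

/-- The spinor plane. -/
abbrev C2 : Type := ℂ × ℂ

/-- The complex determinant. -/
def dt (ξ η : C2) : ℂ := ξ.1 * η.2 - ξ.2 * η.1

/-- The punctured spinor plane. -/
def OO : Set C2 := {w | w ≠ 0}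

/-- A primitive cube root of unity. -/
noncomputable def om : ℂ := ⟨-1 / 2, -√3 / 2⟩

/-- A positive homogeneous Hamiltonian `N` with Hamiltonian vector field `Y`. -/
structure Ham (N : C2 → ℝ) (Y : C2 → C2) : Prop where
  cN : ContDiffOn ℝ 3 N OO
  pos : ∀ w, w ≠ 0 → 0 < N w
  hom : ∀ (c : ℂ) (w : C2), N (c • w) = ‖c‖ ^ 2 * N w
  dN : ∀ w, w ≠ 0 → ∀ η, fderiv ℝ N w η = 2 * (dt (Y w) η).re

/-- The flow `φ` of `Y` with space derivative `M`, and its properties. -/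
structure Sp (N : C2 → ℝ) (Y : C2 → C2) (φ : ℝ → C2 → C2) (M : ℝ → C2 → C2 →L[ℝ] C2) : Prop
    extends Ham N Y where
  cY : ContDiffOn ℝ 2 Y OO
  Yhom : ∀ (c : ℂ) (w : C2), c ≠ 0 → w ≠ 0 → Y (c • w) = conj c • Y w
  Yw : ∀ w, w ≠ 0 → dt (Y w) w = N w
  flow : IsFlow OO Y φ M
  cons : ∀ t w, N (φ t w) = N w
  real : ∀ t (r : ℝ) (w : C2), r ≠ 0 → φ t (r • w) = r • φ t w
  imag : ∀ t (w : C2), φ t (I • w) = I • φ (-t) w
  Mw : ∀ t w, w ≠ 0 → M t w w = φ t w
  MY : ∀ t w, w ≠ 0 → M t w (Y w) = Y (φ t w)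
  symp : ∀ t w, w ≠ 0 → ∀ ξ η, (dt (M t w ξ) (M t w η)).re = (dt ξ η).re
  c1 : ContDiffOn ℝ 1 (fun q : ℝ × C2 => φ q.1 q.2) (univ ×ˢ OO)
  joint : ∀ t w, w ≠ 0 → HasFDerivAt (fun q : ℝ × C2 => φ q.1 q.2)
    ((ContinuousLinearMap.fst ℝ ℝ C2).smulRight (Y (φ t w)) +
      (M t w).comp (ContinuousLinearMap.snd ℝ ℝ C2)) (t, w)

/-- Theta-graphs in all directions, in the spinor model. -/
structure Th (φ : ℝ → C2 → C2) (l : Fin 3 → C2 → ℝ) : Prop where
  cont : ∀ i, ContinuousOn (l i) OO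
  pos : ∀ i w, w ≠ 0 → 0 < l i w
  hom : ∀ i (r : ℝ) (w : C2), r ≠ 0 → l i (r • w) = l i w
  emb : ∀ w, w ≠ 0 → ∀ i j : Fin 3, ∀ s ∈ Icc (0 : ℝ) (l i w), ∀ t ∈ Icc (0 : ℝ) (l j w),
    dt (φ s (om ^ (i : ℕ) • w)) (φ t (om ^ (j : ℕ) • w)) = 0 →
      (i = j ∧ s = t) ∨ (s = 0 ∧ t = 0) ∨ (s = l i w ∧ t = l j w)
  bal : ∀ w, w ≠ 0 → ∃ μ : Fin 3 → ℂ,
    (∀ i : Fin 3, φ (l i w) (om ^ (i : ℕ) • w) = μ i • φ (l 0 w) w) ∧ ∑ i, μ i ^ 2 = 0

/-- An antilinear map of square minus one which conjugates the determinant. -/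
structure Anti (T : C2 →L[ℝ] C2) : Prop where
  anti : ∀ (z : ℂ) (w : C2), T (z • w) = conj z • T w
  sq : ∀ w, T (T w) = -w
  det : ∀ ξ η, dt (T ξ) (T η) = conj (dt ξ η)

/-- The squared Euclidean norm. -/
def nn (w : C2) : ℝ := normSq w.1 + normSq w.2

/-- The Hopf map. -/
noncomputable def hopf (w : C2) : E3 :=
  (nn w)⁻¹ • !₂[2 * (w.1 * conj w.2).re, 2 * (w.1 * conj w.2).im, normSq w.1 - normSq w.2]

/-- Real part of the isotropic vector of a spinor. -/
noncomputable def nuR (w : C2) : E3 :=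
  !₂[(w.2 ^ 2 - w.1 ^ 2).re, (I * (w.1 ^ 2 + w.2 ^ 2)).re, (2 * w.1 * w.2).re]

/-- Imaginary part of the isotropic vector of a spinor. -/
noncomputable def nuI (w : C2) : E3 :=
  !₂[(w.2 ^ 2 - w.1 ^ 2).im, (I * (w.1 ^ 2 + w.2 ^ 2)).im, (2 * w.1 * w.2).im]

/-- The unit tangent vector of a spinor. -/
noncomputable def vel (u : E3 → ℝ) (w : C2) : E3 := (Real.exp (-u (hopf w)) / nn w) • nuR w

/-- The Hamiltonian of the conformal factor `u`. -/
noncomputable def NN (u : E3 → ℝ) (w : C2) : ℝ := nn w * Real.exp (-u (hopf w)) / 2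

/-- The coefficient of the radial part of the Hamiltonian field. -/
noncomputable def GG (u : E3 → ℝ) (w : C2) : ℂ :=
  ((inner ℝ (gradient u (hopf w)) (nuR w) : ℝ) - I * (inner ℝ (gradient u (hopf w)) (nuI w) : ℝ)) /
    ((nn w : ℂ) ^ 2)

/-- The Hamiltonian field of the conformal factor `u`. -/
noncomputable def YY (u : E3 → ℝ) (w : C2) : C2 :=
  (NN u w : ℂ) • (((nn w : ℂ)⁻¹) • ((conj w.2, -conj w.1) : C2) + GG u w • w)

/-- The parametrisation by radius, phase, curve parameter and flow time. -/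
noncomputable def Psi (φ : ℝ → C2 → C2) (Γ : ℝ → C2) (p : C2) : C2 :=
  p.1.re • φ p.2.im (cexp (p.1.im * I) • Γ p.2.re)

/-- The great circle of `T` through `w`. -/
noncomputable def circ (T : C2 →L[ℝ] C2) (w : C2) (s : ℝ) : C2 :=
  Real.cos s • w + Real.sin s • T w

/-! ### Statements of the steps -/

/-- A: existence and properties of the flow. -/
def StA : Prop := ∀ N Y, Ham N Y → ∃ φ M, Sp N Y φ M

/-- B1: the Hamiltonian of a conformal factor. -/
def StB1 : Prop := ∀ u : E3 → ℝ, ContDiff ℝ 3 u → Ham (NN u) (YY u)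

/-- B2: geodesics are the projections of flow lines. -/
def StB2 : Prop := ∀ u : E3 → ℝ, ContDiff ℝ 3 u → ∀ φ M, Sp (NN u) (YY u) φ M →
  ∀ w, w ≠ 0 → ∀ (γ : ℝ → E3) (a : ℝ), 0 < a → IsGeod u γ a → γ 0 = hopf w →
    deriv γ 0 = vel u w → ∀ t ∈ Icc (0 : ℝ) a, γ t = hopf (φ t w) ∧ deriv γ t = vel u (φ t w)

/-- B3: theta-graphs in the spinor model. -/
def StB3 : Prop := ∀ u : E3 → ℝ, ContDiff ℝ 3 u → ∀ φ M, Sp (NN u) (YY u) φ M →
  ∀ l : Fin 3 → E3 × E3 → ℝ, (∀ i, ContinuousOn (l i) (UT u)) →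
    (∀ p ∈ UT u, ∃ γ : Fin 3 → ℝ → E3, IsTheta u γ (fun i => l i p) ∧ γ 0 0 = p.1 ∧
      deriv (γ 0) 0 = p.2 ∧ deriv (γ 1) 0 = rot p.1 p.2) →
    Th φ (fun i w => l i (hopf w, vel u w))

/-- X: transversal crossings of two flow lines persist and are locally unique. -/
def StX : Prop := ∀ N Y φ M, Sp N Y φ M → ∀ (v₀ w₀ : C2) (s₀ t₀ : ℝ) (κ : ℂ), v₀ ≠ 0 → w₀ ≠ 0 →
  φ t₀ w₀ = κ • φ s₀ v₀ → (κ ^ 2).im ≠ 0 →
    ∃ ψ : C2 × C2 → ℝ × ℝ, ContDiffAt ℝ 1 ψ (v₀, w₀) ∧ ψ (v₀, w₀) = (s₀, t₀) ∧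
      (∀ᶠ x in 𝓝 (v₀, w₀), dt (φ (ψ x).1 x.1) (φ (ψ x).2 x.2) = 0) ∧
      ∀ᶠ y in 𝓝 (((v₀, w₀), (s₀, t₀)) : (C2 × C2) × (ℝ × ℝ)),
        dt (φ y.2.1 y.1.1) (φ y.2.2 y.1.2) = 0 → ψ y.1 = y.2

/-- C: the edge lengths are continuously differentiable. -/
def StC : Prop := ∀ N Y φ M l, Sp N Y φ M → Th φ l → ∀ i, ContDiffOn ℝ 1 (l i) OO

/-- D: first variation. -/
def StD : Prop := ∀ N Y φ M l, Sp N Y φ M → Th φ l → (∀ i, ContDiffOn ℝ 1 (l i) OO) →
  (∃ L : ℝ, ∀ w, w ≠ 0 → ∑ i, l i w = L) ∧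
    ∀ w, w ≠ 0 → ∃ a : ℝ, ∀ (i : Fin 3) (z : ℂ),
      fderiv ℝ (l i) w (z • Y w) = a * (om ^ (2 * (i : ℕ)) * z).re

/-- E1: homogeneous holomorphic functions on the punctured plane. -/
def StE1 : Prop := ∀ (F : C2 → ℂ) (k : ℤ), DifferentiableOn ℝ F OO →
  (∀ w, w ≠ 0 → ∀ (z : ℂ) (η : C2), fderiv ℝ F w (z • η) = z * fderiv ℝ F w η) →
  (∀ (c : ℂ) (w : C2), c ≠ 0 → w ≠ 0 → F (c • w) = c ^ k * F w) →
    (k < 0 → ∀ w, w ≠ 0 → F w = 0) ∧ (k = 0 → ∃ A, ∀ w, w ≠ 0 → F w = A) ∧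
    (k = 1 → ∃ A B, ∀ w, w ≠ 0 → F w = A * w.1 + B * w.2) ∧
    (k = 2 → ∃ A B C, ∀ w, w ≠ 0 → F w = A * w.1 ^ 2 + B * w.1 * w.2 + C * w.2 ^ 2)

/-- E: Fourier analysis along the fibres. -/
def StE : Prop := ∀ N Y φ M, Sp N Y φ M → ∀ g : C2 → ℂ, ContDiffOn ℝ 1 g OO →
  (∀ (r : ℝ) (w : C2), r ≠ 0 → g (r • w) = g w) →
  (∀ w, w ≠ 0 → ∃ a : ℝ, ∀ z : ℂ, fderiv ℝ g w (z • Y w) = a * z) →
    ∃ g₀ A B C : ℂ, ∀ w, w ≠ 0 → g w = g₀ + (A * w.1 ^ 2 + B * w.1 * w.2 + C * w.2 ^ 2) / N w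

/-- F: the edge lengths are constant. -/
def StF : Prop := ∀ N Y φ M l, Sp N Y φ M → Th φ l → (∀ i, ContDiffOn ℝ 1 (l i) OO) →
  (∃ L : ℝ, ∀ w, w ≠ 0 → ∑ i, l i w = L) →
  (∀ w, w ≠ 0 → ∃ a : ℝ, ∀ (i : Fin 3) (z : ℂ),
      fderiv ℝ (l i) w (z • Y w) = a * (om ^ (2 * (i : ℕ)) * z).re) →
  (∃ g₀ A B C : ℂ, ∀ w, w ≠ 0 → 2 / 3 * ∑ i : Fin 3, om ^ (i : ℕ) * (l i w : ℂ) =
      g₀ + (A * w.1 ^ 2 + B * w.1 * w.2 + C * w.2 ^ 2) / N w) →
    ∃ c : Fin 3 → ℝ, ∀ i w, w ≠ 0 → l i w = c i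

/-- G: the time `c` map is antilinear. -/
def StG : Prop := ∀ N Y φ M l, Sp N Y φ M → Th φ l →
  (∃ c : Fin 3 → ℝ, ∀ i w, w ≠ 0 → l i w = c i) →
    ∃ (c : ℝ) (T : C2 →L[ℝ] C2), 0 < c ∧ (∀ i w, w ≠ 0 → l i w = c) ∧ Anti T ∧ ∀ w, φ c w = T w

/-- H1: closed geodesics are simple. -/
def StH1 : Prop := ∀ N Y φ M l (c : ℝ) (T : C2 →L[ℝ] C2), Sp N Y φ M → Th φ l → 0 < c →
  (∀ i w, w ≠ 0 → l i w = c) → Anti T → (∀ w, φ c w = T w) →
    ∀ y, y ≠ 0 → ∀ d ∈ Ioo 0 (2 * c), dt (φ d y) y ≠ 0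

/-- H2: geodesics from one point do not cross before the time `c`. -/
def StH2 : Prop := ∀ N Y φ M l (c : ℝ) (T : C2 →L[ℝ] C2), Sp N Y φ M → Th φ l → 0 < c →
  (∀ i w, w ≠ 0 → l i w = c) → Anti T → (∀ w, φ c w = T w) →
    ∀ y, y ≠ 0 → ∀ β : ℝ, Real.sin (2 * β) ≠ 0 → ∀ τ ∈ Ioo 0 c, ∀ d : ℝ,
      dt (φ τ (cexp (β * I) • y)) (φ d y) ≠ 0

/-- I1: the Jacobian of the parametrisation. -/
def StI1 : Prop := ∀ N Y φ M, Sp N Y φ M → ∀ (Γ : ℝ → C2) (Γ' : C2) (p : C2),
  HasDerivAt Γ Γ' p.2.re → Γ p.2.re ≠ 0 →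
    ∃ D : C2 →L[ℝ] C2, HasFDerivAt (Psi φ Γ) D p ∧
      |D.det| = |p.1.re| ^ 3 * N (Γ p.2.re) * |(cexp (2 * p.1.im * I) * dt (Γ p.2.re) Γ').im|

/-- I2: lower bound for the volume. -/
def StI2 : Prop := ∀ N Y φ M (c : ℝ), Sp N Y φ M → 0 < c →
  (∀ y, y ≠ 0 → ∀ d ∈ Ioo 0 (2 * c), dt (φ d y) y ≠ 0) →
  (∀ y, y ≠ 0 → ∀ β : ℝ, Real.sin (2 * β) ≠ 0 → ∀ τ ∈ Ioo 0 c, ∀ d : ℝ,
      dt (φ τ (cexp (β * I) • y)) (φ d y) ≠ 0) →
    ENNReal.ofReal (2 * c ^ 2) ≤ volume {w : C2 | N w < 1}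

/-- I3: upper bound for the volume. -/
def StI3 : Prop := ∀ N Y φ M (c : ℝ) (T : C2 →L[ℝ] C2), Sp N Y φ M → 0 < c → Anti T →
  (∀ w, φ c w = T w) → ∀ w, w ≠ 0 → volume {z : C2 | N z < 1} ≤
    ENNReal.ofReal (c * ∫ s in (0 : ℝ)..Real.pi, |(dt (T w) w).re| / N (circ T w s))

/-- J1: polar coordinates. -/
def StJ1 : Prop := ∀ f h : C2 → ℝ, ContinuousOn f OO → ContinuousOn h OO →
  (∀ w, w ≠ 0 → 0 < f w) → (∀ w, w ≠ 0 → 0 < h w) →
  (∀ (r : ℝ) (w : C2), f (r • w) = r ^ 2 * f w) → (∀ (r : ℝ) (w : C2), h (r • w) = r ^ 2 * h w) →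
    volume {w : C2 | f w < 1} = ∫⁻ w in {w : C2 | h w < 1}, ENNReal.ofReal ((h w / f w) ^ 2)

/-- J2: the unit ball of the Hermitian form of `T` and its symmetries. -/
def StJ2 : Prop := ∀ T : C2 →L[ℝ] C2, Anti T →
  (∀ w, w ≠ 0 → (dt (T w) w).re ≠ 0) ∧
  (∀ w s, (dt (T (circ T w s)) (circ T w s)).re = (dt (T w) w).re) ∧
  volume {w : C2 | |(dt (T w) w).re| < 1} = ENNReal.ofReal (Real.pi ^ 2 / 2) ∧
  ∀ s, MeasurePreserving (fun w => circ T w s) volume volume

/-- J: averaging and the equality case of the Cauchy-Schwarz inequality. -/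
def StJ : Prop := ∀ (N : C2 → ℝ) (c : ℝ) (T : C2 →L[ℝ] C2), ContinuousOn N OO →
  (∀ w, w ≠ 0 → 0 < N w) → (∀ (r : ℝ) (w : C2), N (r • w) = r ^ 2 * N w) → 0 < c → Anti T →
  ENNReal.ofReal (2 * c ^ 2) ≤ volume {w : C2 | N w < 1} →
  (∀ w, w ≠ 0 → volume {z : C2 | N z < 1} ≤
    ENNReal.ofReal (c * ∫ s in (0 : ℝ)..Real.pi, |(dt (T w) w).re| / N (circ T w s))) →
    ∃ κ : ℝ, ∀ w, w ≠ 0 → N w = κ * |(dt (T w) w).re|

/-- K1: a Hermitian Hamiltonian gives an affine conformal factor. -/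
def StK1 : Prop := ∀ (u : E3 → ℝ) (T : C2 →L[ℝ] C2) (κ : ℝ), Anti T →
  (∀ w, w ≠ 0 → NN u w = κ * |(dt (T w) w).re|) →
    ∃ (α : ℝ) (b : E3), ∀ x : E3, ‖x‖ = 1 → Real.exp (-u x) = α + inner ℝ b x

/-- K2: an affine conformal factor gives a round metric. -/
def StK2 : Prop := ∀ (u : E3 → ℝ) (α : ℝ) (b : E3),
  (∀ x : E3, ‖x‖ = 1 → Real.exp (-u x) = α + inner ℝ b x) → IsRound u

end Pool.Agent.MP_c01216_gt.Zoll

end

section

set_option autoImplicit false

namespace Pool.Agent.MP_c01216_gt.Zoll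

open Set Filter Topology MeasureTheory Complex
open scoped ComplexConjugate

theorem sqrt3_sq : √3 * √3 = (3 : ℝ) := Real.mul_self_sqrt (by norm_num)

theorem om_re : om.re = -1 / 2 := rfl

theorem om_im : om.im = -√3 / 2 := rfl

theorem om_sum : om ^ 2 + om + 1 = 0 := by
  have h := sqrt3_sq
  apply Complex.ext
  · simp only [pow_two, add_re, mul_re, om_re, om_im, one_re, zero_re]; nlinarith
  · simp only [pow_two, add_im, mul_im, om_re, om_im, one_im, zero_im]; ring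

theorem om_cube : om ^ 3 = 1 := by linear_combination (om - 1) * om_sum

theorem om_ne : om ≠ 0 := fun h => by simpa [h] using om_cube

theorem conj_om : conj om = om ^ 2 := by
  have h := sqrt3_sq
  apply Complex.ext
  · simp only [pow_two, mul_re, om_re, om_im, conj_re]; nlinarith
  · simp only [pow_two, mul_im, om_re, om_im, conj_im]; ring

theorem norm_om : ‖om‖ = 1 := by
  have h : ‖om‖ ^ 3 = 1 := by rw [← norm_pow, om_cube, norm_one]
  exact (pow_eq_one_iff_of_nonneg (norm_nonneg _) (by norm_num)).1 h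

theorem om_sq_re : (om ^ 2).re = -1 / 2 := by rw [← conj_om, conj_re, om_re]

theorem om_sq_im : (om ^ 2).im = √3 / 2 := by rw [← conj_om, conj_im, om_im]; ring

theorem om_four : om ^ 4 = om := by linear_combination om * om_cube

theorem dt_self (ξ : C2) : dt ξ ξ = 0 := by unfold dt; ring

theorem dt_swap (ξ η : C2) : dt ξ η = -dt η ξ := by unfold dt; ring

theorem dt_smul_left (c : ℂ) (ξ η : C2) : dt (c • ξ) η = c * dt ξ η := by
  simp only [dt, Prod.smul_fst, Prod.smul_snd, smul_eq_mul]; ring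

theorem dt_smul_right (c : ℂ) (ξ η : C2) : dt ξ (c • η) = c * dt ξ η := by
  simp only [dt, Prod.smul_fst, Prod.smul_snd, smul_eq_mul]; ring

theorem dt_rsmul_left (c : ℝ) (ξ η : C2) : dt (c • ξ) η = c * dt ξ η := by
  simp only [dt, Prod.smul_fst, Prod.smul_snd, real_smul]; ring

theorem dt_rsmul_right (c : ℝ) (ξ η : C2) : dt ξ (c • η) = c * dt ξ η := by
  simp only [dt, Prod.smul_fst, Prod.smul_snd, real_smul]; ring

theorem dt_add_left (ξ ζ η : C2) : dt (ξ + ζ) η = dt ξ η + dt ζ η := by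
  simp only [dt, Prod.fst_add, Prod.snd_add]; ring

theorem dt_add_right (ξ ζ η : C2) : dt ξ (ζ + η) = dt ξ ζ + dt ξ η := by
  simp only [dt, Prod.fst_add, Prod.snd_add]; ring

theorem dt_neg_left (ξ η : C2) : dt (-ξ) η = -dt ξ η := by
  simp only [dt, Prod.fst_neg, Prod.snd_neg]; ring

theorem dt_neg_right (ξ η : C2) : dt ξ (-η) = -dt ξ η := by
  simp only [dt, Prod.fst_neg, Prod.snd_neg]; ring

/-- Cramer's rule. -/
theorem cramer (a b ξ : C2) : dt a b • ξ = dt ξ b • a + dt a ξ • b := by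
  ext <;> simp only [dt, Prod.smul_fst, Prod.smul_snd, Prod.fst_add, Prod.snd_add, smul_eq_mul] <;>
    ring

theorem exists_coords {a b : C2} (h : dt a b ≠ 0) (ξ : C2) : ∃ x y : ℂ, ξ = x • a + y • b := by
  refine ⟨dt ξ b / dt a b, dt a ξ / dt a b, ?_⟩
  have h1 := congrArg (fun v => (dt a b)⁻¹ • v) (cramer a b ξ)
  simp only [smul_add, smul_smul, inv_mul_cancel₀ h, one_smul] at h1
  rw [div_eq_inv_mul, div_eq_inv_mul]
  exact h1

theorem exists_smul_of_dt {ξ η : C2} (hη : η ≠ 0) (h : dt ξ η = 0) : ∃ κ : ℂ, ξ = κ • η := by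
  unfold dt at h
  by_cases h1 : η.1 = 0
  · have h2 : η.2 ≠ 0 := fun h2 => hη (Prod.ext h1 h2)
    refine ⟨ξ.2 / η.2, Prod.ext ?_ ?_⟩
    · have : ξ.1 * η.2 = 0 := by linear_combination h + ξ.2 * h1
      simp [h1, (mul_eq_zero.1 this).resolve_right h2]
    · simp [h2]
  · refine ⟨ξ.1 / η.1, Prod.ext ?_ ?_⟩
    · simp [h1]
    · simp only [Prod.smul_snd, smul_eq_mul]
      field_simp
      linear_combination -h

theorem eq_of_dt_re {ξ ζ : C2} (h : ∀ η, (dt ξ η).re = (dt ζ η).re) : ξ = ζ := by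
  have h1 := h (1, 0)
  have h2 := h (I, 0)
  have h3 := h (0, 1)
  have h4 := h (0, I)
  simp [dt] at h1 h2 h3 h4
  exact Prod.ext (Complex.ext h3 h4) (Complex.ext h1 h2)

theorem isOpen_OO : IsOpen OO := isOpen_ne

theorem OO_nhds {w : C2} (hw : w ≠ 0) : OO ∈ 𝓝 w := isOpen_OO.mem_nhds hw

theorem isPreconnected_OO : IsPreconnected OO := by
  have h : 1 < Module.rank ℝ C2 := by
    rw [← Module.finrank_eq_rank]
    norm_cast
    simp [Module.finrank_prod]
  exact (isConnected_compl_singleton_of_one_lt_rank h 0).isPreconnected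

theorem hasFDerivAt_dt {E : Type} [NormedAddCommGroup E] [NormedSpace ℝ E] {f g : E → C2}
    {f' g' : E →L[ℝ] C2} {x : E} (hf : HasFDerivAt f f' x) (hg : HasFDerivAt g g' x) :
    ∃ D : E →L[ℝ] ℂ, HasFDerivAt (fun y => dt (f y) (g y)) D x ∧
      ∀ ξ, D ξ = dt (f' ξ) (g x) + dt (f x) (g' ξ) := by
  refine ⟨_, (hf.fst.mul hg.snd).sub (hf.snd.mul hg.fst), fun ξ => ?_⟩
  simp [dt]
  ring

theorem hasDerivAt_dt {f g : ℝ → C2} {f' g' : C2} {x : ℝ} (hf : HasDerivAt f f' x)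
    (hg : HasDerivAt g g' x) :
    HasDerivAt (fun y => dt (f y) (g y)) (dt f' (g x) + dt (f x) g') x := by
  obtain ⟨D, hD, h⟩ := hasFDerivAt_dt hf.hasFDerivAt hg.hasFDerivAt
  have := hD.hasDerivAt
  rwa [h, ContinuousLinearMap.toSpanSingleton_apply, ContinuousLinearMap.toSpanSingleton_apply,
    one_smul, one_smul] at this

theorem contDiff_dt (n : WithTop ℕ∞) : ContDiff ℝ n (fun p : C2 × C2 => dt p.1 p.2) := by
  unfold dt; fun_prop

theorem continuous_dt : Continuous (fun p : C2 × C2 => dt p.1 p.2) := (contDiff_dt 0).continuous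

/-- The real determinant is the Pfaffian of the real part of `dt`. -/
theorem det_eq_pf (D : C2 →L[ℝ] C2) : D.det =
    (dt (D (1, 0)) (D (I, 0))).re * (dt (D (0, 1)) (D (0, I))).re -
    (dt (D (1, 0)) (D (0, 1))).re * (dt (D (I, 0)) (D (0, I))).re +
    (dt (D (1, 0)) (D (0, I))).re * (dt (D (I, 0)) (D (0, 1))).re := by
  let b : Module.Basis (Fin 4) ℝ C2 :=
    (basisOneI.prod basisOneI).reindex finSumFinEquiv
  have b0 : b 0 = (1, 0) := by
    have : finSumFinEquiv.symm (0 : Fin (2 + 2)) = Sum.inl 0 := rfl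
    simp [b, this, Module.Basis.prod_apply]
  have b1 : b 1 = (I, 0) := by
    have : finSumFinEquiv.symm (1 : Fin (2 + 2)) = Sum.inl 1 := rfl
    simp [b, this, Module.Basis.prod_apply]
  have b2 : b 2 = (0, 1) := by
    have : finSumFinEquiv.symm (2 : Fin (2 + 2)) = Sum.inr 0 := rfl
    simp [b, this, Module.Basis.prod_apply]
  have b3 : b 3 = (0, I) := by
    have : finSumFinEquiv.symm (3 : Fin (2 + 2)) = Sum.inr 1 := rfl
    simp [b, this, Module.Basis.prod_apply]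
  have r0 : ∀ v : C2, b.repr v 0 = v.1.re := fun v => by
    have : finSumFinEquiv.symm (0 : Fin (2 + 2)) = Sum.inl 0 := rfl
    simp [b, this]
  have r1 : ∀ v : C2, b.repr v 1 = v.1.im := fun v => by
    have : finSumFinEquiv.symm (1 : Fin (2 + 2)) = Sum.inl 1 := rfl
    simp [b, this]
  have r2 : ∀ v : C2, b.repr v 2 = v.2.re := fun v => by
    have : finSumFinEquiv.symm (2 : Fin (2 + 2)) = Sum.inr 0 := rfl
    simp [b, this]
  have r3 : ∀ v : C2, b.repr v 3 = v.2.im := fun v => by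
    have : finSumFinEquiv.symm (3 : Fin (2 + 2)) = Sum.inr 1 := rfl
    simp [b, this]
  rw [ContinuousLinearMap.det, ← LinearMap.det_toMatrix b, Matrix.det_succ_row_zero]
  simp only [Fin.sum_univ_four, Matrix.det_fin_three, Matrix.submatrix_apply,
    LinearMap.toMatrix_apply, ContinuousLinearMap.coe_coe]
  simp only [show (Fin.succ 0 : Fin 4) = 1 from rfl, show (Fin.succ 1 : Fin 4) = 2 from rfl,
    show (Fin.succ 2 : Fin 4) = 3 from rfl,
    show (0 : Fin 4).succAbove 0 = 1 from rfl, show (0 : Fin 4).succAbove 1 = 2 from rfl,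
    show (0 : Fin 4).succAbove 2 = 3 from rfl, show (1 : Fin 4).succAbove 0 = 0 from rfl,
    show (1 : Fin 4).succAbove 1 = 2 from rfl, show (1 : Fin 4).succAbove 2 = 3 from rfl,
    show (2 : Fin 4).succAbove 0 = 0 from rfl, show (2 : Fin 4).succAbove 1 = 1 from rfl,
    show (2 : Fin 4).succAbove 2 = 3 from rfl, show (3 : Fin 4).succAbove 0 = 0 from rfl,
    show (3 : Fin 4).succAbove 1 = 1 from rfl, show (3 : Fin 4).succAbove 2 = 2 from rfl,
    b0, b1, b2, b3, r0, r1, r2, r3, dt, sub_re, mul_re]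
  simp
  ring

/-- Three unit complex numbers with sum zero, the first being one. -/
theorem mu_cases {μ : Fin 3 → ℂ} (h0 : μ 0 = 1) (h1 : ∀ i, ‖μ i‖ = 1) (h : ∑ i, μ i ^ 2 = 0) :
    (∀ i : Fin 3, μ i ^ 2 = om ^ (2 * (i : ℕ))) ∨ ∀ i : Fin 3, μ i ^ 2 = om ^ (i : ℕ) := by
  rw [Fin.sum_univ_three, h0] at h
  set x := μ 1 ^ 2 with hx
  set y := μ 2 ^ 2 with hy
  have nx : x * conj x = 1 := by
    rw [mul_conj, normSq_eq_norm_sq, hx, norm_pow, h1]; simp
  have ny : y * conj y = 1 := by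
    rw [mul_conj, normSq_eq_norm_sq, hy, norm_pow, h1]; simp
  have hyx : y = -1 - x := by linear_combination h
  have hc : conj y = -1 - conj x := by rw [hyx]; simp
  have h2 : x ^ 2 + x + 1 = 0 := by
    rw [hc, hyx] at ny
    linear_combination x * ny - (x + 1) * nx
  have h3 : (x - om ^ 2) * (x - om) = 0 := by
    linear_combination h2 - x * om_sum + om_cube
  rcases mul_eq_zero.1 h3 with h4 | h4
  · left
    intro i
    fin_cases i
    · simp [h0]
    · show x = om ^ (2 * 1)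
      linear_combination h4
    · show y = om ^ (2 * 2)
      linear_combination hyx - h4 - om_sum - om_four
  · right
    intro i
    fin_cases i
    · simp [h0]
    · show x = om ^ 1
      linear_combination h4
    · show y = om ^ 2
      linear_combination hyx - h4 - om_sum

section flow

variable {N : C2 → ℝ} {Y : C2 → C2} {φ : ℝ → C2 → C2} {M : ℝ → C2 → C2 →L[ℝ] C2}

theorem Ham.rhom (h : Ham N Y) (r : ℝ) (w : C2) : N (r • w) = r ^ 2 * N w := by
  have := h.hom r w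
  rwa [Complex.coe_smul, norm_real, Real.norm_eq_abs, sq_abs] at this

theorem Sp.ne (h : Sp N Y φ M) (t : ℝ) {w : C2} (hw : w ≠ 0) : φ t w ≠ 0 := h.flow.mem t w hw

theorem Sp.neg (h : Sp N Y φ M) (t : ℝ) (w : C2) : φ t (-w) = -φ t w := by
  simpa using h.real t (-1) w (by norm_num)

theorem Sp.zero (h : Sp N Y φ M) (w : C2) : φ 0 w = w := h.flow.zero w

theorem Sp.add (h : Sp N Y φ M) (t s : ℝ) (w : C2) : φ (t + s) w = φ t (φ s w) := h.flow.add t s w

theorem Sp.deriv (h : Sp N Y φ M) (t : ℝ) {w : C2} (hw : w ≠ 0) :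
    HasDerivAt (fun s => φ s w) (Y (φ t w)) t := h.flow.deriv t w hw

theorem Sp.wY (h : Sp N Y φ M) {w : C2} (hw : w ≠ 0) : dt w (Y w) = -N w := by
  rw [dt_swap, h.Yw w hw]

/-- First variation. -/
theorem Sp.fv (h : Sp N Y φ M) (t : ℝ) {w : C2} (hw : w ≠ 0) (ξ : C2) :
    (dt (M t w ξ) (φ t w)).re = (dt ξ w).re := by
  rw [← h.symp t w hw ξ w, h.Mw t w hw]

/-- Chain rule for the flow with variable time and variable point. -/
theorem Sp.chain (h : Sp N Y φ M) {E : Type} [NormedAddCommGroup E] [NormedSpace ℝ E]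
    {τ : E → ℝ} {f : E → C2} {τ' : E →L[ℝ] ℝ} {f' : E →L[ℝ] C2} {x : E}
    (hτ : HasFDerivAt τ τ' x) (hf : HasFDerivAt f f' x) (hx : f x ≠ 0) :
    ∃ D : E →L[ℝ] C2, HasFDerivAt (fun y => φ (τ y) (f y)) D x ∧
      ∀ ξ, D ξ = τ' ξ • Y (φ (τ x) (f x)) + M (τ x) (f x) (f' ξ) := by
  have h1 := (h.joint (τ x) (f x) hx).comp x (hτ.prodMk hf)
  exact ⟨_, h1, fun ξ => by simp⟩

theorem Sp.norm_eq (h : Sp N Y φ M) {v w : C2} {s t : ℝ} {c μ : ℂ} (hw : w ≠ 0) (hv : v = c • w)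
    (hc : ‖c‖ = 1) (e : φ s v = μ • φ t w) : ‖μ‖ = 1 := by
  have h1 := congrArg N e
  rw [h.cons, h.hom, h.cons, hv, h.hom, hc] at h1
  have h2 : ‖μ‖ ^ 2 = 1 := by
    have := mul_right_cancel₀ (h.pos w hw).ne' h1
    linarith
  exact (pow_eq_one_iff_of_nonneg (norm_nonneg _) (by norm_num)).1 h2

theorem om_pow_ne (i : ℕ) {w : C2} (hw : w ≠ 0) : om ^ i • w ≠ 0 :=
  smul_ne_zero (pow_ne_zero _ om_ne) hw

/-- The two possible balanced configurations at the second vertex. -/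
theorem Th.cases {l : Fin 3 → C2 → ℝ} (hT : Th φ l) (h : Sp N Y φ M) {w : C2} (hw : w ≠ 0) :
    ∃ μ : Fin 3 → ℂ, (∀ i : Fin 3, φ (l i w) (om ^ (i : ℕ) • w) = μ i • φ (l 0 w) w) ∧
      (∀ i, ‖μ i‖ = 1) ∧
      ((∀ i : Fin 3, μ i ^ 2 = om ^ (2 * (i : ℕ))) ∨ ∀ i : Fin 3, μ i ^ 2 = om ^ (i : ℕ)) := by
  obtain ⟨μ, h1, h2⟩ := hT.bal w hw
  have h3 : ∀ i, ‖μ i‖ = 1 := fun i =>
    h.norm_eq hw rfl (by rw [norm_pow, norm_om, one_pow]) (h1 i)
  refine ⟨μ, h1, h3, mu_cases ?_ h3 h2⟩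
  have h4 := h1 0
  simp only [Fin.val_zero, pow_zero, one_smul] at h4
  have h5 : (μ 0 - 1) • φ (l 0 w) w = 0 := by rw [sub_smul, ← h4, one_smul, sub_self]
  exact sub_eq_zero.1 ((smul_eq_zero.1 h5).resolve_right (h.ne _ hw))

/-- The two vertices are different. -/
theorem Th.dt_ne {l : Fin 3 → C2 → ℝ} (hT : Th φ l) (h : Sp N Y φ M) {w : C2} (hw : w ≠ 0) :
    dt (φ (l 0 w) w) w ≠ 0 := by
  intro h0
  have hp := hT.pos 0 w hw
  have := hT.emb w hw 0 0 (l 0 w) ⟨hp.le, le_rfl⟩ 0 ⟨le_rfl, hp.le⟩ (by simpa [h.zero] using h0)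
  rcases this with h1 | h1 | h1
  · exact hp.ne' h1.2
  · exact hp.ne' h1.1
  · exact hp.ne h1.2

end flow

section anti

variable {T : C2 →L[ℝ] C2}

theorem Anti.im (h : Anti T) (w : C2) : (dt (T w) w).im = 0 := by
  have h1 := h.det (T w) w
  rw [h.sq, dt_neg_left, ← dt_swap] at h1
  exact conj_eq_iff_im.1 h1.symm

theorem Anti.dt_ne (h : Anti T) {w : C2} (hw : w ≠ 0) : dt (T w) w ≠ 0 := by
  intro h0
  obtain ⟨κ, hκ⟩ := exists_smul_of_dt hw h0
  have h1 := h.sq w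
  rw [hκ, h.anti, hκ, smul_smul] at h1
  have h2 : (conj κ * κ + 1) • w = 0 := by rw [add_smul, h1, one_smul, neg_add_cancel]
  have h3 := (smul_eq_zero.1 h2).resolve_right hw
  rw [mul_comm, mul_conj] at h3
  have h4 : normSq κ + 1 = 0 := by exact_mod_cast h3
  linarith [normSq_nonneg κ]

theorem Anti.re_ne (h : Anti T) {w : C2} (hw : w ≠ 0) : (dt (T w) w).re ≠ 0 :=
  fun h0 => h.dt_ne hw (Complex.ext h0 (h.im w))

theorem Anti.apply_coords (h : Anti T) (w : C2) (x y : ℂ) :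
    T (x • w + y • T w) = (-conj y) • w + conj x • T w := by
  rw [map_add, h.anti, h.anti, h.sq, smul_neg, neg_smul, add_comm]

theorem Anti.form_coords (h : Anti T) (w : C2) (x y : ℂ) :
    dt (T (x • w + y • T w)) (x • w + y • T w) = (normSq x + normSq y : ℝ) * dt (T w) w := by
  rw [h.apply_coords]
  simp only [dt_add_left, dt_add_right, dt_smul_left, dt_smul_right, dt_self, dt_swap w (T w)]
  push_cast
  rw [← mul_conj, ← mul_conj]
  ring

end anti

end Pool.Agent.MP_c01216_gt.Zoll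

end

section

set_option autoImplicit false

namespace Pool.Agent.MP_c01216_gt.Zoll

open Set Filter Topology MeasureTheory Complex
open scoped ComplexConjugate

theorem X_invertible (D : ℝ × ℝ →L[ℝ] ℂ) (κ : ℂ) (n : ℝ) (hn : n ≠ 0) (hκ : (κ ^ 2).im ≠ 0)
    (h : ∀ p, D p = n * (p.1 * κ - p.2 * conj κ)) : D.IsInvertible := by
  have hre : κ.re ≠ 0 := fun h0 => hκ (by simp [pow_two, h0])
  have him : κ.im ≠ 0 := fun h0 => hκ (by simp [pow_two, h0])
  have hinj : Function.Injective D := by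
    rw [injective_iff_map_eq_zero]
    intro p hp
    rw [h] at hp
    have h1 := (mul_eq_zero.1 hp).resolve_left (by exact_mod_cast hn)
    have h2 := congrArg re h1
    have h3 := congrArg im h1
    simp at h2 h3
    have h4 : p.1 - p.2 = 0 := by
      have : (p.1 - p.2) * κ.re = 0 := by linarith
      exact (mul_eq_zero.1 this).resolve_right hre
    have h5 : p.1 + p.2 = 0 := by
      have : (p.1 + p.2) * κ.im = 0 := by linarith
      exact (mul_eq_zero.1 this).resolve_right him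
    exact Prod.ext (by simp; linarith) (by simp; linarith)
  have hdim : Module.finrank ℝ (ℝ × ℝ) = Module.finrank ℝ ℂ := by simp
  exact ⟨((D : ℝ × ℝ →ₗ[ℝ] ℂ).linearEquivOfInjective hinj hdim).toContinuousLinearEquiv, by
    ext <;> simp⟩

theorem stX : StX := by
  intro N Y φ M h v₀ w₀ s₀ t₀ κ hv hw e hκ
  set u : (C2 × C2) × (ℝ × ℝ) := ((v₀, w₀), (s₀, t₀)) with hu
  let F : (C2 × C2) × (ℝ × ℝ) → ℂ := fun y => dt (φ y.2.1 y.1.1) (φ y.2.2 y.1.2)
  have c1 : ∀ t w, w ≠ 0 → ContDiffAt ℝ 1 (fun q : ℝ × C2 => φ q.1 q.2) (t, w) := fun t w hw =>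
    h.c1.contDiffAt ((isOpen_univ.prod isOpen_OO).mem_nhds ⟨mem_univ _, hw⟩)
  have cA : ContDiffAt ℝ 1 (fun y : (C2 × C2) × (ℝ × ℝ) => φ y.2.1 y.1.1) u :=
    ContDiffAt.comp (g := fun q : ℝ × C2 => φ q.1 q.2)
      (f := fun y : (C2 × C2) × (ℝ × ℝ) => (y.2.1, y.1.1)) u (c1 s₀ v₀ hv) (by fun_prop)
  have cB : ContDiffAt ℝ 1 (fun y : (C2 × C2) × (ℝ × ℝ) => φ y.2.2 y.1.2) u :=
    ContDiffAt.comp (g := fun q : ℝ × C2 => φ q.1 q.2)
      (f := fun y : (C2 × C2) × (ℝ × ℝ) => (y.2.2, y.1.2)) u (c1 t₀ w₀ hw) (by fun_prop)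
  have cF : ContDiffAt ℝ 1 F u := (contDiff_dt 1).contDiffAt.comp u (cA.prodMk cB)
  obtain ⟨DA, hA, hA'⟩ := h.chain (x := u)
    (τ := fun y : (C2 × C2) × (ℝ × ℝ) => y.2.1) (f := fun y => y.1.1)
    (hasFDerivAt_snd.fst) (hasFDerivAt_fst.fst) hv
  obtain ⟨DB, hB, hB'⟩ := h.chain (x := u)
    (τ := fun y : (C2 × C2) × (ℝ × ℝ) => y.2.2) (f := fun y => y.1.2)
    (hasFDerivAt_snd.snd) (hasFDerivAt_fst.snd) hw
  obtain ⟨D, hD, hD'⟩ := hasFDerivAt_dt hA hB
  have hκ0 : κ ≠ 0 := fun h0 => hκ (by simp [h0])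
  have hV : φ s₀ v₀ ≠ 0 := h.ne _ hv
  have hinv : (fderiv ℝ F u ∘L ContinuousLinearMap.inr ℝ (C2 × C2) (ℝ × ℝ)).IsInvertible := by
    refine X_invertible _ κ (N (φ s₀ v₀)) (h.pos _ hV).ne' hκ fun p => ?_
    rw [show fderiv ℝ F u = D from hD.fderiv]
    simp only [ContinuousLinearMap.comp_apply, ContinuousLinearMap.inr_apply, hD', hA', hB', hu]
    simp only [ContinuousLinearMap.coe_fst', ContinuousLinearMap.coe_snd',
      map_zero, add_zero, e, h.Yhom κ _ hκ0 hV, dt_rsmul_left, dt_rsmul_right,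
      dt_smul_right, h.Yw _ hV, h.wY hV]
    ring
  have hF0 : F u = 0 := by
    simp only [F, hu, e, dt_smul_right, dt_self, mul_zero]
  refine ⟨cF.implicitFunction one_ne_zero hinv, cF.contDiffAt_implicitFunction _ _,
    cF.implicitFunction_apply_self _ _, ?_, ?_⟩
  · filter_upwards [cF.eventually_apply_implicitFunction one_ne_zero hinv] with x hx
    rw [hF0] at hx
    exact hx
  · filter_upwards [cF.eventually_apply_eq_iff_implicitFunction one_ne_zero hinv] with y hy h0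
    exact hy.1 (by rw [hF0]; exact h0)

theorem om_sq_im_ne : (om ^ 2).im ≠ 0 := by
  rw [om_sq_im]; positivity

theorem om_im_ne : om.im ≠ 0 := by
  rw [om_im]
  have : (0 : ℝ) < √3 := by positivity
  linarith

theorem stC : StC := by
  intro N Y φ M l h hT
  have key : ∀ (j : Fin 3), j ≠ 0 → ∀ w, w ≠ 0 →
      ContDiffAt ℝ 1 (l 0) w ∧ ContDiffAt ℝ 1 (l j) w := by
    intro j hj w hw
    obtain ⟨μ, e, -, hc⟩ := hT.cases h hw
    have hκ : (μ j ^ 2).im ≠ 0 := by
      rcases hc with hc | hc <;> rw [hc j] <;> fin_cases j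
      · exact absurd rfl hj
      · exact om_sq_im_ne
      · show (om ^ 4).im ≠ 0
        rw [om_four]; exact om_im_ne
      · exact absurd rfl hj
      · simpa using om_im_ne
      · exact om_sq_im_ne
    obtain ⟨ψ, c, -, -, hu⟩ := stX N Y φ M h w (om ^ (j : ℕ) • w) (l 0 w) (l j w) (μ j) hw
      (om_pow_ne j hw) (e j) hκ
    have c0 : ContinuousAt (l 0) w := (hT.cont 0).continuousAt (OO_nhds hw)
    have cj : ContinuousAt (l j) w := (hT.cont j).continuousAt (OO_nhds hw)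
    have ct : ContinuousAt (fun x : C2 => (((x, om ^ (j : ℕ) • x), (l 0 x, l j x)) :
      (C2 × C2) × (ℝ × ℝ))) w := by fun_prop
    have hev : (fun x => (l 0 x, l j x)) =ᶠ[𝓝 w] fun x => ψ (x, om ^ (j : ℕ) • x) := by
      filter_upwards [ct.tendsto.eventually hu, OO_nhds hw] with x hx hx0
      obtain ⟨ν, e', -⟩ := hT.bal x hx0
      exact (hx (by simp only [e' j, dt_smul_right, dt_self, mul_zero])).symm
    have c2 : ContDiffAt ℝ 1 (fun x : C2 => ψ (x, om ^ (j : ℕ) • x)) w :=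
      ContDiffAt.comp (g := ψ) (f := fun x : C2 => (x, om ^ (j : ℕ) • x)) w c (by fun_prop)
    have c3 := c2.congr_of_eventuallyEq hev
    exact ⟨c3.fst, c3.snd⟩
  intro i w hw
  by_cases hi : i = 0
  · subst hi
    exact (key 1 (by decide) w hw).1.contDiffWithinAt
  · exact (key i hi w hw).2.contDiffWithinAt

end Pool.Agent.MP_c01216_gt.Zoll

end

section

set_option autoImplicit false

namespace Pool.Agent.MP_c01216_gt.Zoll

open Set Filter Topology MeasureTheory Complex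
open scoped ComplexConjugate

/-- The algebra behind the first variation argument. -/
theorem D_alg (q : ℂ → ℂ) (hadd : ∀ x y : ℝ, q (x + y * I) = x * q 1 + y * q I) (m : Fin 3 → ℂ)
    (hm : (∀ i : Fin 3, m i = om ^ (2 * (i : ℕ))) ∨ ∀ i : Fin 3, m i = om ^ (i : ℕ))
    (him : ∀ i : Fin 3, (m i * q (om ^ (i : ℕ))).im = 0) :
    ∃ b : ℝ, ∀ (i : Fin 3) (z : ℂ), (m i * q z).re = b * (om ^ (2 * (i : ℕ)) * z).re := by
  have h3 := sqrt3_sq
  have hs : (0 : ℝ) < √3 := by positivity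
  have hq : ∀ z, q z = z.re * q 1 + z.im * q I := fun z => by rw [← hadd, re_add_im]
  have h0 := him 0
  have h1 := him 1
  have h2 := him 2
  rw [hq] at h1 h2
  have e4 : om ^ (2 * ((2 : Fin 3) : ℕ)) = om := om_four
  have e2 : om ^ (2 * ((1 : Fin 3) : ℕ)) = om ^ 2 := rfl
  have e0 : om ^ (2 * ((0 : Fin 3) : ℕ)) = 1 := rfl
  have f2 : om ^ ((2 : Fin 3) : ℕ) = om ^ 2 := rfl
  have f1 : om ^ ((1 : Fin 3) : ℕ) = om := pow_one _
  have f0 : om ^ ((0 : Fin 3) : ℕ) = 1 := rfl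
  refine ⟨(q 1).re, ?_⟩
  rcases hm with hm | hm
  · rw [hm, e0, f0] at h0
    rw [hm, e2, f1] at h1
    rw [hm, e4, f2] at h2
    simp only [mul_im, add_re, add_im, mul_re, ofReal_re, ofReal_im, om_sq_re, om_sq_im, om_re,
      om_im, one_re, one_im] at h0 h1 h2
    have a1 : (q 1).im = 0 := by linarith
    have a2 : (q I).re = 0 := by
      linear_combination (-2 / 3) * (h1 + h2) + (1 / 3) * a1 - (1 / 3) * (q I).re * h3
    have a3 : (q I).im = (q 1).re := by
      have : √3 * ((q I).im - (q 1).re) = 0 := by linear_combination 2 * (h1 - h2)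
      linarith [(mul_eq_zero.1 this).resolve_left hs.ne']
    intro i z
    rw [hm, hq z]
    simp only [mul_im, add_re, add_im, mul_re, ofReal_re, ofReal_im, a1, a2, a3]
    ring
  · rw [hm, f0] at h0
    rw [hm, f1] at h1
    rw [hm, f2] at h2
    simp only [mul_im, add_re, add_im, mul_re, ofReal_re, ofReal_im, om_sq_re, om_sq_im, om_re,
      om_im, one_re, one_im] at h0 h1 h2
    have a1 : (q 1).im = 0 := by linarith
    have a2 : (q I).re = 0 := by
      linear_combination (2 / 3) * (h1 + h2) - (1 / 3) * a1 - (1 / 3) * (q I).re * h3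
    have a3 : (q I).im = -(q 1).re := by
      have : √3 * ((q I).im + (q 1).re) = 0 := by linear_combination 2 * (h1 - h2)
      linarith [(mul_eq_zero.1 this).resolve_left hs.ne']
    intro i z
    rw [hm, hq z]
    fin_cases i
    · simp [a1, a2, mul_comm]
    · show (om ^ 1 * _).re = _ * (om ^ 2 * z).re
      simp only [pow_one, mul_im, add_re, add_im, mul_re, ofReal_re, ofReal_im, a1, a2, a3,
        om_sq_re, om_sq_im, om_re, om_im]
      ring
    · show (om ^ 2 * _).re = _ * (om ^ 4 * z).re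
      simp only [om_four, mul_im, add_re, add_im, mul_re, ofReal_re, ofReal_im, a1, a2, a3,
        om_sq_re, om_sq_im, om_re, om_im]
      ring

/-- First variation of the three edges. -/
theorem D_fv {N : C2 → ℝ} {Y : C2 → C2} {φ : ℝ → C2 → C2} {M : ℝ → C2 → C2 →L[ℝ] C2}
    {l : Fin 3 → C2 → ℝ} (h : Sp N Y φ M) (hT : Th φ l) (hl : ∀ i, ContDiffOn ℝ 1 (l i) OO)
    {w : C2} (hw : w ≠ 0) :
    ∃ (q : C2 →L[ℝ] ℂ) (m : Fin 3 → ℂ),
      ((∀ i : Fin 3, m i = om ^ (2 * (i : ℕ))) ∨ ∀ i : Fin 3, m i = om ^ (i : ℕ)) ∧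
      (∀ (i : Fin 3) ξ, (m i * q ξ).re =
        (om ^ (2 * (i : ℕ)) * dt ξ w).re + fderiv ℝ (l i) w ξ * N w) ∧
      ∀ i : Fin 3, (m i * q (om ^ (i : ℕ) • Y w)).im = 0 := by
  obtain ⟨μ, e, -, hc⟩ := hT.cases h hw
  have hd : ∀ i, HasFDerivAt (l i) (fderiv ℝ (l i) w) w := fun i =>
    (((hl i).contDiffAt (OO_nhds hw)).differentiableAt one_ne_zero).hasFDerivAt
  have hs : ∀ i : Fin 3, HasFDerivAt (fun x : C2 => om ^ (i : ℕ) • x)
      (om ^ (i : ℕ) • ContinuousLinearMap.id ℝ C2) w := fun i =>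
    (hasFDerivAt_id (𝕜 := ℝ) w).const_smul (om ^ (i : ℕ))
  choose D hD hD' using fun i : Fin 3 => h.chain (hd i) (hs i) (om_pow_ne i hw)
  obtain ⟨D₀, hD₀, -⟩ := h.chain (hd 0) (hasFDerivAt_id w) hw
  set W := φ (l 0 w) w with hW
  obtain ⟨q₁, -, hq₁⟩ := hasFDerivAt_dt (hasFDerivAt_id (D₀ 0)) (hasFDerivAt_const W (D₀ 0))
  have hq : ∀ ξ, (q₁.comp D₀) ξ = dt (D₀ ξ) W := fun ξ => by
    simp [hq₁, dt]
  have key : ∀ (i : Fin 3) ξ, dt (D i ξ) (φ (l i w) (om ^ (i : ℕ) • w)) =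
      μ i ^ 2 * (q₁.comp D₀) ξ := by
    intro i ξ
    obtain ⟨E, hE, hE'⟩ := hasFDerivAt_dt (hD i) hD₀
    have hz : (fun y => dt (φ (l i y) (om ^ (i : ℕ) • y)) (φ (l 0 y) (id y))) =ᶠ[𝓝 w]
        fun _ => 0 := by
      filter_upwards [OO_nhds hw] with y hy
      obtain ⟨ν, e', -⟩ := hT.bal y hy
      simp only [e' i, id, dt_smul_left, dt_self, mul_zero]
    have h0 : E = 0 := (hE.congr_of_eventuallyEq hz.symm).unique (hasFDerivAt_const 0 w)
    have h1 := hE' ξ
    rw [h0, e i, dt_smul_left, dt_swap W] at h1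
    simp only [id, zero_apply] at h1
    rw [hq, e i, dt_smul_right]
    linear_combination (-μ i) * h1
  have hN : ∀ i : Fin 3, N (φ (l i w) (om ^ (i : ℕ) • w)) = N w := fun i => by
    rw [h.cons, h.hom, norm_pow, norm_om]; simp
  refine ⟨q₁.comp D₀, fun i => μ i ^ 2, hc, fun i ξ => ?_, fun i => ?_⟩
  · rw [← key, hD', dt_add_left, dt_rsmul_left, h.Yw _ (h.ne _ (om_pow_ne i hw)), add_re,
      h.fv _ (om_pow_ne i hw), hN]
    simp only [smul_apply, ContinuousLinearMap.id_apply, dt_smul_left,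
      dt_smul_right]
    rw [← ofReal_mul, ofReal_re, ← mul_assoc, ← pow_add, ← two_mul, add_comm]
  · have h1 : om ^ (i : ℕ) • om ^ (i : ℕ) • Y w = Y (om ^ (i : ℕ) • w) := by
      rw [h.Yhom _ _ (pow_ne_zero _ om_ne) hw, smul_smul, map_pow, conj_om, ← pow_add, ← pow_mul,
        two_mul]
    rw [← key, hD']
    simp only [smul_apply, ContinuousLinearMap.id_apply]
    rw [h1, h.MY _ _ (om_pow_ne i hw), dt_add_left, dt_rsmul_left,
      h.Yw _ (h.ne _ (om_pow_ne i hw))]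
    simp

theorem om_sum_pow : ∑ i : Fin 3, om ^ (i : ℕ) = 0 := by
  rw [Fin.sum_univ_three]
  show 1 + om ^ 1 + om ^ 2 = 0
  linear_combination om_sum

theorem om_sum_two_pow : ∑ i : Fin 3, om ^ (2 * (i : ℕ)) = 0 := by
  rw [Fin.sum_univ_three]
  show 1 + om ^ 2 + om ^ 4 = 0
  linear_combination om_sum + om_four

theorem stD : StD := by
  intro N Y φ M l h hT hl
  have hd : ∀ i w, w ≠ 0 → HasFDerivAt (l i) (fderiv ℝ (l i) w) w := fun i w hw =>
    (((hl i).contDiffAt (OO_nhds hw)).differentiableAt one_ne_zero).hasFDerivAt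
  constructor
  · have h0 : ∀ w ∈ OO, HasFDerivAt (fun x => ∑ i, l i x) (0 : C2 →L[ℝ] ℝ) w := by
      intro w hw
      obtain ⟨q, m, hm, h1, -⟩ := D_fv h hT hl hw
      have h2 := HasFDerivAt.fun_sum (u := Finset.univ) fun i _ => hd i w hw
      refine h2.congr_fderiv (ContinuousLinearMap.ext fun ξ => Eq.symm ?_)
      have h3 := Finset.sum_congr rfl fun i (_ : i ∈ Finset.univ) => h1 i ξ
      have h4 : ∑ i, m i = 0 := by
        rcases hm with hm | hm
        · rw [Finset.sum_congr rfl fun i _ => hm i, om_sum_two_pow]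
        · rw [Finset.sum_congr rfl fun i _ => hm i, om_sum_pow]
      rw [Finset.sum_add_distrib, ← re_sum, ← re_sum, ← Finset.sum_mul, ← Finset.sum_mul,
        ← Finset.sum_mul, h4, om_sum_two_pow] at h3
      simp only [zero_mul, zero_re, zero_add] at h3
      simp only [zero_apply, sum_apply]
      exact ((mul_eq_zero.1 h3.symm).resolve_right (h.pos w hw).ne').symm
    obtain ⟨L, hL⟩ := isOpen_OO.exists_is_const_of_fderiv_eq_zero (𝕜 := ℝ) isPreconnected_OO
      (fun w hw => (h0 w hw).differentiableAt.differentiableWithinAt) fun w hw => (h0 w hw).fderiv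
    exact ⟨L, hL⟩
  · intro w hw
    obtain ⟨q, m, hm, h1, h2⟩ := D_fv h hT hl hw
    obtain ⟨b, hb⟩ := D_alg (fun z => q (z • Y w)) (fun x y => by
      rw [add_smul, map_add, mul_smul, Complex.coe_smul, Complex.coe_smul, map_smul, map_smul,
        one_smul, real_smul, real_smul]) m hm h2
    have hp := h.pos w hw
    refine ⟨b / N w - 1, fun i z => ?_⟩
    have h3 := h1 i (z • Y w)
    rw [hb, dt_smul_left, h.Yw w hw, ← mul_assoc, re_mul_ofReal] at h3
    field_simp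
    linarith

end Pool.Agent.MP_c01216_gt.Zoll

end

section

set_option autoImplicit false

namespace Pool.Agent.MP_c01216_gt.Zoll

open Set Filter Topology MeasureTheory Complex
open Pool.Agent.MP_019006_gt (IsFlow)
open scoped ComplexConjugate

variable {N : C2 → ℝ} {Y : C2 → C2} {φ : ℝ → C2 → C2} {M : ℝ → C2 → C2 →L[ℝ] C2}

theorem A_hd (h : Ham N Y) {w : C2} (hw : w ≠ 0) : HasFDerivAt N (fderiv ℝ N w) w :=
  ((h.cN.contDiffAt (OO_nhds hw)).differentiableAt (by norm_num)).hasFDerivAt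

theorem A_cf (h : Ham N Y) : ContDiffOn ℝ 2 (fderiv ℝ N) OO :=
  h.cN.fderiv_of_isOpen isOpen_OO (by norm_num)

theorem A_cY (h : Ham N Y) : ContDiffOn ℝ 2 Y OO := by
  have c : ∀ η : C2, ContDiffOn ℝ 2 (fun w => ((fderiv ℝ N w η : ℝ) : ℂ)) OO := fun η =>
    ofRealCLM.contDiff.comp_contDiffOn ((A_cf h).clm_apply contDiffOn_const)
  refine ((((c (0, 1)).sub (contDiffOn_const.mul (c (0, I)) (f := fun _ => I))).div_const 2).prodMk
    (((contDiffOn_const.mul (c (I, 0)) (f := fun _ => I)).sub (c (1, 0))).div_const 2)).congr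
    fun w hw => ?_
  simp only [h.dN w hw, dt]
  refine Prod.ext (Complex.ext ?_ ?_) (Complex.ext ?_ ?_) <;> simp

theorem A_Yhom (h : Ham N Y) (c : ℂ) (w : C2) (hc : c ≠ 0) (hw : w ≠ 0) :
    Y (c • w) = conj c • Y w := by
  have h1 := (A_hd h (smul_ne_zero hc hw)).comp w ((hasFDerivAt_id (𝕜 := ℝ) w).const_smul c)
  have h2 := (A_hd h hw).const_mul (‖c‖ ^ 2)
  have e : (N ∘ fun y : C2 => c • id y) = fun y => ‖c‖ ^ 2 * N y := funext fun y => h.hom c y
  have h3 := HasFDerivAt.unique (e ▸ h1) h2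
  refine eq_of_dt_re fun ζ => ?_
  obtain ⟨η, rfl⟩ : ∃ η, ζ = c • η := ⟨c⁻¹ • ζ, by rw [smul_smul, mul_inv_cancel₀ hc, one_smul]⟩
  have h4 : fderiv ℝ N (c • w) (c • η) = ‖c‖ ^ 2 * fderiv ℝ N w η := congrArg (fun L => L η) h3
  rw [h.dN _ (smul_ne_zero hc hw), h.dN w hw] at h4
  rw [dt_smul_left, dt_smul_right _ (Y w), ← mul_assoc, mul_comm (conj c), mul_conj,
    normSq_eq_norm_sq, re_ofReal_mul]
  linarith

theorem A_Yw (h : Ham N Y) (w : C2) (hw : w ≠ 0) : dt (Y w) w = N w := by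
  have k : ∀ z : ℂ, (z * dt (Y w) w).re = z.re * N w := by
    intro z
    have h1 : HasDerivAt (fun t : ℝ => ((1 : ℂ) + t * z) • w) (z • w) 0 := by
      simpa using (((hasDerivAt_id (0 : ℝ)).ofReal_comp.mul_const z).const_add 1).smul_const w
    have h2 : HasDerivAt (fun t : ℝ => N (((1 : ℂ) + t * z) • w)) (fderiv ℝ N w (z • w)) 0 :=
      (A_hd h hw).comp_hasDerivAt_of_eq 0 h1 (by simp)
    have h3 : HasDerivAt (fun t : ℝ => ((1 + t * z.re) ^ 2 + (t * z.im) ^ 2) * N w)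
        (2 * (z.re * N w)) 0 := by
      have a := (((hasDerivAt_id (0 : ℝ)).mul_const z.re).const_add 1).pow 2
      have b := ((hasDerivAt_id (0 : ℝ)).mul_const z.im).pow 2
      refine ((a.add b).mul_const (N w)).congr_deriv ?_
      simp
      ring
    have e : (fun t : ℝ => N (((1 : ℂ) + t * z) • w)) =
        fun t : ℝ => ((1 + t * z.re) ^ 2 + (t * z.im) ^ 2) * N w := by
      funext t
      rw [h.hom, ← normSq_eq_norm_sq, normSq_apply]
      simp [sq]
    have h4 := HasDerivAt.unique (e ▸ h2) h3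
    rw [h.dN w hw, dt_smul_right] at h4
    linarith
  have k1 := k 1
  have k2 := k I
  apply Complex.ext
  · simpa using k1
  · simpa using k2

theorem A_bounds (h : Ham N Y) :
    ∃ a b : ℝ, 0 < a ∧ 0 < b ∧ ∀ w, w ≠ 0 → a * ‖w‖ ^ 2 ≤ N w ∧ N w ≤ b * ‖w‖ ^ 2 := by
  have hS : Metric.sphere (0 : C2) 1 ⊆ OO := fun w hw h0 => by
    simp [show w = 0 from h0] at hw
  have hne : (Metric.sphere (0 : C2) 1).Nonempty := ⟨(1, 0), by simp [Prod.norm_def]⟩
  have hc := h.cN.continuousOn.mono hS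
  obtain ⟨p, hp, h1⟩ := (isCompact_sphere (0 : C2) 1).exists_isMinOn hne hc
  obtain ⟨q, hq, h2⟩ := (isCompact_sphere (0 : C2) 1).exists_isMaxOn hne hc
  refine ⟨N p, N q, h.pos p (hS hp), h.pos q (hS hq), fun w hw => ?_⟩
  have n0 : ‖w‖ ≠ 0 := norm_ne_zero_iff.2 hw
  have hu : ‖w‖⁻¹ • w ∈ Metric.sphere (0 : C2) 1 := by
    rw [mem_sphere_zero_iff_norm, norm_smul, norm_inv, norm_norm, inv_mul_cancel₀ n0]
  have e : N w = N (‖w‖⁻¹ • w) * ‖w‖ ^ 2 := by
    rw [h.rhom]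
    field_simp
  rw [e]
  exact ⟨mul_le_mul_of_nonneg_right (h1 hu) (sq_nonneg _),
    mul_le_mul_of_nonneg_right (h2 hu) (sq_nonneg _)⟩

theorem A_flow (h : Ham N Y) : ∃ φ M, IsFlow OO Y φ M := by
  have hV : ∀ p : C2, p ≠ 0 → HasFDerivAt (fun w => N w + (N w)⁻¹)
      (fderiv ℝ N p + (-(N p ^ 2)⁻¹) • fderiv ℝ N p) p := fun p hp =>
    (A_hd h hp).add ((hasDerivAt_inv (h.pos p hp).ne').comp_hasFDerivAt p (A_hd h hp))
  have hD : DifferentiableOn ℝ (fun w => N w + (N w)⁻¹) OO := fun p hp =>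
    (hV p hp).differentiableAt.differentiableWithinAt
  refine MP_019006_gt.exists_isFlow isOpen_OO (A_cY h) (fun w => N w + (N w)⁻¹) 0 hD
    (fun p hp => ?_) (fun p hp => ?_) fun c => ?_
  · have := h.pos p hp
    positivity
  · rw [(hV p hp).fderiv]
    simp [h.dN p hp, dt_self]
  · obtain ⟨a, b, ha, hb, hab⟩ := A_bounds h
    set A : Set C2 := {w | 1 ≤ c * b * ‖w‖ ^ 2} ∩ Metric.closedBall 0 (c / a + 1) with hA
    have hAc : IsCompact A := (isCompact_closedBall _ _).inter_left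
      (isClosed_le continuous_const (by fun_prop))
    have hAO : A ⊆ OO := fun w hw h0 => by
      have := hw.1
      simp [show w = 0 from h0] at this
      linarith
    have e : {p | p ∈ OO ∧ N p + (N p)⁻¹ ≤ c} = A ∩ (fun w => N w + (N w)⁻¹) ⁻¹' Iic c := by
      ext p
      refine ⟨fun hp => ⟨⟨?_, ?_⟩, hp.2⟩, fun hp => ⟨hAO hp.1, hp.2⟩⟩
      · have h0 := h.pos p hp.1
        have h1 : (N p)⁻¹ ≤ c := by linarith [hp.2]
        have h2 : 0 < c := (inv_pos.2 h0).trans_le h1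
        rw [inv_le_iff_one_le_mul₀ h0] at h1
        exact h1.trans ((mul_le_mul_of_nonneg_left (hab p hp.1).2 h2.le).trans_eq
          (mul_assoc _ _ _).symm)
      · have h0 := inv_pos.2 (h.pos p hp.1)
        have h1 : ‖p‖ ^ 2 ≤ c / a := by
          rw [le_div_iff₀ ha]
          linarith [hp.2, (hab p hp.1).1]
        rw [mem_closedBall_zero_iff]
        nlinarith [sq_nonneg (‖p‖ - 1)]
    rw [e]
    exact hAc.of_isClosed_subset ((hD.continuousOn.mono hAO).preimage_isClosed_of_isClosed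
      hAc.isClosed isClosed_Iic) inter_subset_left

theorem A_symm (h : Ham N Y) {p : C2} (hp : p ≠ 0) (a b : C2) :
    (dt (fderiv ℝ Y p a) b + dt a (fderiv ℝ Y p b)).re = 0 := by
  have hY := (((A_cY h).contDiffAt (OO_nhds hp)).differentiableAt (by norm_num)).hasFDerivAt
  have hf := (((A_cf h).contDiffAt (OO_nhds hp)).differentiableAt (by norm_num)).hasFDerivAt
  have k : ∀ a b : C2, fderiv ℝ (fderiv ℝ N) p a b = 2 * (dt (fderiv ℝ Y p a) b).re := by
    intro a b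
    obtain ⟨D, hD, e⟩ := hasFDerivAt_dt hY (hasFDerivAt_const b p)
    have h1 := (reCLM.hasFDerivAt.comp p hD).const_mul 2
    have h2 := (hf.clm_apply (hasFDerivAt_const b p)).congr_of_eventuallyEq
      (f₁ := fun y => 2 * (reCLM ∘ fun y => dt (Y y) b) y) (by
        filter_upwards [OO_nhds hp] with y hy
        exact (h.dN y hy b).symm)
    have h3 := congrArg (fun L => L a) (h1.unique h2)
    simp only [smul_apply, ContinuousLinearMap.comp_apply, e] at h3
    simpa [dt] using h3.symm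
  have s := ((h.cN.contDiffAt (OO_nhds hp)).isSymmSndFDerivAt (by simp; norm_num)).eq a b
  rw [k, k] at s
  rw [dt_swap a, add_re, neg_re]
  linarith

theorem A_uniq (f : IsFlow OO Y φ M) {c : ℝ → C2} (hc : ∀ s, c s ≠ 0)
    (hd : ∀ s, HasDerivAt c (Y (c s)) s) (t : ℝ) : φ t (c 0) = c t := by
  have h0 := abs_nonneg t
  have := f.uniq c (-(|t| + 1)) (|t| + 1) 0 ⟨by linarith, by linarith⟩ (fun s _ => ⟨hc s, hd s⟩) t
    ⟨by linarith [neg_abs_le t], by linarith [le_abs_self t]⟩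
  rw [this, sub_zero]

theorem A_joint (h : Ham N Y) (f : IsFlow OO Y φ M) (t : ℝ) (w : C2) (hw : w ≠ 0) :
    HasFDerivAt (fun q : ℝ × C2 => φ q.1 q.2)
      ((ContinuousLinearMap.fst ℝ ℝ C2).smulRight (Y (φ t w)) +
        (M t w).comp (ContinuousLinearMap.snd ℝ ℝ C2)) (t, w) := by
  have hn : (univ ×ˢ OO : Set (ℝ × C2)) ∈ 𝓝 (t, w) :=
    (isOpen_univ.prod isOpen_OO).mem_nhds ⟨trivial, hw⟩
  have c1 : ContinuousAt (fun q : ℝ × C2 => Y (φ q.1 q.2)) (t, w) :=
    ContinuousAt.comp (g := Y) ((A_cY h).continuousOn.continuousAt (OO_nhds (f.mem t w hw)))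
      (f.cont.continuousAt hn)
  have := hasStrictFDerivAt_uncurry_coprod (𝕜 := ℝ) (u := (t, w)) (f := φ)
    (f₁ := fun s p => (ContinuousLinearMap.smulRightL ℝ ℝ C2 1) (Y (φ s p))) (f₂ := M)
    (by
      filter_upwards [hn] with v hv
      exact (f.deriv v.1 v.2 hv.2).hasFDerivAt)
    (by
      filter_upwards [hn] with v hv
      exact f.fderiv v.1 v.2 hv.2)
    ((ContinuousLinearMap.smulRightL ℝ ℝ C2 1).continuous.continuousAt.comp c1)
    (f.Mcont.continuousAt hn)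
  refine this.hasFDerivAt.congr_fderiv ?_
  refine ContinuousLinearMap.ext fun q => ?_
  rfl

theorem stA : StA := by
  intro N Y h
  obtain ⟨φ, M, f⟩ := A_flow h
  have z : ∀ t, φ t 0 = 0 := fun t => f.junk t 0 fun h0 => h0 rfl
  have real : ∀ t (r : ℝ) (w : C2), r ≠ 0 → φ t (r • w) = r • φ t w := by
    intro t r w hr
    rcases eq_or_ne w 0 with rfl | hw
    · simp [z]
    have := A_uniq f (c := fun s => r • φ s w) (fun s => smul_ne_zero hr (f.mem s w hw))
      (fun s => by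
        have e := A_Yhom h r (φ s w) (ofReal_ne_zero.2 hr) (f.mem s w hw)
        rw [conj_ofReal, Complex.coe_smul, Complex.coe_smul] at e
        rw [e]
        exact (f.deriv s w hw).const_smul r) t
    simpa only [f.zero] using this
  refine ⟨φ, M, { h with
    cY := A_cY h, Yhom := A_Yhom h, Yw := A_Yw h, flow := f, cons := fun t w => ?_, real := real,
    imag := fun t w => ?_, Mw := fun t w hw => ?_, MY := fun t w hw => ?_,
    symp := fun t w hw ξ η => ?_, c1 := fun q hq => ?_, joint := A_joint h f }⟩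
  · rcases eq_or_ne w 0 with rfl | hw
    · rw [z]
    have k : ∀ s, HasDerivAt (fun s => N (φ s w)) 0 s := fun s => by
      have := (A_hd h (f.mem s w hw)).comp_hasDerivAt s (f.deriv s w hw)
      rwa [h.dN _ (f.mem s w hw), dt_self, zero_re, mul_zero] at this
    have := is_const_of_deriv_eq_zero (fun s => (k s).differentiableAt) (fun s => (k s).deriv) t 0
    rwa [f.zero] at this
  · rcases eq_or_ne w 0 with rfl | hw
    · simp [z]
    have := A_uniq f (c := fun s => I • φ (-s) w)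
      (fun s => smul_ne_zero I_ne_zero (f.mem _ w hw))
      (fun s => by
        rw [A_Yhom h I _ I_ne_zero (f.mem _ w hw), conj_I]
        refine (((f.deriv (-s) w hw).scomp s (hasDerivAt_neg s)).const_smul I).congr_deriv ?_
        simp) t
    simpa only [neg_zero, f.zero] using this
  · have h1 : HasDerivAt (fun r : ℝ => φ t (r • w)) (M t w w) 1 :=
      (f.fderiv t w hw).comp_hasDerivAt_of_eq 1
        (by simpa using (hasDerivAt_id (1 : ℝ)).smul_const w) (by simp)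
    have h2 : HasDerivAt (fun r : ℝ => φ t (r • w)) (φ t w) 1 := by
      refine HasDerivAt.congr_of_eventuallyEq (f := fun r : ℝ => r • φ t w)
        (by simpa using (hasDerivAt_id (1 : ℝ)).smul_const (φ t w)) ?_
      filter_upwards [isOpen_ne.mem_nhds (one_ne_zero (α := ℝ))] with r hr
      exact real t r w hr
    exact h1.unique h2
  · have h0 := f.deriv 0 w hw
    rw [f.zero] at h0
    have h1 : HasDerivAt (fun s => φ t (φ s w)) (M t w (Y w)) 0 :=
      (f.fderiv t w hw).comp_hasDerivAt_of_eq 0 h0 (f.zero w).symm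
    have h2 : HasDerivAt (fun s => φ (t + s) w) (Y (φ (t + 0) w)) 0 :=
      (f.deriv (t + 0) w hw).comp_const_add t 0
    simp only [f.add, f.zero] at h2
    exact h1.unique h2
  · have a : ∀ ζ s, HasDerivAt (fun s => M s w ζ) (fderiv ℝ Y (φ s w) (M s w ζ)) s := fun ζ s => by
      simpa using (f.Mderiv s w hw).clm_apply (hasDerivAt_const s ζ)
    have k : ∀ s, HasDerivAt (fun s => (dt (M s w ξ) (M s w η)).re) 0 s := fun s => by
      have := reCLM.hasFDerivAt.comp_hasDerivAt s (hasDerivAt_dt (a ξ s) (a η s))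
      rwa [reCLM_apply, A_symm h (f.mem s w hw)] at this
    have := is_const_of_deriv_eq_zero (fun s => (k s).differentiableAt) (fun s => (k s).deriv) t 0
    have h2 : φ 0 = id := funext f.zero
    have h3 : M 0 w = ContinuousLinearMap.id ℝ C2 :=
      (h2 ▸ f.fderiv 0 w hw).unique (hasFDerivAt_id w)
    simpa only [h3, ContinuousLinearMap.id_apply] using this
  · refine (contDiffAt_one_iff.2 ⟨fun q => (ContinuousLinearMap.fst ℝ ℝ C2).smulRight
      (Y (φ q.1 q.2)) + (M q.1 q.2).comp (ContinuousLinearMap.snd ℝ ℝ C2), univ ×ˢ OO,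
      (isOpen_univ.prod isOpen_OO).mem_nhds hq, ?_,
      fun x hx => A_joint h f x.1 x.2 hx.2⟩).contDiffWithinAt
    have c1 : ContinuousOn (fun q : ℝ × C2 => Y (φ q.1 q.2)) (univ ×ˢ OO) :=
      (A_cY h).continuousOn.comp f.cont fun x hx => f.mem x.1 x.2 hx.2
    exact ((ContinuousLinearMap.smulRightL ℝ (ℝ × C2) C2
      (ContinuousLinearMap.fst ℝ ℝ C2)).continuous.comp_continuousOn c1).add
      (f.Mcont.clm_comp continuousOn_const)

end Pool.Agent.MP_c01216_gt.Zoll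

end

section

set_option autoImplicit false

namespace Pool.Agent.MP_c01216_gt.Zoll

open Set Filter Topology MeasureTheory Complex
open scoped ComplexConjugate

namespace StB3

theorem inner3 (x y : E3) : inner ℝ x y = x 0 * y 0 + x 1 * y 1 + x 2 * y 2 := by
  simp [PiLp.inner_apply, Fin.sum_univ_three, mul_comm]

theorem nn_pos {w : C2} (hw : w ≠ 0) : 0 < nn w := by
  refine (add_nonneg (normSq_nonneg _) (normSq_nonneg _)).lt_of_ne fun h => hw ?_
  have h1 := normSq_nonneg w.1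
  have h2 := normSq_nonneg w.2
  exact Prod.ext (normSq_eq_zero.1 (by linarith)) (normSq_eq_zero.1 (by linarith))

theorem nn_smul (c : ℂ) (w : C2) : nn (c • w) = normSq c * nn w := by
  simp [nn, mul_add]

theorem hopf_smul {c : ℂ} (hc : c ≠ 0) (w : C2) : hopf (c • w) = hopf w := by
  have h := (normSq_pos.2 hc).ne'
  rw [hopf, hopf, nn_smul, mul_inv, mul_comm, mul_smul]
  congr 1
  rw [inv_smul_eq_iff₀ h]
  ext i
  fin_cases i <;> simp [normSq_apply] <;> ring

theorem nuR_smul (c : ℂ) (w : C2) :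
    nuR (c • w) = (c ^ 2).re • nuR w - (c ^ 2).im • nuI w := by
  ext i
  fin_cases i <;> simp [nuR, nuI, pow_two] <;> ring

theorem vel_smul (u : E3 → ℝ) {c : ℂ} (hc : c ≠ 0) (w : C2) : vel u (c • w) =
    (Real.exp (-u (hopf w)) / (normSq c * nn w)) • ((c ^ 2).re • nuR w - (c ^ 2).im • nuI w) := by
  rw [vel, hopf_smul hc, nn_smul, nuR_smul]

theorem vel_real (u : E3 → ℝ) {r : ℝ} (hr : r ≠ 0) (w : C2) : vel u (r • w) = vel u w := by
  rw [← Complex.coe_smul, vel_smul u (ofReal_ne_zero.2 hr), ← ofReal_pow, ofReal_re, ofReal_im,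
    zero_smul, sub_zero, smul_smul, vel, normSq_ofReal]
  congr 1
  field_simp

theorem vel_unit (u : E3 → ℝ) {c : ℂ} (hc : ‖c‖ = 1) (w : C2) : vel u (c • w) =
    (Real.exp (-u (hopf w)) / nn w) • ((c ^ 2).re • nuR w - (c ^ 2).im • nuI w) := by
  rw [vel_smul u (by rintro rfl; simp at hc), normSq_eq_norm_sq, hc, one_pow, one_mul]

theorem RR (w : C2) : inner ℝ (nuR w) (nuR w) = nn w ^ 2 := by
  rw [inner3]
  simp [nuR, nn, normSq_apply, pow_two]; ring

theorem II (w : C2) : inner ℝ (nuI w) (nuI w) = nn w ^ 2 := by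
  rw [inner3]
  simp [nuI, nn, normSq_apply, pow_two]; ring

theorem RI (w : C2) : inner ℝ (nuR w) (nuI w) = 0 := by
  simp [inner3, nuR, nuI, pow_two]; ring

theorem HR (w : C2) : inner ℝ (hopf w) (nuR w) = 0 := by
  rw [hopf, real_inner_smul_left]
  refine mul_eq_zero_of_right _ ?_
  simp [inner3, nuR, normSq_apply, pow_two]; ring

theorem HH {v w : C2} (hv : v ≠ 0) (hw : w ≠ 0) :
    nn v * nn w * (1 - inner ℝ (hopf v) (hopf w)) = 2 * normSq (dt v w) := by
  have h1 := (nn_pos hv).ne'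
  have h2 := (nn_pos hw).ne'
  rw [hopf, hopf, real_inner_smul_left, real_inner_smul_right]
  field_simp
  simp [inner3, nn, dt, normSq_apply]; ring

theorem hopf_self {w : C2} (hw : w ≠ 0) : inner ℝ (hopf w) (hopf w) = (1 : ℝ) := by
  have h := HH hw hw
  rw [dt_self, map_zero, mul_zero] at h
  linarith [(mul_eq_zero.1 h).resolve_left (mul_pos (nn_pos hw) (nn_pos hw)).ne']

theorem hopf_eq {v w : C2} (hv : v ≠ 0) (hw : w ≠ 0) : hopf v = hopf w ↔ dt v w = 0 := by
  refine ⟨fun h => ?_, fun h => ?_⟩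
  · have h1 := HH hv hw
    rw [h, hopf_self hw] at h1
    exact normSq_eq_zero.1 (by linarith)
  · obtain ⟨κ, rfl⟩ := exists_smul_of_dt hw h
    exact hopf_smul (left_ne_zero_of_smul hv) w

theorem mem_UT (u : E3 → ℝ) {w : C2} (hw : w ≠ 0) : (hopf w, vel u w) ∈ UT u := by
  have h0 := nn_pos hw
  refine ⟨?_, ?_, ?_⟩
  · have := hopf_self hw
    rw [real_inner_self_eq_norm_sq] at this
    exact (pow_eq_one_iff_of_nonneg (norm_nonneg _) two_ne_zero).1 this
  · simp only [vel, real_inner_smul_right, HR, mul_zero]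
  · have := RR w
    rw [real_inner_self_eq_norm_sq] at this
    simp only [vel]
    rw [norm_smul, (pow_left_inj₀ (norm_nonneg _) h0.le two_ne_zero).1 this,
      Real.norm_of_nonneg (by positivity), div_mul_cancel₀ _ h0.ne', ← Real.exp_add,
      add_neg_cancel, Real.exp_zero]

theorem vel_om (u : E3 → ℝ) {w : C2} (hw : w ≠ 0) :
    vel u (om • w) = rot (hopf w) (vel u w) := by
  have h0 := (nn_pos hw).ne'
  rw [vel_unit u norm_om, om_sq_re, om_sq_im, rot, vel]
  generalize Real.exp (-u (hopf w)) / nn w = k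
  ext i
  fin_cases i <;> simp [hopf, nuR, nuI, pow_two] <;> field_simp <;>
    simp only [nn, normSq_apply] <;> ring

theorem vel_sum (u : E3 → ℝ) {μ : Fin 3 → ℂ} (hμ : ∀ i, ‖μ i‖ = 1) {w : C2} (hw : w ≠ 0) :
    ∑ i, vel u (μ i • w) = 0 ↔ ∑ i, μ i ^ 2 = 0 := by
  have h0 := nn_pos hw
  simp only [vel_unit u (hμ _), ← Finset.smul_sum, Finset.sum_sub_distrib, ← Finset.sum_smul,
    ← re_sum, ← im_sum]
  rw [smul_eq_zero_iff_right (by positivity)]
  refine ⟨fun h => ?_, fun h => by simp [h]⟩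
  have h1 := congrArg (inner ℝ (nuR w)) h
  have h2 := congrArg (fun x => inner ℝ x (nuI w)) h
  simp only [inner_sub_right, inner_sub_left, real_inner_smul_right, real_inner_smul_left, RR, II,
    RI, inner_zero_right, inner_zero_left, mul_zero, sub_zero, zero_sub, neg_eq_zero] at h1 h2
  exact Complex.ext ((mul_eq_zero.1 h1).resolve_right (by positivity))
    ((mul_eq_zero.1 h2).resolve_right (by positivity))

theorem cont_nn : Continuous nn := by
  unfold nn
  fun_prop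

theorem cont_hopf : ContinuousOn hopf OO := by
  refine (cont_nn.continuousOn.inv₀ fun w hw => (nn_pos hw).ne').smul
    (Continuous.continuousOn ((PiLp.continuous_toLp 2 _).comp (continuous_pi fun i => ?_)))
  fin_cases i <;> simp <;> fun_prop

theorem cont_vel {u : E3 → ℝ} (hu : Continuous u) : ContinuousOn (vel u) OO := by
  refine ((hu.comp_continuousOn cont_hopf).neg.rexp.div cont_nn.continuousOn
    fun w hw => (nn_pos hw).ne').smul
    (Continuous.continuousOn ((PiLp.continuous_toLp 2 _).comp (continuous_pi fun i => ?_)))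
  fin_cases i <;> simp <;> fun_prop

end StB3

open StB3 in
theorem stB3 (h2 : StB2) : StB3 := by
  intro u hu φ M h l hl hγ
  have key : ∀ w, w ≠ 0 → ∃ γ : Fin 3 → ℝ → E3,
      IsTheta u γ (fun i => l i (hopf w, vel u w)) ∧ ∀ i : Fin 3,
        ∀ t ∈ Icc (0 : ℝ) (l i (hopf w, vel u w)), γ i t = hopf (φ t (om ^ (i : ℕ) • w)) ∧
          deriv (γ i) t = vel u (φ t (om ^ (i : ℕ) • w)) := fun w hw => by
    obtain ⟨γ, hT, e0, e1, e2⟩ := hγ _ (mem_UT u hw)
    refine ⟨γ, hT, fun i => h2 u hu φ M h _ (om_pow_ne i hw) _ _ (hT.1 i).1 (hT.1 i).2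
      (by rw [(hT.2.2.1 i).1, e0, hopf_smul (pow_ne_zero _ om_ne)]) ?_⟩
    have a0 : deriv (γ 0) 0 = vel u (om ^ 0 • w) := by rw [e1, pow_zero, one_smul]
    have a1 : deriv (γ 1) 0 = vel u (om ^ 1 • w) := by rw [e2, pow_one, vel_om u hw]
    have a2 := (vel_sum u (μ := fun i => om ^ (i : ℕ))
      (fun i => by rw [norm_pow, norm_om, one_pow]) hw).2 (by
        rw [Fin.sum_univ_three]
        show (om ^ 0) ^ 2 + (om ^ 1) ^ 2 + (om ^ 2) ^ 2 = 0
        linear_combination om_sum + om_four)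
    have a3 := hT.2.2.2.2.1
    rw [Fin.sum_univ_three] at a2 a3
    rw [a0, a1] at a3
    fin_cases i
    exacts [a0, a1, add_left_cancel (a3.trans a2.symm)]
  refine ⟨fun i => (hl i).comp (cont_hopf.prodMk (cont_vel hu.continuous)) fun w hw => mem_UT u hw,
    fun i w hw => ?_, fun i r w hr => ?_, fun w hw i j s hs t ht e => ?_, fun w hw => ?_⟩
  · obtain ⟨γ, hT, -⟩ := key w hw
    exact (hT.1 i).1
  · rw [vel_real u hr, ← Complex.coe_smul, hopf_smul (ofReal_ne_zero.2 hr)]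
  · obtain ⟨γ, hT, g⟩ := key w hw
    refine hT.2.2.2.1 i j s hs t ht ?_
    rw [(g i s hs).1, (g j t ht).1]
    exact (hopf_eq (h.ne _ (om_pow_ne i hw)) (h.ne _ (om_pow_ne j hw))).2 e
  · obtain ⟨γ, hT, g⟩ := key w hw
    have g' := fun i => g i _ ⟨(hT.1 i).1.le, le_rfl⟩
    have hW := h.ne (l 0 (hopf w, vel u w)) hw
    have ex : ∀ i : Fin 3, ∃ μ : ℂ, φ (l i (hopf w, vel u w)) (om ^ (i : ℕ) • w) =
        μ • φ (l 0 (hopf w, vel u w)) w := fun i => by
      refine exists_smul_of_dt hW ((hopf_eq (h.ne _ (om_pow_ne i hw)) hW).1 ?_)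
      rw [← (g' i).1, (hT.2.2.1 i).2, (g' 0).1]
      simp
    choose μ hμ using ex
    refine ⟨μ, hμ, (vel_sum u (fun i => h.norm_eq hw rfl
      (by rw [norm_pow, norm_om, one_pow]) (hμ i)) hW).1 ?_⟩
    simp only [← hμ, ← fun i => (g' i).2]
    exact hT.2.2.2.2.2

end Pool.Agent.MP_c01216_gt.Zoll

end

section

/-! Homogeneous holomorphic functions on the punctured plane. -/

set_option autoImplicit false

namespace Pool.Agent.MP_c01216_gt.Zoll

open Set Filter Topology MeasureTheory Complex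

theorem E1_lim {h G : ℂ → ℂ} (hh : Differentiable ℂ h) (hG : ContinuousAt G 0)
    (e : ∀ t, t ≠ 0 → h t = G t⁻¹) (t : ℂ) : h t = G 0 := by
  refine hh.apply_eq_of_tendsto_cocompact t ?_
  rw [← Metric.cobounded_eq_cocompact]
  refine (hG.tendsto.comp tendsto_inv₀_cobounded).congr' ?_
  filter_upwards [Bornology.eventually_ne_cobounded (0 : ℂ)] with s hs
  exact (e s hs).symm

theorem E1_line {F : C2 → ℂ} (hd : DifferentiableOn ℝ F OO)
    (hl : ∀ w, w ≠ 0 → ∀ (z : ℂ) (η : C2), fderiv ℝ F w (z • η) = z * fderiv ℝ F w η)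
    (p v : C2) (h : ∀ t : ℂ, p + t • v ≠ 0) : Differentiable ℂ fun t : ℂ => F (p + t • v) := by
  intro t
  have h1 : HasFDerivAt F (fderiv ℝ F (p + t • v)) (p + t • v) :=
    (hd.differentiableAt (isOpen_ne.mem_nhds (h t))).hasFDerivAt
  have h2 : HasFDerivAt (fun t : ℂ => p + t • v)
      ((ContinuousLinearMap.toSpanSingleton ℂ v).restrictScalars ℝ) t :=
    (((ContinuousLinearMap.toSpanSingleton ℂ v).restrictScalars ℝ).hasFDerivAt).const_add p
  refine (hasFDerivAt_of_restrictScalars ℝ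
    (f' := ContinuousLinearMap.toSpanSingleton ℂ (fderiv ℝ F (p + t • v) v)) (h1.comp t h2)
    (ContinuousLinearMap.ext fun z => ?_)).differentiableAt
  exact (hl _ (h t) z v).symm

theorem E1_dslope {f : ℂ → ℂ} (hf : Differentiable ℂ f) : Differentiable ℂ (dslope f 0) :=
  differentiableOn_univ.1 ((differentiableOn_dslope univ_mem).2 hf.differentiableOn)

theorem E1_eq (f : ℂ → ℂ) (t : ℂ) : f t = f 0 + t * dslope f 0 t := by
  have := sub_smul_dslope f 0 t
  rw [sub_zero, smul_eq_mul] at this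
  rw [this]
  ring

theorem E1_neg {f g : ℂ → ℂ} {k : ℤ} (hk : k < 0) (hf : Differentiable ℂ f) (hg : Continuous g)
    (e : ∀ t, t ≠ 0 → f t = t ^ k * g t⁻¹) (t : ℂ) : f t = 0 := by
  obtain ⟨n, hn⟩ := Int.eq_ofNat_of_zero_le (show 0 ≤ -k - 1 by omega)
  have := E1_lim (G := fun s => s ^ (n + 1) * g s) hf (by fun_prop) (fun s hs => by
    rw [e s hs, show k = -((n + 1 : ℕ) : ℤ) by push_cast; omega, zpow_neg, zpow_natCast, inv_pow]) t
  simpa using this

theorem stE1 : StE1 := by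
  intro F k hd hl hom
  have n1 : ∀ t : ℂ, ((t, 1) : C2) ≠ 0 := fun t h => one_ne_zero (congrArg Prod.snd h)
  have n2 : ∀ t : ℂ, ((1, t) : C2) ≠ 0 := fun t h => one_ne_zero (congrArg Prod.fst h)
  have hf : Differentiable ℂ fun t : ℂ => F (t, 1) := by
    simpa using E1_line hd hl (0, 1) (1, 0) fun t => by simp
  have hg : Differentiable ℂ fun t : ℂ => F (1, t) := by
    simpa using E1_line hd hl (1, 0) (0, 1) fun t => by simp
  have e1 : ∀ a b : ℂ, a ≠ 0 → F (a, b) = a ^ k * F (1, b * a⁻¹) := fun a b ha => by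
    rw [← hom a _ ha (n2 _), Prod.smul_mk, smul_eq_mul, smul_eq_mul, mul_one, mul_comm b,
      mul_inv_cancel_left₀ ha]
  have e2 : ∀ a b : ℂ, b ≠ 0 → F (a, b) = b ^ k * F (a * b⁻¹, 1) := fun a b hb => by
    rw [← hom b _ hb (n1 _), Prod.smul_mk, smul_eq_mul, smul_eq_mul, mul_one, mul_comm a,
      mul_inv_cancel_left₀ hb]
  have e3 : ∀ t : ℂ, t ≠ 0 → F (t, 1) = t ^ k * F (1, t⁻¹) := fun t ht => by
    rw [e1 t 1 ht, one_mul]
  have e4 : ∀ t : ℂ, t ≠ 0 → F (1, t) = t ^ k * F (t⁻¹, 1) := fun t ht => by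
    rw [e2 1 t ht, one_mul]
  have hc := hg.continuous
  have cases : ∀ P : C2 → Prop, (∀ a, a ≠ 0 → P (a, 0)) → (∀ a b, b ≠ 0 → P (a, b)) →
      ∀ w, w ≠ 0 → P w := by
    rintro P h1 h2 ⟨a, b⟩ hw
    by_cases hb : b = 0
    · subst hb
      exact h1 a fun ha => hw (by rw [ha]; rfl)
    · exact h2 a b hb
  refine ⟨fun hk => cases _ (fun a ha => ?_) fun a b hb => ?_, ?_, ?_, ?_⟩
  · rw [e1 a 0 ha, E1_neg hk hg hf.continuous e4, mul_zero]
  · rw [e2 a b hb, E1_neg hk hf hc e3, mul_zero]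
  · rintro rfl
    have h := E1_lim (G := fun s => F (1, s)) hf hc.continuousAt fun t ht => by
      rw [e3 t ht, zpow_zero, one_mul]
    refine ⟨F (1, 0), cases _ (fun a ha => ?_) fun a b hb => ?_⟩
    · rw [e1 a 0 ha, zpow_zero, one_mul, zero_mul]
    · rw [e2 a b hb, zpow_zero, one_mul, h]
  · rintro rfl
    have h := E1_lim (G := fun s => F (1, s) - F (0, 1) * s) (E1_dslope hf)
      (hc.continuousAt.sub (by fun_prop)) fun t ht => by
        have := E1_eq (fun t => F (t, 1)) t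
        rw [e3 t ht, zpow_one] at this
        refine mul_left_cancel₀ ht ?_
        rw [mul_sub, mul_left_comm, mul_inv_cancel₀ ht]
        linear_combination -this
    refine ⟨F (1, 0), F (0, 1), cases _ (fun a ha => ?_) fun a b hb => ?_⟩
    · rw [e1 a 0 ha, zpow_one, zero_mul]
      ring
    · rw [e2 a b hb, zpow_one, E1_eq (fun t => F (t, 1)), h]
      field_simp
      ring
  · rintro rfl
    have h := E1_lim (G := fun s => F (1, s) - dslope (fun t => F (t, 1)) 0 0 * s - F (0, 1) * s ^ 2)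
      (E1_dslope (E1_dslope hf)) ((hc.continuousAt.sub (by fun_prop)).sub (by fun_prop))
      fun t ht => by
        have := E1_eq (fun t => F (t, 1)) t
        rw [e3 t ht, E1_eq (dslope _ 0) t, zpow_ofNat] at this
        refine mul_left_cancel₀ (pow_ne_zero 2 ht) ?_
        have i1 : t * t⁻¹ = 1 := mul_inv_cancel₀ ht
        linear_combination -this + (dslope (fun t => F (t, 1)) 0 0 * t + F (0, 1) * (t * t⁻¹ + 1)) * i1
    refine ⟨F (1, 0), dslope (fun t => F (t, 1)) 0 0, F (0, 1),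
      cases _ (fun a ha => ?_) fun a b hb => ?_⟩
    · rw [e1 a 0 ha, zpow_ofNat, zero_mul]
      ring
    · rw [e2 a b hb, zpow_ofNat, E1_eq (fun t => F (t, 1)), E1_eq (dslope _ 0), h]
      field_simp
      ring

end Pool.Agent.MP_c01216_gt.Zoll

end

section

set_option autoImplicit false

namespace Pool.Agent.MP_c01216_gt.Zoll

open Set Filter Topology MeasureTheory Complex
open scoped ComplexConjugate

/-- The quadratic form. -/
def F_Q (A B C : ℂ) (w : C2) : ℂ := A * w.1 ^ 2 + B * w.1 * w.2 + C * w.2 ^ 2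

/-- The linear map of the quadratic form. -/
def F_S (A B C : ℂ) (w : C2) : C2 := (B * w.1 + 2 * C * w.2, -2 * A * w.1 - B * w.2)

variable {A B C : ℂ}

theorem F_two (w : C2) : dt (F_S A B C w) w = 2 * F_Q A B C w := by
  simp only [dt, F_S, F_Q]; ring

theorem F_skew (ξ η : C2) : dt (F_S A B C ξ) η + dt ξ (F_S A B C η) = 0 := by
  simp only [dt, F_S]; ring

theorem F_smul (c : ℂ) (w : C2) : F_Q A B C (c • w) = c ^ 2 * F_Q A B C w := by
  simp only [F_Q, Prod.smul_fst, Prod.smul_snd, smul_eq_mul]; ring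

theorem F_lin (x y : ℂ) (ξ η : C2) :
    F_S A B C (x • ξ + y • η) = x • F_S A B C ξ + y • F_S A B C η := by
  ext <;> simp only [F_S, Prod.smul_fst, Prod.smul_snd, Prod.fst_add, Prod.snd_add, smul_eq_mul] <;>
    ring

theorem F_deriv {f : ℝ → C2} {f' : C2} {s : ℝ} (hf : HasDerivAt f f' s) :
    HasDerivAt (fun t => F_Q A B C (f t)) (dt (F_S A B C (f s)) f') s := by
  have h1 : HasDerivAt (fun t => (f t).1) f'.1 s := hf.hasFDerivAt.fst.hasDerivAt.congr_deriv (by simp)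
  have h2 : HasDerivAt (fun t => (f t).2) f'.2 s := hf.hasFDerivAt.snd.hasDerivAt.congr_deriv (by simp)
  have h3 := (((h1.mul h1).const_mul A).add ((h1.mul h2).const_mul B)).add ((h2.mul h2).const_mul C)
  have e : (fun t => F_Q A B C (f t)) = fun t =>
      A * ((f t).1 * (f t).1) + B * ((f t).1 * (f t).2) + C * ((f t).2 * (f t).2) := by
    funext t; simp only [F_Q]; ring
  rw [e]
  refine HasDerivAt.congr_deriv h3 ?_
  simp only [dt, F_S]; ring

theorem F_zero (A B C : ℂ) : ∃ w : C2, w ≠ 0 ∧ F_Q A B C w = 0 := by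
  by_cases hA : A = 0
  · exact ⟨(1, 0), by simp, by simp [F_Q, hA]⟩
  · obtain ⟨r, hr⟩ := IsAlgClosed.exists_pow_nat_eq (B ^ 2 - 4 * A * C) (n := 2) (by norm_num)
    refine ⟨(r - B, 2 * A), fun h => hA ?_, ?_⟩
    · have h2 : 2 * A = 0 := congrArg Prod.snd h
      exact (mul_eq_zero.1 h2).resolve_left two_ne_zero
    · simp only [F_Q]
      linear_combination A * hr

theorem F_norm_deriv {f h : ℝ → ℂ} {f' h' : ℂ} (hf : HasDerivAt f f' 0) (hh : HasDerivAt h h' 0)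
    (f0 : f 0 = 0) (h0 : h 0 = 0) (e : ∀ s, ‖f s‖ = ‖h s‖) : ‖f'‖ = ‖h'‖ := by
  have h1 := (hasDerivAt_iff_tendsto_slope_zero.1 hf).norm
  have h2 := (hasDerivAt_iff_tendsto_slope_zero.1 hh).norm
  simp only [f0, h0, sub_zero, norm_smul, e] at h1 h2
  exact tendsto_nhds_unique h1 h2

section main

variable {N : C2 → ℝ} {Y : C2 → C2} {φ : ℝ → C2 → C2} {M : ℝ → C2 → C2 →L[ℝ] C2}
  {l : Fin 3 → C2 → ℝ}

theorem F_key (h : Sp N Y φ M) (hc : ∀ i, ContDiffOn ℝ 1 (l i) OO)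
    (ha : ∀ w, w ≠ 0 → ∃ a : ℝ, ∀ (i : Fin 3) (z : ℂ),
      fderiv ℝ (l i) w (z • Y w) = a * (om ^ (2 * (i : ℕ)) * z).re) {g₀ : ℂ}
    (hg : ∀ w, w ≠ 0 → 2 / 3 * ∑ i : Fin 3, om ^ (i : ℕ) * (l i w : ℂ) = g₀ + F_Q A B C w / N w)
    {y : C2} (hy : y ≠ 0) :
    ∃ a : ℝ, dt (F_S A B C y) (Y y) = a * N y ∧ HasDerivAt (fun s => l 0 (φ s y)) a 0 := by
  obtain ⟨a, ha⟩ := ha y hy
  have hd := h.deriv 0 hy
  have hl : ∀ i : Fin 3,
      HasDerivAt (fun s => l i (φ s y)) (a * (om ^ (2 * (i : ℕ))).re) 0 := by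
    intro i
    have h1 : DifferentiableAt ℝ (l i) (φ 0 y) := by
      rw [h.zero]
      exact ((hc i).contDiffAt (OO_nhds hy)).differentiableAt (by norm_num)
    have h2 := h1.hasFDerivAt.comp_hasDerivAt 0 hd
    refine HasDerivAt.congr_deriv h2 ?_
    have h3 := ha i 1
    rw [one_smul, mul_one] at h3
    rw [h.zero, h3]
  refine ⟨a, ?_, by simpa using hl 0⟩
  have hN : (N y : ℂ) ≠ 0 := by exact_mod_cast (h.pos y hy).ne'
  have e : (fun s => F_Q A B C (φ s y)) = fun s => (N y : ℂ) * (2 / 3 *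
      ((l 0 (φ s y) : ℂ) + om * (l 1 (φ s y) : ℂ) + om ^ 2 * (l 2 (φ s y) : ℂ)) - g₀) := by
    funext s
    have h1 := hg _ (h.ne s hy)
    rw [Fin.sum_univ_three, h.cons] at h1
    simp only [Fin.val_zero, Fin.val_one, Fin.val_two, pow_zero, pow_one, one_mul] at h1
    rw [h1]
    field_simp
    ring
  have h4 := ((((((hl 0).ofReal_comp).add ((hl 1).ofReal_comp.const_mul om)).add
    ((hl 2).ofReal_comp.const_mul (om ^ 2))).const_mul (2 / 3)).sub_const g₀).const_mul (N y : ℂ)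
  have h5 := F_deriv (A := A) (B := B) (C := C) hd
  rw [e] at h5
  have h6 := h5.unique h4
  rw [h.zero] at h6
  rw [h6]
  simp only [Fin.val_zero, Fin.val_one, Fin.val_two, mul_zero, mul_one, pow_zero, one_re]
  rw [show 2 * 2 = 4 from rfl, om_four, om_sq_re, om_re]
  push_cast
  linear_combination (-(N y : ℂ) * a / 3) * om_sum

theorem F_im (h : Sp N Y φ M)
    (hk : ∀ y, y ≠ 0 → ∃ a : ℝ, dt (F_S A B C y) (Y y) = a * N y) {w : C2} (hw : w ≠ 0) (s : ℝ) :
    (F_Q A B C (φ s w)).im = (F_Q A B C w).im := by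
  have h1 : ∀ t, HasDerivAt (fun t => (F_Q A B C (φ t w)).im) 0 t := by
    intro t
    obtain ⟨a, ha⟩ := hk _ (h.ne t hw)
    have h2 := imCLM.hasFDerivAt.comp_hasDerivAt t (F_deriv (A := A) (B := B) (C := C) (h.deriv t hw))
    refine HasDerivAt.congr_deriv h2 ?_
    rw [ha]; simp
  have h3 := is_const_of_deriv_eq_zero (fun t => (h1 t).differentiableAt) (fun t => (h1 t).deriv) s 0
  simpa only [h.zero] using h3

theorem F_norm (h : Sp N Y φ M) (hT : Th φ l)
    (hk : ∀ y, y ≠ 0 → ∃ a : ℝ, dt (F_S A B C y) (Y y) = a * N y) {w : C2} (hw : w ≠ 0) :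
    ‖F_Q A B C w‖ = ‖F_Q A B C (φ (l 0 w) w)‖ := by
  obtain ⟨μ, h1, -, h2⟩ := hT.cases h hw
  have h0 := F_im h hk hw (l 0 w)
  have h3 := F_im h hk (om_pow_ne ((1 : Fin 3) : ℕ) hw) (l 1 w)
  rw [h1 1, F_smul, F_smul] at h3
  simp only [Fin.val_one, pow_one] at h3
  have hs : (0 : ℝ) < √3 := by positivity
  set q := F_Q A B C w
  set q' := F_Q A B C (φ (l 0 w) w)
  have h4 : q'.re ^ 2 = q.re ^ 2 := by
    rcases h2 with h2 | h2
    · have h5 := h2 1
      simp only [Fin.val_one, mul_one] at h5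
      rw [h5, mul_im, mul_im, om_sq_re, om_sq_im, h0] at h3
      have h6 : √3 * q'.re = √3 * q.re := by linarith
      rw [mul_left_cancel₀ hs.ne' h6]
    · have h5 := h2 1
      simp only [Fin.val_one, pow_one] at h5
      rw [h5, mul_im, mul_im, om_sq_re, om_sq_im, om_re, om_im, h0] at h3
      have h6 : √3 * q'.re = √3 * (-q.re) := by linarith
      rw [mul_left_cancel₀ hs.ne' h6]; ring
  rw [Complex.norm_eq_sqrt_sq_add_sq, Complex.norm_eq_sqrt_sq_add_sq, h4, h0]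

theorem F_claim (h : Sp N Y φ M) (hT : Th φ l)
    (hk : ∀ y, y ≠ 0 → ∃ a : ℝ, dt (F_S A B C y) (Y y) = a * N y ∧
      HasDerivAt (fun s => l 0 (φ s y)) a 0) {w : C2} (hw : w ≠ 0) {m : ℂ}
    (hm : F_S A B C w = m • w) :
    F_S A B C (φ (l 0 w) w) = (-m) • φ (l 0 w) w ∧ (m = 0 ∨ ‖1 - m‖ = 1) := by
  have hk' : ∀ y, y ≠ 0 → ∃ a : ℝ, dt (F_S A B C y) (Y y) = a * N y :=
    fun y hy => (hk y hy).imp fun _ h => h.1
  have hW := h.ne (l 0 w) hw
  have q0 : F_Q A B C w = 0 := by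
    have h1 := F_two (A := A) (B := B) (C := C) w
    rw [hm, dt_smul_left, dt_self, mul_zero] at h1
    exact (mul_eq_zero.1 h1.symm).resolve_left two_ne_zero
  have q1 : F_Q A B C (φ (l 0 w) w) = 0 := by
    rw [← norm_eq_zero, ← F_norm h hT hk' hw, q0, norm_zero]
  obtain ⟨m', hm'⟩ := exists_smul_of_dt (ξ := F_S A B C (φ (l 0 w) w)) hW
    (by rw [F_two, q1, mul_zero])
  have e1 : m' = -m := by
    have h1 := F_skew (A := A) (B := B) (C := C) (φ (l 0 w) w) w
    rw [hm, hm', dt_smul_left, dt_smul_right, ← add_mul] at h1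
    exact eq_neg_of_add_eq_zero_left ((mul_eq_zero.1 h1).resolve_right (hT.dt_ne h hw))
  subst e1
  refine ⟨hm', ?_⟩
  obtain ⟨a, ha, hl⟩ := hk w hw
  have hN : (N w : ℂ) ≠ 0 := by exact_mod_cast (h.pos w hw).ne'
  have e2 : (a : ℂ) = -m := by
    rw [hm, dt_smul_left, h.wY hw] at ha
    exact mul_right_cancel₀ hN (by rw [← ha]; ring)
  have hf := F_deriv (A := A) (B := B) (C := C) (h.deriv 0 hw)
  rw [h.zero, ha] at hf
  have hτ : HasDerivAt (fun s => l 0 (φ s w) + s) (a + 1) 0 := hl.add (hasDerivAt_id 0)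
  have h2 := F_deriv (A := A) (B := B) (C := C) (h.deriv (l 0 (φ 0 w) + 0) hw)
  have hh := HasDerivAt.scomp (h := fun s => l 0 (φ s w) + s) (0 : ℝ) h2 hτ
  rw [h.zero, add_zero, hm', dt_smul_left, h.wY hW, h.cons] at hh
  have h3 := F_norm_deriv hf hh (by rw [h.zero, q0]) (by simp only [Function.comp, h.zero, add_zero, q1])
    (fun s => by
      simp only [Function.comp]
      rw [h.add]
      exact F_norm h hT hk' (h.ne s hw))
  have e3 : (a + 1 : ℝ) • (-m * -(N w : ℂ)) = (1 - m) * (m * N w) := by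
    rw [real_smul]; push_cast; rw [e2]; ring
  rw [e3, e2, neg_mul, norm_neg, norm_mul (1 - m)] at h3
  by_cases h0 : m = 0
  · exact Or.inl h0
  · right
    have h4 : ‖m * (N w : ℂ)‖ ≠ 0 := norm_ne_zero_iff.2 (mul_ne_zero h0 hN)
    exact (mul_right_cancel₀ h4 (by rw [← h3, one_mul])).symm

end main

theorem stF : StF := by
  rintro N Y φ M l h hT hc ⟨L, hL⟩ ha ⟨g₀, A, B, C, hg⟩
  have hk := fun y (hy : y ≠ 0) => F_key (A := A) (B := B) (C := C) h hc ha hg hy
  obtain ⟨w₀, hw₀, q0⟩ := F_zero A B C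
  obtain ⟨m, hm⟩ := exists_smul_of_dt (ξ := F_S A B C w₀) hw₀ (by rw [F_two, q0, mul_zero])
  obtain ⟨h1, h2⟩ := F_claim h hT hk hw₀ hm
  obtain ⟨-, h3⟩ := F_claim h hT hk (h.ne (l 0 w₀) hw₀) h1
  have m0 : m = 0 := by
    rcases h2 with h2 | h2
    · exact h2
    rcases h3 with h3 | h3
    · exact neg_eq_zero.1 h3
    rw [sub_neg_eq_add] at h3
    have h4 := parallelogram_law_with_norm ℂ (1 : ℂ) m
    rw [h2, h3, norm_one] at h4
    have h5 : ‖m‖ * ‖m‖ = 0 := by nlinarith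
    exact norm_eq_zero.1 (mul_self_eq_zero.1 h5)
  rw [m0, zero_smul] at hm
  rw [m0, neg_zero, zero_smul] at h1
  have hQ : ∀ w, F_Q A B C w = 0 := by
    intro w
    obtain ⟨x, y, e⟩ := exists_coords (hT.dt_ne h hw₀) w
    have h5 : F_S A B C w = 0 := by rw [e, F_lin, hm, h1]; simp
    have h6 := F_two (A := A) (B := B) (C := C) w
    rw [h5] at h6
    simp only [dt, Prod.fst_zero, Prod.snd_zero, zero_mul, sub_zero] at h6
    exact (mul_eq_zero.1 h6.symm).resolve_left two_ne_zero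
  have hE : ∀ w, w ≠ 0 → l 0 w + l 1 w + l 2 w = L ∧
      l 0 w - l 1 w / 2 - l 2 w / 2 = (3 / 2 * g₀).re ∧
      √3 * (l 2 w - l 1 w) / 2 = (3 / 2 * g₀).im := by
    intro w hw
    have h5 := hg w hw
    have h6 : A * w.1 ^ 2 + B * w.1 * w.2 + C * w.2 ^ 2 = 0 := hQ w
    rw [h6, zero_div, add_zero, Fin.sum_univ_three] at h5
    simp only [Fin.val_zero, Fin.val_one, Fin.val_two, pow_zero, pow_one, one_mul] at h5
    have h7 : 3 / 2 * g₀ = (l 0 w : ℂ) + om * l 1 w + om ^ 2 * l 2 w := by rw [← h5]; ring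
    refine ⟨by rw [← hL w hw, Fin.sum_univ_three], ?_, ?_⟩
    · rw [h7]
      simp only [add_re, mul_re, ofReal_re, ofReal_im, om_sq_re, om_re]
      ring
    · rw [h7]
      simp only [add_im, mul_im, ofReal_re, ofReal_im, om_sq_im, om_im]
      ring
  refine ⟨fun i => l i w₀, fun i w hw => ?_⟩
  obtain ⟨a1, a2, a3⟩ := hE w hw
  obtain ⟨b1, b2, b3⟩ := hE w₀ hw₀
  have hs : (0 : ℝ) < √3 := by positivity
  have c3 : l 2 w - l 1 w = l 2 w₀ - l 1 w₀ := mul_left_cancel₀ hs.ne' (by linarith)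
  fin_cases i
  · show l 0 w = l 0 w₀
    linarith
  · show l 1 w = l 1 w₀
    linarith
  · show l 2 w = l 2 w₀
    linarith

end Pool.Agent.MP_c01216_gt.Zoll

end

section

set_option autoImplicit false

namespace Pool.Agent.MP_c01216_gt.Zoll

open Set Filter Topology MeasureTheory Complex
open scoped ComplexConjugate

namespace StG

variable {N : C2 → ℝ} {Y : C2 → C2} {φ : ℝ → C2 → C2} {M : ℝ → C2 → C2 →L[ℝ] C2}

theorem eq_of_re {q d : ℂ} (h0 : q.re = d.re) (h1 : (om * q).re = (om * d).re) : q = d := by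
  have h3 : (0 : ℝ) < √3 := by positivity
  apply Complex.ext h0
  simp only [mul_re, om_re, om_im, h0] at h1
  have : √3 * (q.im - d.im) = 0 := by linarith
  exact sub_eq_zero.1 ((mul_eq_zero.1 this).resolve_left h3.ne')

theorem hasF_smul (z : ℂ) (w : C2) :
    HasFDerivAt (fun v : C2 => z • v) (z • ContinuousLinearMap.id ℝ C2) w :=
  (hasFDerivAt_id w).const_smul z

/-- The pulled back contact form at the second vertex. -/
theorem step1 (h : Sp N Y φ M) {l : Fin 3 → C2 → ℝ} (hT : Th φ l) {c : Fin 3 → ℝ}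
    (hc : ∀ i w, w ≠ 0 → l i w = c i) {w : C2} (hw : w ≠ 0) :
    (∀ ξ, dt (M (c 0) w ξ) (φ (c 0) w) = dt ξ w) ∨
      ∀ ξ, dt (M (c 0) w ξ) (φ (c 0) w) = conj (dt ξ w) := by
  obtain ⟨μ, h1, -, h3⟩ := hT.cases h hw
  simp only [hc _ w hw] at h1
  have key : ∀ (i : Fin 3) (ξ : C2), (μ i ^ 2 * dt (M (c 0) w ξ) (φ (c 0) w)).re =
      (om ^ (2 * (i : ℕ)) * dt ξ w).re := by
    intro i ξ
    have hwi := om_pow_ne i hw
    have d1 := (h.flow.fderiv (c i) _ hwi).comp w (hasF_smul (om ^ (i : ℕ)) w)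
    obtain ⟨D, hD, eD⟩ := hasFDerivAt_dt d1 (h.flow.fderiv (c 0) w hw)
    have z0 : HasFDerivAt (fun y => dt ((φ (c i) ∘ fun v : C2 => om ^ (i : ℕ) • v) y) (φ (c 0) y))
        (0 : C2 →L[ℝ] ℂ) w := by
      refine (hasFDerivAt_const (0 : ℂ) w).congr_of_eventuallyEq ?_
      filter_upwards [OO_nhds hw] with y hy
      obtain ⟨ν, g1, -⟩ := hT.cases h hy
      simp only [hc _ y hy] at g1
      simp only [Function.comp, g1 i, dt_smul_left, dt_self, mul_zero]
    have e0 := eD ξ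
    rw [hD.unique z0] at e0
    simp only [zero_apply, ContinuousLinearMap.comp_apply,
      smul_apply, ContinuousLinearMap.id_apply, Function.comp, h1 i,
      dt_smul_left] at e0
    have e1 := h.fv (c i) hwi (om ^ (i : ℕ) • ξ)
    rw [h1 i, dt_smul_right, dt_smul_left, dt_smul_right] at e1
    have e2 : μ i ^ 2 * dt (M (c 0) w ξ) (φ (c 0) w) =
        μ i * dt (M (c i) (om ^ (i : ℕ) • w) (om ^ (i : ℕ) • ξ)) (φ (c 0) w) := by
      rw [dt_swap (φ (c 0) w)] at e0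
      linear_combination μ i * e0
    rw [e2, e1]
    congr 1
    ring
  rcases h3 with h3 | h3
  · left
    intro ξ
    have k0 := key 0 ξ
    have k2 := key 2 ξ
    rw [h3] at k0 k2
    simp only [Fin.val_zero, mul_zero, pow_zero, one_mul] at k0
    have e : om ^ (2 * ((2 : Fin 3) : ℕ)) = om := om_four
    rw [e] at k2
    exact eq_of_re k0 k2
  · right
    intro ξ
    have k0 := key 0 ξ
    have k1 := key 1 ξ
    rw [h3] at k0 k1
    simp only [Fin.val_zero, mul_zero, pow_zero, one_mul] at k0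
    simp only [Fin.val_one, mul_one, pow_one] at k1
    refine eq_of_re (by rw [k0, conj_re]) ?_
    rw [k1, ← conj_om, ← conj_re (conj om * dt ξ w), map_mul, conj_conj]

/-- The derivative in the direction of the fibre. -/
theorem step2 (h : Sp N Y φ M) (t : ℝ) {w : C2} (hw : w ≠ 0) (σ : ℂ →+* ℂ)
    (hσ : (∀ z, σ z = z) ∨ ∀ z, σ z = conj z)
    (hq : ∀ ξ, dt (M t w ξ) (φ t w) = σ (dt ξ w)) : M t w (I • w) = σ I • φ t w := by
  obtain ⟨κ, hκ⟩ := exists_smul_of_dt (h.ne t hw)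
    (show dt (M t w (I • w)) (φ t w) = 0 by rw [hq, dt_smul_left, dt_self, mul_zero, map_zero])
  have key : ∀ z : ℂ, (κ * σ (z * N w)).re = (I * (z * N w)).re := by
    intro z
    have e := h.symp t w hw (I • w) (z • Y w)
    rw [hκ, dt_smul_left, dt_swap, hq, dt_smul_left, dt_smul_left, dt_smul_right, h.Yw w hw,
      h.wY hw] at e
    have e' : (-(κ * σ (z * N w))).re = (-(I * (z * N w))).re := by
      rw [← mul_neg, e]
      congr 1
      ring
    simpa only [neg_re, neg_inj] using e'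
  have hN := (h.pos w hw).ne'
  have k1 := key 1
  have kI := key I
  rw [hκ]
  congr 1
  rcases hσ with hσ | hσ
  · simp only [hσ] at k1 kI ⊢
    simp [hN] at k1 kI
    exact Complex.ext (by simpa using k1) (by simpa using kI)
  · simp only [hσ] at k1 kI ⊢
    simp [hN] at k1 kI
    refine Complex.ext (by simpa using k1) ?_
    simp only [conj_I, neg_im, I_im]
    exact mul_right_cancel₀ hN (by linarith)

/-- The case does not depend on the point. -/
theorem step3 (h : Sp N Y φ M) (t : ℝ)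
    (hc : ∀ w, w ≠ 0 → M t w (I • w) = I • φ t w ∨ M t w (I • w) = conj I • φ t w) :
    (∀ w, w ≠ 0 → M t w (I • w) = I • φ t w) ∨
      ∀ w, w ≠ 0 → M t w (I • w) = conj I • φ t w := by
  set g : C2 → ℝ := fun w => (dt (Y (φ t w)) (M t w (I • w))).im with hg
  have c1 : ContinuousOn (φ t) OO := fun w hw =>
    (h.flow.fderiv t w hw).continuousAt.continuousWithinAt
  have c2 : ContinuousOn (M t) OO :=
    h.flow.Mcont.comp (f := fun w : C2 => (t, w)) (by fun_prop) fun w hw => ⟨mem_univ _, hw⟩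
  have c3 : ContinuousOn (fun w => Y (φ t w)) OO :=
    h.cY.continuousOn.comp c1 fun w hw => h.ne t hw
  have c4 : ContinuousOn (fun w => M t w (I • w)) OO := c2.clm_apply (by fun_prop)
  have cg : ContinuousOn g OO :=
    continuous_im.comp_continuousOn (continuous_dt.comp_continuousOn (c3.prodMk c4))
  have g1 : ∀ w, w ≠ 0 → M t w (I • w) = I • φ t w → 0 < g w := by
    intro w hw e
    simp only [hg, e, dt_smul_right, h.Yw _ (h.ne t hw)]
    simpa using h.pos _ (h.ne t hw)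
  have g2 : ∀ w, w ≠ 0 → M t w (I • w) = conj I • φ t w → g w < 0 := by
    intro w hw e
    simp only [hg, e, dt_smul_right, h.Yw _ (h.ne t hw)]
    simpa using h.pos _ (h.ne t hw)
  by_contra hn
  rw [not_or] at hn
  obtain ⟨n1, n2⟩ := hn
  push Not at n1 n2
  obtain ⟨a, ha, ea⟩ := n1
  obtain ⟨b, hb, eb⟩ := n2
  obtain ⟨w, hw, e⟩ := isPreconnected_OO.intermediate_value ha hb cg
    ⟨(g2 a ha ((hc a ha).resolve_left ea)).le, (g1 b hb ((hc b hb).resolve_right eb)).le⟩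
  rcases hc w hw with e' | e'
  · exact (g1 w hw e').ne' e
  · exact (g2 w hw e').ne e

/-- Semilinear homogeneity. -/
theorem step4 (h : Sp N Y φ M) (t : ℝ) (σ : ℂ →+* ℂ) (hσ : (∀ z, σ z = z) ∨ ∀ z, σ z = conj z)
    (hI : ∀ w, w ≠ 0 → M t w (I • w) = σ I • φ t w) {z : ℂ} (hz : z ≠ 0) {w : C2} (hw : w ≠ 0) :
    φ t (z • w) = σ z • φ t w := by
  have hd : ∀ θ : ℝ, HasDerivAt (fun θ : ℝ => cexp (-(σ I) * θ) • φ t (cexp (I * θ) • w)) 0 θ := by
    intro θ
    have hv : cexp (I * θ) • w ≠ 0 := smul_ne_zero (exp_ne_zero _) hw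
    have d0 : ∀ a : ℂ, HasDerivAt (fun θ : ℝ => cexp (a * θ)) (cexp (a * θ) * a) θ := fun a => by
      simpa using (((hasDerivAt_id (θ : ℂ)).const_mul a).cexp).comp_ofReal
    have d1 := (h.flow.fderiv t _ hv).comp_hasDerivAt θ ((d0 I).smul_const w)
    have d2 := (d0 (-(σ I))).smul d1
    have e : (cexp (I * θ) * I) • w = I • cexp (I * θ) • w := by rw [smul_smul, mul_comm]
    rw [e, hI _ hv] at d2
    refine d2.congr_deriv ?_
    simp only [Function.comp, smul_smul]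
    rw [← add_smul]
    simp
  have hc := is_const_of_deriv_eq_zero (fun θ => (hd θ).differentiableAt) (fun θ => (hd θ).deriv)
    (arg z) 0
  simp only [ofReal_zero, mul_zero, exp_zero, one_smul] at hc
  have e1 : z • w = ‖z‖ • cexp (I * arg z) • w := by
    rw [← Complex.coe_smul, smul_smul, mul_comm I, norm_mul_exp_arg_mul_I]
  have e2 : σ z * cexp (-(σ I) * arg z) = ‖z‖ := by
    conv_lhs => rw [← norm_mul_exp_arg_mul_I z]
    rcases hσ with hσ | hσ
    · simp only [hσ, norm_mul_exp_arg_mul_I]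
      nth_rewrite 1 [← norm_mul_exp_arg_mul_I z]
      rw [mul_assoc, ← Complex.exp_add]
      simp [mul_comm]
    · simp only [hσ, norm_mul_exp_arg_mul_I]
      nth_rewrite 1 [← norm_mul_exp_arg_mul_I z]
      rw [map_mul, ← exp_conj, mul_assoc, ← Complex.exp_add]
      simp [mul_comm]
  rw [e1, h.real t _ _ (norm_ne_zero_iff.2 hz), ← hc, smul_smul, e2, Complex.coe_smul]

/-- The derivative is semilinear. -/
theorem step5 (h : Sp N Y φ M) (t : ℝ) (σ : ℂ →+* ℂ) (hσ : (∀ z, σ z = z) ∨ ∀ z, σ z = conj z)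
    (hI : ∀ w, w ≠ 0 → M t w (I • w) = σ I • φ t w) {w : C2} (hw : w ≠ 0) (z : ℂ) (η : C2) :
    M t w (z • η) = σ z • M t w η := by
  have hY : M t w (I • Y w) = σ I • M t w (Y w) := by
    obtain ⟨u, hu⟩ : ∃ u : ℂ, u * u = -I := (IsAlgClosed.exists_eq_mul_self (-I)).imp fun _ e => e.symm
    have n1 : u * conj u = 1 := by
      have := congrArg normSq hu
      rw [map_mul, normSq_neg, normSq_I] at this
      have e : normSq u = 1 := by nlinarith [normSq_nonneg u]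
      rw [mul_conj, e, ofReal_one]
    have u0 : u ≠ 0 := by
      rintro rfl
      simp at n1
    have hv : u • w ≠ 0 := smul_ne_zero u0 hw
    have d1 := (h.flow.fderiv t _ hv).comp w (hasF_smul u w)
    have d2 : HasFDerivAt (φ t ∘ fun v : C2 => u • v) (σ u • M t w) w := by
      refine ((h.flow.fderiv t w hw).const_smul (σ u)).congr_of_eventuallyEq ?_
      filter_upwards [OO_nhds hw] with y hy
      exact step4 h t σ hσ hI u0 hy
    have e := congrArg (fun L : C2 →L[ℝ] C2 => L (I • Y w)) (d1.unique d2)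
    simp only [ContinuousLinearMap.comp_apply, smul_apply,
      ContinuousLinearMap.id_apply] at e
    have e1 : u • I • Y w = Y (u • w) := by
      rw [h.Yhom u w u0 hw, smul_smul]
      congr 1
      linear_combination (-conj u) * I_mul_I - u * I * n1 + I * conj u * hu
    have s0 : σ u ≠ 0 := (map_ne_zero σ).2 u0
    rw [e1, h.MY t _ hv, step4 h t σ hσ hI u0 hw, h.Yhom _ _ s0 (h.ne t hw)] at e
    rw [h.MY t w hw]
    have e2 : σ u • M t w (I • Y w) = σ u • σ I • Y (φ t w) := by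
      rw [← e, smul_smul, ← map_mul]
      congr 1
      have e3 : u * I = conj u := by
        linear_combination (-conj u) * I_mul_I - u * I * n1 + I * conj u * hu
      rw [e3]
      rcases hσ with hσ | hσ <;> simp only [hσ]
    exact smul_right_injective C2 s0 e2
  have hr : ∀ r : ℝ, σ r = r := fun r => by rcases hσ with hσ | hσ <;> simp [hσ]
  have lin : ∀ v : C2, M t w (I • v) = σ I • M t w v → ∀ a : ℂ, M t w (a • v) = σ a • M t w v := by
    intro v hv a
    have e : a • v = a.re • v + a.im • I • v := by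
      rw [← Complex.coe_smul, ← Complex.coe_smul, smul_smul, ← add_smul, re_add_im]
    rw [e, map_add, map_smul, map_smul, hv, ← Complex.coe_smul, ← Complex.coe_smul, smul_smul,
      ← add_smul]
    congr 1
    conv_rhs => rw [← re_add_im a, map_add, map_mul, hr, hr]
  have l1 := lin w (by rw [hI w hw, h.Mw t w hw])
  have l2 := lin _ hY
  have hd : dt (Y w) w ≠ 0 := by
    rw [h.Yw w hw]
    exact_mod_cast (h.pos w hw).ne'
  obtain ⟨x, y, rfl⟩ := exists_coords hd η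
  simp only [smul_add, smul_smul, map_add, l1, l2, map_mul]

/-- The components are semilinear. -/
theorem step6 (h1 : StE1) (h : Sp N Y φ M) (t : ℝ) (σ : ℂ →+* ℂ)
    (hσ : (∀ z, σ z = z) ∨ ∀ z, σ z = conj z)
    (hI : ∀ w, w ≠ 0 → M t w (I • w) = σ I • φ t w) (π : C2 →L[ℝ] ℂ)
    (hπ : ∀ (z : ℂ) (v : C2), π (z • v) = z * π v) :
    ∃ A B : ℂ, ∀ w, w ≠ 0 → π (φ t w) = σ (A * w.1 + B * w.2) := by
  obtain ⟨s, hs⟩ : ∃ s : ℂ →L[ℝ] ℂ, ∀ z, s z = σ z := by
    rcases hσ with hσ | hσ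
    · exact ⟨ContinuousLinearMap.id ℝ ℂ, fun z => (hσ z).symm⟩
    · exact ⟨conjCLE, fun z => (hσ z).symm⟩
  have ss : ∀ z, σ (σ z) = z := fun z => by rcases hσ with hσ | hσ <;> simp [hσ]
  have d : ∀ w, w ≠ 0 → HasFDerivAt (fun w => s (π (φ t w))) (s.comp (π.comp (M t w))) w :=
    fun w hw => s.hasFDerivAt.comp w (π.hasFDerivAt.comp w (h.flow.fderiv t w hw))
  obtain ⟨A, B, e⟩ := (h1 (fun w => s (π (φ t w))) 1
    (fun w hw => (d w hw).differentiableAt.differentiableWithinAt)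
    (fun w hw z η => by
      rw [(d w hw).fderiv]
      simp only [ContinuousLinearMap.comp_apply, step5 h t σ hσ hI hw, hπ, hs, map_mul, ss])
    (fun c w hc hw => by
      simp only [step4 h t σ hσ hI hc hw, hπ, hs, map_mul, ss, zpow_one])).2.2.1 rfl
  refine ⟨A, B, fun w hw => ?_⟩
  rw [← e w hw, hs, ss]

theorem exists_root (A B C D : ℂ) :
    ∃ w : C2, w ≠ 0 ∧ (A * w.1 + B * w.2) * w.2 - (C * w.1 + D * w.2) * w.1 = 0 := by
  by_cases hC : C = 0
  · exact ⟨(1, 0), by simp, by simp [hC]⟩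
  · obtain ⟨x, hx⟩ := exists_quadratic_eq_zero (b := D - A) (c := -B) hC
      (IsAlgClosed.exists_eq_mul_self _)
    exact ⟨(x, 1), by simp, by simp only; linear_combination -hx⟩

end StG

open StG in
theorem stG (h1 : StE1) : StG := by
  rintro N Y φ M l h hT ⟨c, hc⟩
  have w0 : ((1, 0) : C2) ≠ 0 := by simp
  have c0 : ∀ i, 0 < c i := fun i => hc i _ w0 ▸ hT.pos i _ w0
  have s3 := step3 h (c 0) fun w hw => (step1 h hT hc hw).imp
    (step2 h (c 0) hw (RingHom.id ℂ) (Or.inl fun _ => rfl))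
    (step2 h (c 0) hw (starRingEnd ℂ) (Or.inr fun _ => rfl))
  rcases s3 with hI | hI
  · exfalso
    obtain ⟨A, B, e1⟩ := step6 h1 h (c 0) (RingHom.id ℂ) (Or.inl fun _ => rfl) hI
      (ContinuousLinearMap.fst ℝ ℂ ℂ) fun _ _ => rfl
    obtain ⟨C, D, e2⟩ := step6 h1 h (c 0) (RingHom.id ℂ) (Or.inl fun _ => rfl) hI
      (ContinuousLinearMap.snd ℝ ℂ ℂ) fun _ _ => rfl
    obtain ⟨w, hw, e⟩ := exists_root A B C D
    apply hT.dt_ne h hw
    have e1' : (φ (c 0) w).1 = A * w.1 + B * w.2 := e1 w hw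
    have e2' : (φ (c 0) w).2 = C * w.1 + D * w.2 := e2 w hw
    rw [hc 0 w hw, dt, e1', e2', e]
  obtain ⟨A, B, e1⟩ := step6 h1 h (c 0) (starRingEnd ℂ) (Or.inr fun _ => rfl) hI
    (ContinuousLinearMap.fst ℝ ℂ ℂ) fun _ _ => rfl
  obtain ⟨C, D, e2⟩ := step6 h1 h (c 0) (starRingEnd ℂ) (Or.inr fun _ => rfl) hI
    (ContinuousLinearMap.snd ℝ ℂ ℂ) fun _ _ => rfl
  let L : ℂ → ℂ → C2 →L[ℝ] ℂ := fun a b => (conjCLE : ℂ →L[ℝ] ℂ).comp
    (a • ContinuousLinearMap.fst ℝ ℂ ℂ + b • ContinuousLinearMap.snd ℝ ℂ ℂ)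
  have hL : ∀ a b w, L a b w = conj (a * w.1 + b * w.2) := fun a b w => by simp [L]
  let T : C2 →L[ℝ] C2 := (L A B).prod (L C D)
  have hTa : ∀ w, T w = (conj (A * w.1 + B * w.2), conj (C * w.1 + D * w.2)) := fun w => by
    simp only [T, ContinuousLinearMap.prod_apply, hL]
  have eT : ∀ w, φ (c 0) w = T w := by
    intro w
    by_cases hw : w = 0
    · rw [hw, map_zero]
      exact h.flow.junk _ _ fun h0 => h0 rfl
    · rw [hTa]
      exact Prod.ext (e1 w hw) (e2 w hw)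
  have anti : ∀ (z : ℂ) (w : C2), T (z • w) = conj z • T w := by
    intro z w
    simp only [hTa, Prod.smul_fst, Prod.smul_snd, smul_eq_mul, Prod.smul_mk, map_add, map_mul]
    congr 1 <;> ring
  have ceq : ∀ i, c i = c 0 := by
    intro i
    obtain ⟨μ, g1, -⟩ := hT.cases h w0
    simp only [hc _ _ w0] at g1
    have hv := om_pow_ne i w0
    have z : dt (φ (c 0) (om ^ (i : ℕ) • ((1, 0) : C2))) (φ (c i) (om ^ (i : ℕ) • ((1, 0) : C2))) = 0 := by
      rw [g1 i, eT, eT, anti, dt_smul_left, dt_smul_right, dt_self, mul_zero, mul_zero]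
    rcases lt_trichotomy (c i) (c 0) with lt | eq | lt
    · have := hT.emb _ hv 0 0 (c 0) (by rw [hc 0 _ hv]; exact ⟨(c0 0).le, le_rfl⟩) (c i)
        (by rw [hc 0 _ hv]; exact ⟨(c0 i).le, lt.le⟩) (by simpa using z)
      rw [hc 0 _ hv] at this
      rcases this with g | g | g
      · exact g.2.symm
      · exact absurd g.1 (c0 0).ne'
      · exact g.2
    · exact eq
    · have := hT.emb _ w0 i i (c 0) (by rw [hc i _ w0]; exact ⟨(c0 0).le, lt.le⟩) (c i)
        (by rw [hc i _ w0]; exact ⟨(c0 i).le, le_rfl⟩) z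
      rw [hc i _ w0] at this
      rcases this with g | g | g
      · exact g.2.symm
      · exact absurd g.1 (c0 0).ne'
      · exact g.1.symm
  have eM : M (c 0) (1, 0) = T := by
    refine (h.flow.fderiv (c 0) _ w0).unique ?_
    rw [funext eT]
    exact T.hasFDerivAt
  refine ⟨c 0, T, c0 0, fun i w hw => by rw [hc i w hw, ceq], ⟨anti, fun w => ?_, fun ξ η => ?_⟩, eT⟩
  · have e := h.imag (c 0) w
    rw [eT, anti, conj_I, neg_smul, ← smul_neg] at e
    have e' := smul_right_injective C2 I_ne_zero e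
    have e3 := h.add (c 0) (-c 0) w
    rw [add_neg_cancel, h.zero, ← e', eT, map_neg] at e3
    exact (neg_eq_iff_eq_neg.1 e3.symm)
  · have r1 := h.symp (c 0) _ w0 ξ η
    have r2 := h.symp (c 0) _ w0 (I • ξ) η
    rw [eM] at r1 r2
    rw [anti, dt_smul_left, dt_smul_left] at r2
    refine Complex.ext (by rw [r1, conj_re]) ?_
    simp at r2
    rw [conj_im, r2]

end Pool.Agent.MP_c01216_gt.Zoll

end

section

set_option autoImplicit false

namespace Pool.Agent.MP_c01216_gt.Zoll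

open Set Filter Topology MeasureTheory Complex
open scoped ComplexConjugate

namespace StH

variable {N : C2 → ℝ} {Y : C2 → C2} {φ : ℝ → C2 → C2} {M : ℝ → C2 → C2 →L[ℝ] C2}
  {l : Fin 3 → C2 → ℝ} {c : ℝ} {T : C2 →L[ℝ] C2}

theorem two (hS : Sp N Y φ M) (hA : Anti T) (hφ : ∀ w, φ c w = T w) (w : C2) :
    φ (2 * c) w = -w := by
  rw [two_mul, hS.add, hφ, hφ, hA.sq]

theorem short (hS : Sp N Y φ M) (hT : Th φ l) (hc : 0 < c) (hl : ∀ i w, w ≠ 0 → l i w = c)
    {y : C2} (hy : y ≠ 0) {d : ℝ} (h0 : 0 < d) (h1 : d ≤ c) : dt (φ d y) y ≠ 0 := by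
  intro h
  have := hT.emb y hy 0 0 d (by rw [hl 0 y hy]; exact ⟨h0.le, h1⟩) 0
    (by rw [hl 0 y hy]; exact ⟨le_rfl, hc.le⟩) (by simpa [hS.zero] using h)
  rw [hl 0 y hy] at this
  rcases this with h2 | h2 | h2
  · exact h0.ne' h2.2
  · exact h0.ne' h2.1
  · exact hc.ne h2.2

theorem same (hS : Sp N Y φ M) (h1 : ∀ y, y ≠ 0 → ∀ d ∈ Ioo 0 (2 * c), dt (φ d y) y ≠ 0)
    {v : C2} (hv : v ≠ 0) {s t : ℝ} (ha : s - t < 2 * c) (hb : t - s < 2 * c)
    (h0 : dt (φ s v) (φ t v) = 0) : s = t := by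
  rcases lt_trichotomy s t with h | h | h
  · refine absurd ?_ (h1 (φ s v) (hS.ne s hv) (t - s) ⟨by linarith, hb⟩)
    rw [← hS.add, sub_add_cancel, dt_swap, h0, neg_zero]
  · exact h
  · refine absurd ?_ (h1 (φ t v) (hS.ne t hv) (s - t) ⟨by linarith, ha⟩)
    rw [← hS.add, sub_add_cancel, h0]

theorem coef {a b : ℂ} {y : C2} (hy : y ≠ 0) (e : a • y = b • y) : a = b := by
  have h : (a - b) • y = 0 := by rw [sub_smul, e, sub_self]
  exact sub_eq_zero.1 ((smul_eq_zero.1 h).resolve_right hy)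

theorem transv (hS : Sp N Y φ M) (hc : 0 < c) (hA : Anti T) (hφ : ∀ w, φ c w = T w)
    (h1 : ∀ y, y ≠ 0 → ∀ d ∈ Ioo 0 (2 * c), dt (φ d y) y ≠ 0)
    {y : C2} (hy : y ≠ 0) {z : ℂ} (hz : z.re * z.im ≠ 0) {τ d : ℝ} (hτ : τ ∈ Icc 0 c)
    (hd : d ∈ Icc 0 c) {k : ℂ} (e : φ d y = k • φ τ (z • y)) : (k ^ 2).im ≠ 0 := by
  intro hk
  have hk0 : k ≠ 0 := by
    rintro rfl
    exact hS.ne d hy (by simpa using e)
  have hk2 : k.re * k.im = 0 := by
    rw [pow_two, mul_im] at hk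
    linarith
  have hre : z.re ≠ 0 := left_ne_zero_of_mul hz
  have him : z.im ≠ 0 := right_ne_zero_of_mul hz
  rcases mul_eq_zero.1 hk2 with h | h
  · obtain ⟨r, rfl⟩ : ∃ r : ℝ, k = r * I := ⟨k.im, Complex.ext (by simp [h]) (by simp)⟩
    have hr : r ≠ 0 := by
      rintro rfl
      exact hk0 (by simp)
    have e1 : ((r : ℂ) * I) • φ τ (z • y) = φ (-τ) (r • I • z • y) := by
      rw [hS.real _ _ _ hr, hS.imag, neg_neg, mul_smul, Complex.coe_smul]
    have e2 : φ (τ + d) y = ((r : ℂ) * I * z) • y := by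
      rw [hS.add, e, e1, ← hS.add, add_neg_cancel, hS.zero, mul_smul, mul_smul, Complex.coe_smul]
    have e3 : ((r : ℂ) * I * z).im = r * z.re := by simp
    have e4 : ((r : ℂ) * I * z).im ≠ 0 := by rw [e3]; exact mul_ne_zero hr hre
    have a0 : 0 ≤ τ + d := by linarith [hτ.1, hd.1]
    have a1 : τ + d ≤ 2 * c := by linarith [hτ.2, hd.2]
    rcases a0.eq_or_lt with b0 | b0
    · rw [← b0, hS.zero] at e2
      have := coef hy ((one_smul ℂ y).trans e2)
      rw [← this] at e4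
      exact e4 (by simp)
    · rcases a1.eq_or_lt with b1 | b1
      · rw [b1, two hS hA hφ] at e2
        have := coef hy ((neg_one_smul ℂ y).trans e2)
        rw [← this] at e4
        exact e4 (by simp)
      · refine h1 y hy (τ + d) ⟨b0, b1⟩ ?_
        rw [e2, dt_smul_left, dt_self, mul_zero]
  · obtain ⟨r, rfl⟩ : ∃ r : ℝ, k = r := ⟨k.re, Complex.ext (by simp) (by simp [h])⟩
    have hr : r ≠ 0 := by
      rintro rfl
      exact hk0 (by simp)
    have e2 : φ (-τ + d) y = ((r : ℂ) * z) • y := by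
      rw [hS.add, e, Complex.coe_smul, ← hS.real _ _ _ hr, ← hS.add, neg_add_cancel, hS.zero,
        mul_smul, Complex.coe_smul]
    have e3 : -τ + d = 0 := by
      refine same hS h1 hy (by linarith [hτ.1, hd.2]) (by linarith [hτ.2, hd.1]) ?_
      rw [e2, hS.zero, dt_smul_left, dt_self, mul_zero]
    rw [e3, hS.zero] at e2
    have e4 := congrArg Complex.im (coef hy ((one_smul ℂ y).trans e2))
    have e5 : r * z.im = 0 := by simpa using e4.symm
    exact mul_ne_zero hr him e5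

theorem corner (hS : Sp N Y φ M) (hc : 0 < c) (hA : Anti T) (hφ : ∀ w, φ c w = T w)
    (h1 : ∀ y, y ≠ 0 → ∀ d ∈ Ioo 0 (2 * c), dt (φ d y) y ≠ 0)
    {y : C2} (hy : y ≠ 0) {z : ℂ} (hz : z ≠ 0) {τ d : ℝ} (hτ : τ ∈ Icc 0 c)
    (hd : d ∈ Icc 0 c) (h0 : dt (φ τ (z • y)) (φ d y) = 0) :
    (τ ∈ Ioo 0 c ∧ d ∈ Ioo 0 c) ∨ (τ = 0 ∧ d = 0) ∨ (τ = c ∧ d = c) := by
  have hv : z • y ≠ 0 := smul_ne_zero hz hy
  have hcz : conj z ≠ 0 := by simpa using hz
  rcases hτ.1.eq_or_lt with a0 | a0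
  · right; left
    rw [← a0, hS.zero, dt_smul_left] at h0
    have h2 := (mul_eq_zero.1 h0).resolve_left hz
    refine ⟨a0.symm, (same hS h1 hy (s := 0) (by linarith [hd.1]) (by linarith [hd.2]) ?_).symm⟩
    rwa [hS.zero]
  rcases hτ.2.eq_or_lt with a1 | a1
  · right; right
    rw [a1, hφ, hA.anti, dt_smul_left, ← hφ] at h0
    have h2 := (mul_eq_zero.1 h0).resolve_left hcz
    exact ⟨a1, (same hS h1 hy (by linarith [hd.1]) (by linarith [hd.2]) h2).symm⟩
  rcases hd.1.eq_or_lt with b0 | b0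
  · exfalso
    refine a0.ne' (same hS h1 hv (t := 0) (by linarith) (by linarith) ?_)
    rw [← b0, hS.zero] at h0
    rw [hS.zero, dt_smul_right, h0, mul_zero]
  rcases hd.2.eq_or_lt with b1 | b1
  · exfalso
    refine a1.ne (same hS h1 hv (t := c) (by linarith) (by linarith) ?_)
    rw [b1, hφ] at h0
    rw [hφ, hA.anti, dt_smul_right, h0, mul_zero]
  exact Or.inl ⟨⟨a0, a1⟩, ⟨b0, b1⟩⟩

theorem cont (hS : Sp N Y φ M) {y : C2} (hy : y ≠ 0) {z : ℂ} (hz : z ≠ 0) (p : ℝ × ℝ) :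
    ContinuousAt (fun q : ℂ × (ℝ × ℝ) => dt (φ q.2.1 (q.1 • y)) (φ q.2.2 y)) (z, p) := by
  have a1 : ContinuousAt (fun q : ℂ × (ℝ × ℝ) => φ q.2.1 (q.1 • y)) (z, p) :=
    ContinuousAt.comp (g := fun q : ℝ × C2 => φ q.1 q.2)
      (f := fun q : ℂ × (ℝ × ℝ) => (q.2.1, q.1 • y))
      (hS.joint p.1 (z • y) (smul_ne_zero hz hy)).continuousAt (by fun_prop)
  have a2 : ContinuousAt (fun q : ℂ × (ℝ × ℝ) => φ q.2.2 y) (z, p) :=
    ContinuousAt.comp (g := fun q : ℝ × C2 => φ q.1 q.2)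
      (f := fun q : ℂ × (ℝ × ℝ) => (q.2.2, y))
      (hS.joint p.2 y hy).continuousAt (by fun_prop)
  exact ContinuousAt.comp (g := fun p : C2 × C2 => dt p.1 p.2)
    (f := fun q : ℂ × (ℝ × ℝ) => (φ q.2.1 (q.1 • y), φ q.2.2 y))
    continuous_dt.continuousAt (a1.prodMk a2)

/-- No crossing in the open square. -/
def Good (φ : ℝ → C2 → C2) (c : ℝ) (y : C2) : Set ℂ :=
  {z | ∀ p ∈ Icc 0 c ×ˢ Icc 0 c, p.1 ∈ Ioo 0 c ∧ p.2 ∈ Ioo 0 c →
    dt (φ p.1 (z • y)) (φ p.2 y) ≠ 0}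

theorem ne_of {z : ℂ} (hz : z.re * z.im ≠ 0) : z ≠ 0 := by
  rintro rfl
  exact hz (by simp)

theorem bad_open (hX : StX) (hS : Sp N Y φ M) (hc : 0 < c) (hA : Anti T) (hφ : ∀ w, φ c w = T w)
    (h1 : ∀ y, y ≠ 0 → ∀ d ∈ Ioo 0 (2 * c), dt (φ d y) y ≠ 0)
    {y : C2} (hy : y ≠ 0) {z : ℂ} (hz : z.re * z.im ≠ 0) (hb : z ∉ Good φ c y) :
    ∀ᶠ x in 𝓝 z, x ∉ Good φ c y := by
  have hv : z • y ≠ 0 := smul_ne_zero (ne_of hz) hy
  simp only [Good, mem_ofPred_eq, not_forall, not_not] at hb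
  obtain ⟨p, hp, hq, h0⟩ := hb
  obtain ⟨k, hk⟩ := exists_smul_of_dt (hS.ne p.1 hv)
    (show dt (φ p.2 y) (φ p.1 (z • y)) = 0 by rw [dt_swap, h0, neg_zero])
  obtain ⟨ψ, hψ, e0, e1, -⟩ := hX N Y φ M hS (z • y) y p.1 p.2 k hv hy hk
    (transv hS hc hA hφ h1 hy hz hp.1 hp.2 hk)
  have t1 : Tendsto (fun x : ℂ => ((x • y, y) : C2 × C2)) (𝓝 z) (𝓝 (z • y, y)) :=
    Continuous.tendsto (f := fun x : ℂ => ((x • y, y) : C2 × C2)) (by fun_prop) z
  have t2 : Tendsto (fun x : ℂ => ψ (x • y, y)) (𝓝 z) (𝓝 (p.1, p.2)) := by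
    rw [← e0]
    exact hψ.continuousAt.tendsto.comp t1
  have t3 : ∀ᶠ x in 𝓝 z, ψ (x • y, y) ∈ Ioo 0 c ×ˢ Ioo 0 c :=
    t2.eventually ((isOpen_Ioo.prod isOpen_Ioo).mem_nhds ⟨hq.1, hq.2⟩)
  filter_upwards [t3, t1.eventually e1] with x hx1 hx2 hg
  exact hg _ ⟨Ioo_subset_Icc_self hx1.1, Ioo_subset_Icc_self hx1.2⟩ ⟨hx1.1, hx1.2⟩ hx2

theorem good_open (hX : StX) (hS : Sp N Y φ M) (hc : 0 < c) (hA : Anti T) (hφ : ∀ w, φ c w = T w)
    (h1 : ∀ y, y ≠ 0 → ∀ d ∈ Ioo 0 (2 * c), dt (φ d y) y ≠ 0)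
    {y : C2} (hy : y ≠ 0) {z : ℂ} (hz : z.re * z.im ≠ 0) (hg : z ∈ Good φ c y) :
    ∀ᶠ x in 𝓝 z, x ∈ Good φ c y := by
  have hv : z • y ≠ 0 := smul_ne_zero (ne_of hz) hy
  refine (isCompact_Icc.prod isCompact_Icc).eventually_forall_of_forall_eventually
    (P := fun (x : ℂ) (p : ℝ × ℝ) => p.1 ∈ Ioo 0 c ∧ p.2 ∈ Ioo 0 c →
      dt (φ p.1 (x • y)) (φ p.2 y) ≠ 0) fun p hp => ?_
  by_cases h0 : dt (φ p.1 (z • y)) (φ p.2 y) = 0
  · have hcor : (p.1 = 0 ∧ p.2 = 0) ∨ (p.1 = c ∧ p.2 = c) :=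
      (corner hS hc hA hφ h1 hy (ne_of hz) hp.1 hp.2 h0).resolve_left fun h => hg p hp h h0
    have hall : ∀ x : ℂ, dt (φ p.1 (x • y)) (φ p.2 y) = 0 := by
      intro x
      rcases hcor with h | h
      · rw [h.1, h.2, hS.zero, hS.zero, dt_smul_left, dt_self, mul_zero]
      · rw [h.1, h.2, hφ, hφ, hA.anti, dt_smul_left, dt_self, mul_zero]
    have hnot : p.1 ∉ Ioo 0 c := by
      rcases hcor with h | h
      · rw [h.1]; exact fun h' => lt_irrefl _ h'.1
      · rw [h.1]; exact fun h' => lt_irrefl _ h'.2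
    obtain ⟨k, hk⟩ := exists_smul_of_dt (hS.ne p.1 hv)
      (show dt (φ p.2 y) (φ p.1 (z • y)) = 0 by rw [dt_swap, h0, neg_zero])
    obtain ⟨ψ, -, -, -, e2⟩ := hX N Y φ M hS (z • y) y p.1 p.2 k hv hy hk
      (transv hS hc hA hφ h1 hy hz hp.1 hp.2 hk)
    have t1 : Tendsto (fun q : ℂ × (ℝ × ℝ) => (((q.1 • y, y), q.2) : (C2 × C2) × (ℝ × ℝ)))
        (𝓝 (z, p)) (𝓝 ((z • y, y), (p.1, p.2))) :=
      Continuous.tendsto
        (f := fun q : ℂ × (ℝ × ℝ) => (((q.1 • y, y), q.2) : (C2 × C2) × (ℝ × ℝ)))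
        (by fun_prop) (z, p)
    have t2 : Tendsto (fun q : ℂ × (ℝ × ℝ) => (((q.1 • y, y), p) : (C2 × C2) × (ℝ × ℝ)))
        (𝓝 (z, p)) (𝓝 ((z • y, y), (p.1, p.2))) :=
      Continuous.tendsto
        (f := fun q : ℂ × (ℝ × ℝ) => (((q.1 • y, y), p) : (C2 × C2) × (ℝ × ℝ)))
        (by fun_prop) (z, p)
    filter_upwards [t1.eventually e2, t2.eventually e2] with q hq1 hq2 hin hz0
    have e3 : q.2 = p := (hq1 hz0).symm.trans (hq2 (hall q.1))
    exact hnot (e3 ▸ hin.1)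
  · filter_upwards [(cont hS hy (ne_of hz) p).eventually_ne h0] with q hq _
    exact hq

theorem spread (hX : StX) (hS : Sp N Y φ M) (hc : 0 < c) (hA : Anti T) (hφ : ∀ w, φ c w = T w)
    (h1 : ∀ y, y ≠ 0 → ∀ d ∈ Ioo 0 (2 * c), dt (φ d y) y ≠ 0)
    {y : C2} (hy : y ≠ 0) {Q : Set ℂ} (hQ : Convex ℝ Q) (hQ2 : ∀ z ∈ Q, z.re * z.im ≠ 0)
    {z₀ : ℂ} (h0 : z₀ ∈ Q) (hg : z₀ ∈ Good φ c y) : Q ⊆ Good φ c y := by
  refine subset_trans (hQ.isPreconnected.subset_left_of_subset_union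
    (u := interior (Good φ c y)) (v := interior (Good φ c y)ᶜ) isOpen_interior isOpen_interior
    (disjoint_compl_right.mono interior_subset interior_subset) (fun z hz => ?_)
    ⟨z₀, h0, mem_interior_iff_mem_nhds.2 (good_open hX hS hc hA hφ h1 hy (hQ2 _ h0) hg)⟩)
    interior_subset
  by_cases h : z ∈ Good φ c y
  · exact Or.inl (mem_interior_iff_mem_nhds.2 (good_open hX hS hc hA hφ h1 hy (hQ2 _ hz) h))
  · exact Or.inr (mem_interior_iff_mem_nhds.2 (bad_open hX hS hc hA hφ h1 hy (hQ2 _ hz) h))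

theorem base (hT : Th φ l) (hl : ∀ i w, w ≠ 0 → l i w = c) {y : C2} (hy : y ≠ 0) (i : Fin 3)
    (hi : i ≠ 0) : om ^ (i : ℕ) ∈ Good φ c y := by
  intro p hp hq h0
  have := hT.emb y hy i 0 p.1 (by rw [hl i y hy]; exact hp.1) p.2 (by rw [hl 0 y hy]; exact hp.2)
    (by simpa using h0)
  rw [hl i y hy] at this
  rcases this with h2 | h2 | h2
  · exact hi h2.1
  · exact hq.1.1.ne' h2.1
  · exact hq.1.2.ne h2.1

theorem good_neg (hS : Sp N Y φ M) {y : C2} {z : ℂ} (h : z ∈ Good φ c y) : -z ∈ Good φ c y := by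
  intro p hp hq
  rw [neg_smul, hS.neg, dt_neg_left]
  exact neg_ne_zero.2 (h p hp hq)

theorem good_all (hX : StX) (hS : Sp N Y φ M) (hT : Th φ l) (hc : 0 < c)
    (hl : ∀ i w, w ≠ 0 → l i w = c) (hA : Anti T) (hφ : ∀ w, φ c w = T w)
    (h1 : ∀ y, y ≠ 0 → ∀ d ∈ Ioo 0 (2 * c), dt (φ d y) y ≠ 0)
    {y : C2} (hy : y ≠ 0) {z : ℂ} (hz : z.re * z.im ≠ 0) : z ∈ Good φ c y := by
  have s3 : (0 : ℝ) < √3 := Real.sqrt_pos.2 (by norm_num)
  have left : ∀ x : ℂ, x.re < 0 → x.im ≠ 0 → x ∈ Good φ c y := by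
    intro x hx hx2
    rcases lt_or_gt_of_ne hx2 with h | h
    · refine spread hX hS hc hA hφ h1 hy (Q := {w : ℂ | w.re < 0} ∩ {w : ℂ | w.im < 0})
        ((convex_halfSpace_re_lt 0).inter (convex_halfSpace_im_lt 0))
        (fun w hw => mul_ne_zero (ne_of_lt hw.1) (ne_of_lt hw.2)) (z₀ := om ^ 1) ?_
        (base hT hl hy 1 (by decide)) ⟨hx, h⟩
      refine ⟨?_, ?_⟩
      · show (om ^ 1).re < 0
        rw [pow_one, om_re]; norm_num
      · show (om ^ 1).im < 0
        rw [pow_one, om_im]; linarith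
    · refine spread hX hS hc hA hφ h1 hy (Q := {w : ℂ | w.re < 0} ∩ {w : ℂ | 0 < w.im})
        ((convex_halfSpace_re_lt 0).inter (convex_halfSpace_im_gt 0))
        (fun w hw => mul_ne_zero (ne_of_lt hw.1) (ne_of_gt hw.2)) (z₀ := om ^ 2) ?_
        (base hT hl hy 2 (by decide)) ⟨hx, h⟩
      refine ⟨?_, ?_⟩
      · show (om ^ 2).re < 0
        rw [om_sq_re]; norm_num
      · show 0 < (om ^ 2).im
        rw [om_sq_im]; linarith
  rcases lt_or_gt_of_ne (left_ne_zero_of_mul hz) with h | h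
  · exact left z h (right_ne_zero_of_mul hz)
  · have := good_neg hS (left (-z) (by simpa using h) (by simpa using right_ne_zero_of_mul hz))
    rwa [neg_neg] at this

theorem half (hX : StX) (hS : Sp N Y φ M) (hT : Th φ l) (hc : 0 < c)
    (hl : ∀ i w, w ≠ 0 → l i w = c) (hA : Anti T) (hφ : ∀ w, φ c w = T w)
    (h1 : ∀ y, y ≠ 0 → ∀ d ∈ Ioo 0 (2 * c), dt (φ d y) y ≠ 0)
    {y : C2} (hy : y ≠ 0) {z : ℂ} (hz : z.re * z.im ≠ 0) {τ d : ℝ} (hτ : τ ∈ Ioo 0 c)
    (hd : d ∈ Icc 0 c) : dt (φ τ (z • y)) (φ d y) ≠ 0 := by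
  intro h0
  rcases corner hS hc hA hφ h1 hy (ne_of hz) (Ioo_subset_Icc_self hτ) hd h0 with h | h | h
  · exact good_all hX hS hT hc hl hA hφ h1 hy hz (τ, d) ⟨Ioo_subset_Icc_self hτ, hd⟩ h h0
  · exact hτ.1.ne' h.1
  · exact hτ.2.ne h.1

end StH

theorem stH1 : StH1 := by
  intro N Y φ M l c T hS hT hc hl hA hφ y hy d hd
  rcases le_or_gt d c with h | h
  · exact StH.short hS hT hc hl hy hd.1 h
  · intro h0
    refine StH.short hS hT hc hl (hS.ne d hy) (d := 2 * c - d) (by linarith [hd.2]) (by linarith) ?_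
    rw [← hS.add, sub_add_cancel, StH.two hS hA hφ, dt_neg_left, ← dt_swap, h0]

theorem stH2 (hX : StX) : StH2 := by
  intro N Y φ M l c T hS hT hc hl hA hφ y hy β hβ τ hτ d
  have h1 := stH1 N Y φ M l c T hS hT hc hl hA hφ
  have hz : (cexp (β * I)).re * (cexp (β * I)).im ≠ 0 := by
    rw [exp_ofReal_mul_I_re, exp_ofReal_mul_I_im]
    rw [Real.sin_two_mul] at hβ
    intro h
    apply hβ
    linarith
  generalize cexp (β * I) = z at hz
  have per : Function.Periodic (fun d : ℝ => dt (φ τ (z • y)) (φ d y) ≠ 0) (2 * c) := by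
    intro x
    show (dt (φ τ (z • y)) (φ (x + 2 * c) y) ≠ 0) = (dt (φ τ (z • y)) (φ x y) ≠ 0)
    rw [add_comm, hS.add, StH.two hS hA hφ, dt_neg_right, neg_ne_zero]
  obtain ⟨e, he, h2⟩ := per.exists_mem_Ico₀ (by linarith) d
  have h3 : dt (φ τ (z • y)) (φ e y) ≠ 0 := by
    rcases le_or_gt e c with h | h
    · exact StH.half hX hS hT hc hl hA hφ h1 hy hz hτ ⟨he.1, h⟩
    · have e1 : φ e y = I • φ (2 * c - e) (I • y) := by
        rw [hS.imag, smul_smul, I_mul_I, neg_one_smul, ← StH.two hS hA hφ, ← hS.add]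
        congr 1
        ring
      have e2 : z • y = (-I * z) • I • y := by
        rw [smul_smul]
        congr 1
        linear_combination z * I_mul_I
      rw [e1, e2, dt_smul_right]
      refine mul_ne_zero I_ne_zero (StH.half hX hS hT hc hl hA hφ h1
        (smul_ne_zero I_ne_zero hy) ?_ hτ ⟨by linarith [he.2], by linarith⟩)
      intro h4
      apply hz
      have h5 : (-I * z).re * (-I * z).im = -(z.re * z.im) := by simp [mul_comm]
      rw [h5] at h4
      linarith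
  exact h2 ▸ h3

end Pool.Agent.MP_c01216_gt.Zoll

end

section

set_option autoImplicit false

namespace Pool.Agent.MP_c01216_gt.Zoll

open Set Filter Topology MeasureTheory Complex
open scoped ComplexConjugate

theorem I1_point {Γ : ℝ → C2} {Γ' : C2} {p : C2} (h : HasDerivAt Γ Γ' p.2.re) :
    ∃ D : C2 →L[ℝ] C2, HasFDerivAt (fun p : C2 => cexp (p.1.im * I) • Γ p.2.re) D p ∧
      ∀ ξ, D ξ = ξ.2.re • (cexp (p.1.im * I) • Γ') +
        ξ.1.im • (I • cexp (p.1.im * I) • Γ p.2.re) := by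
  have h1 : HasDerivAt (fun b : ℝ => cexp (b * I)) (cexp (p.1.im * I) * I) p.1.im := by
    simpa using (((hasDerivAt_id (p.1.im : ℂ)).mul_const I).cexp).comp_ofReal
  have h2 := h1.hasFDerivAt.comp p
    (imCLM.comp (ContinuousLinearMap.fst ℝ ℂ ℂ)).hasFDerivAt
  have h3 := h.hasFDerivAt.comp p (reCLM.comp (ContinuousLinearMap.snd ℝ ℂ ℂ)).hasFDerivAt
  refine ⟨_, h2.smul h3, fun ξ => ?_⟩
  ext <;> simp <;> ring

theorem stI1 : StI1 := by
  intro N Y φ M h Γ Γ' p hΓ h0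
  obtain ⟨F, hF, eF⟩ := I1_point hΓ
  obtain ⟨c, hc⟩ : ∃ c, c = cexp (p.1.im * I) := ⟨_, rfl⟩
  have c0 : c ≠ 0 := hc ▸ exp_ne_zero _
  have c1 : ‖c‖ = 1 := hc ▸ norm_exp_ofReal_mul_I _
  have c2 : cexp (2 * p.1.im * I) = c * c := by rw [hc, ← exp_add]; congr 1; ring
  have hv : c • Γ p.2.re ≠ 0 := smul_ne_zero c0 h0
  obtain ⟨G, hG, eG⟩ := h.chain (τ := fun p : C2 => p.2.im)
    (imCLM.comp (ContinuousLinearMap.snd ℝ ℂ ℂ)).hasFDerivAt hF (hc ▸ hv)
  have hD := (reCLM.comp (ContinuousLinearMap.fst ℝ ℂ ℂ)).hasFDerivAt (x := p).smul hG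
  refine ⟨_, hD, ?_⟩
  obtain ⟨v, ev⟩ : ∃ v, v = c • Γ p.2.re := ⟨_, rfl⟩
  have nv : N v = N (Γ p.2.re) := by rw [ev, h.hom, c1, one_pow, one_mul]
  have dv : dt v (c • Γ') = c * c * dt (Γ p.2.re) Γ' := by
    rw [ev, dt_smul_left, dt_smul_right, mul_assoc]
  rw [← ev] at hv
  simp only [eF, ← hc, ← ev] at eG
  have a0 : G (1, 0) = 0 := by simp [eG]
  have a1 : G (I, 0) = M p.2.im v (I • v) := by simp [eG]
  have a2 : G (0, 1) = M p.2.im v (c • Γ') := by simp [eG]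
  have a3 : G (0, I) = M p.2.im v (Y v) := by simp [eG, h.MY _ _ hv]
  rw [det_eq_pf, c2, ← dv, ← nv]
  simp only [add_apply, smul_apply,
    ContinuousLinearMap.smulRight_apply, ContinuousLinearMap.comp_apply,
    ContinuousLinearMap.coe_fst', reCLM_apply, a0, a1, a2, a3, ← hc, ← ev, one_re, I_re, zero_re,
    zero_smul, one_smul, smul_zero, zero_add, add_zero, ← h.Mw _ _ hv, dt_rsmul_left,
    dt_rsmul_right, re_ofReal_mul, h.symp _ _ hv, dt_smul_left I, dt_smul_right I, dt_self,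
    h.wY hv]
  have e : (I * dt v (c • Γ')).re = -(dt v (c • Γ')).im := by simp
  simp only [e, mul_zero, zero_re, zero_mul, mul_re, I_re, I_im, neg_re, neg_im, ofReal_re,
    ofReal_im, neg_zero, sub_zero, zero_add]
  rw [← abs_pow, ← abs_of_pos (h.pos v hv), ← abs_mul, ← abs_mul, abs_of_pos (h.pos v hv)]
  congr 1
  ring

end Pool.Agent.MP_c01216_gt.Zoll

end

section

set_option autoImplicit false

namespace Pool.Agent.MP_c01216_gt.Zoll

open Set Filter Topology MeasureTheory Complex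

theorem I2_prod (A B : Set ℝ) {f g : ℝ → ENNReal} (hf : Measurable f) (hg : Measurable g) :
    ∫⁻ z in {z : ℂ | z.re ∈ A ∧ z.im ∈ B}, f z.re * g z.im = (∫⁻ x in A, f x) * ∫⁻ x in B, g x := by
  have := volume_preserving_equiv_real_prod.setLIntegral_comp_preimage_emb
    measurableEquivRealProd.measurableEmbedding (fun p => f p.1 * g p.2) (A ×ˢ B)
  rw [Measure.volume_eq_prod, ← Measure.prod_restrict,
    lintegral_prod_mul hf.aemeasurable hg.aemeasurable] at this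
  exact this

theorem I2_int {f : ℝ → ℝ} (hf : Continuous f) {a : ℝ} (ha : 0 ≤ a) (h : ∀ x, 0 ≤ f x) :
    ∫⁻ x in Ioo 0 a, ENNReal.ofReal (f x) = ENNReal.ofReal (∫ x in (0 : ℝ)..a, f x) := by
  rw [intervalIntegral.integral_of_le ha, integral_Ioc_eq_integral_Ioo,
    ofReal_integral_eq_lintegral_ofReal (hf.integrableOn_Icc.mono_set Ioo_subset_Icc_self)
      (.of_forall h)]

theorem I2_sin : ∫ x in (0 : ℝ)..2 * Real.pi, |Real.sin (2 * x)| = 4 := by
  have per : Function.Periodic (fun x => |Real.sin (2 * x)|) (Real.pi / 2) := fun x => by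
    simp only [mul_add, show 2 * (Real.pi / 2) = Real.pi by ring, Real.sin_add_pi, abs_neg]
  have h := per.intervalIntegral_add_zsmul_eq 4 0 fun a b =>
    Continuous.intervalIntegrable (by fun_prop) a b
  have e : ∫ x in (0 : ℝ)..Real.pi / 2, |Real.sin (2 * x)| =
      ∫ x in (0 : ℝ)..Real.pi / 2, Real.sin (2 * x) := by
    refine intervalIntegral.integral_congr fun x hx => abs_of_nonneg ?_
    rw [uIcc_of_le (by positivity)] at hx
    exact Real.sin_nonneg_of_nonneg_of_le_pi (by linarith [hx.1]) (by linarith [hx.2])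
  rw [zero_add, zero_add, e, intervalIntegral.integral_comp_mul_left _ two_ne_zero, integral_sin,
    show (4 : ℤ) • (Real.pi / 2) = 2 * Real.pi by simp; ring,
    show 2 * (Real.pi / 2) = Real.pi by ring] at h
  rw [h]
  norm_num

theorem I2_val {c : ℝ} (hc : 0 < c) :
    ∫⁻ p : C2 in {z : ℂ | z.re ∈ Ioo 0 1 ∧
        z.im ∈ {b | Real.sin (2 * b) ≠ 0} ∩ Ioo 0 (2 * Real.pi)} ×ˢ
        {z : ℂ | z.re ∈ Ioo 0 (2 * c) ∧ z.im ∈ Ioo 0 c},
      ENNReal.ofReal (|p.1.re| ^ 3 * |Real.sin (2 * p.1.im)|) = ENNReal.ofReal (2 * c ^ 2) := by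
  have m1 : Measurable fun x : ℝ => ENNReal.ofReal (|x| ^ 3) := by fun_prop
  have m2 : Measurable fun x : ℝ => ENNReal.ofReal |Real.sin (2 * x)| := by fun_prop
  have e : ∀ p : C2, ENNReal.ofReal (|p.1.re| ^ 3 * |Real.sin (2 * p.1.im)|) =
      (ENNReal.ofReal (|p.1.re| ^ 3) * ENNReal.ofReal |Real.sin (2 * p.1.im)|) *
        ((fun _ => 1) p.2.re * (fun _ => 1) p.2.im) := fun p => by
    rw [ENNReal.ofReal_mul (by positivity), mul_one, mul_one]
  have e3 : ∫ x in (0 : ℝ)..1, |x| ^ 3 = 1 / 4 := by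
    rw [intervalIntegral.integral_congr (g := fun x => x ^ 3) fun x hx => by
      rw [uIcc_of_le zero_le_one] at hx
      simp only [abs_of_nonneg hx.1], integral_pow]
    norm_num
  simp only [e]
  rw [Measure.volume_eq_prod, ← Measure.prod_restrict, lintegral_prod_mul
    (f := fun z : ℂ => ENNReal.ofReal (|z.re| ^ 3) * ENNReal.ofReal |Real.sin (2 * z.im)|)
    (g := fun z : ℂ => (fun _ => 1) z.re * (fun _ => 1) z.im) (by fun_prop) (by fun_prop),
    I2_prod _ _ m1 m2, I2_prod _ _ measurable_const measurable_const,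
    ← Measure.restrict_restrict (isOpen_ne_fun (by fun_prop) continuous_const).measurableSet,
    setLIntegral_eq_of_support_subset (s := {b | Real.sin (2 * b) ≠ 0})
      (fun x hx h => hx (by simp [h])),
    I2_int (by fun_prop) zero_le_one fun _ => by positivity,
    I2_int (by fun_prop) (by positivity) fun _ => abs_nonneg _, I2_sin, e3]
  simp only [lintegral_const, MeasurableSet.univ, Measure.restrict_apply, univ_inter,
    Real.volume_Ioo, one_mul, sub_zero]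
  rw [← ENNReal.ofReal_mul (by norm_num), ← ENNReal.ofReal_mul (by positivity),
    ← ENNReal.ofReal_mul (by norm_num)]
  congr 1
  ring

theorem stI2 (h1 : StI1) : StI2 := by
  intro N Y φ M c h hc a1 a2
  obtain ⟨y, y0, y1⟩ : ∃ y : C2, y ≠ 0 ∧ N y = 1 := by
    have e : ((1, 0) : C2) ≠ 0 := by simp
    have hp := h.pos _ e
    refine ⟨(√(N (1, 0)))⁻¹ • (1, 0), smul_ne_zero (by positivity) e, ?_⟩
    rw [h.toHam.rhom, inv_pow, Real.sq_sqrt hp.le, inv_mul_cancel₀ hp.ne']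
  choose D hD hD' using fun p : C2 =>
    h1 N Y φ M h (fun s => φ s y) _ p (h.deriv p.2.re y0) (h.ne _ y0)
  have hN : ∀ p : C2, N (Psi φ (fun s => φ s y) p) = p.1.re ^ 2 := fun p => by
    rw [Psi, h.toHam.rhom, h.cons, h.hom, h.cons, y1, norm_exp_ofReal_mul_I]
    ring
  have back : ∀ (t t' : ℝ) (v w : C2), φ t v = φ t' w → φ (t - t') v = w := fun t t' v w e => by
    rw [sub_eq_neg_add, h.add, e, ← h.add, neg_add_cancel, h.zero]
  have shift : ∀ s s' : ℝ, φ s' y = φ (s' - s) (φ s y) := fun s s' => by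
    rw [← h.add, sub_add_cancel]
  have b1 : ∀ (b b' s s' t t' : ℝ), Real.sin (2 * b) ≠ 0 → t < c → 0 < t' →
      φ t (cexp (b * I) • φ s y) = φ t' (cexp (b' * I) • φ s' y) → t ≤ t' :=
    fun b b' s s' t t' hb ht ht' e => not_lt.1 fun hl =>
      a2 _ (h.ne s y0) b hb (t - t') ⟨by linarith, by linarith⟩ (s' - s) (by
        rw [back _ _ _ _ e, ← shift, dt_smul_left, dt_self, mul_zero])
  have b2 : ∀ (b b' s s' : ℝ), s < 2 * c → 0 < s' →
      cexp (b * I) • φ s y = cexp (b' * I) • φ s' y → s ≤ s' :=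
    fun b b' s s' hs hs' e => not_lt.1 fun hl =>
      a1 _ (h.ne s' y0) (s - s') ⟨by linarith, by linarith⟩ (by
        have := congrArg (dt · (φ s' y)) e
        simp only [dt_smul_left, dt_self, mul_zero, mul_eq_zero, exp_ne_zero, false_or] at this
        rwa [← shift])
  rw [← I2_val hc]
  have e : ∀ p : C2, |p.1.re| ^ 3 * |Real.sin (2 * p.1.im)| = |(D p).det| := fun p => by
    rw [hD', h.wY (h.ne _ y0), h.cons, y1, show (2 * p.1.im * I : ℂ) = (2 * p.1.im : ℝ) * I by simp]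
    simp only [mul_one, ofReal_one, mul_neg, neg_im, abs_neg, exp_ofReal_mul_I_im]
  simp only [e]
  have : (volume : Measure C2).IsAddHaarMeasure := Measure.prod.instIsAddHaarMeasure _ _
  rw [lintegral_abs_det_fderiv_eq_addHaar_image volume ?_
    (fun p _ => (hD p).hasFDerivWithinAt) fun p hp q hq e => ?_]
  · refine measure_mono ?_
    rintro _ ⟨p, hp, rfl⟩
    have := hp.1.1
    show N _ < 1
    rw [hN]
    nlinarith [this.1, this.2]
  · refine (IsOpen.prod ((isOpen_Ioo.preimage continuous_re).inter (IsOpen.preimage continuous_im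
      ((isOpen_ne_fun (by fun_prop) continuous_const).inter isOpen_Ioo)))
      ((isOpen_Ioo.preimage continuous_re).inter (isOpen_Ioo.preimage continuous_im))).measurableSet
  · obtain ⟨⟨p1, p2, p3⟩, p4, p5⟩ := hp
    obtain ⟨⟨q1, q2, q3⟩, q4, q5⟩ := hq
    have e1 : p.1.re = q.1.re := by
      have := congrArg N e
      rw [hN, hN] at this
      exact (pow_left_inj₀ p1.1.le q1.1.le two_ne_zero).1 this
    rw [Psi, Psi, e1] at e
    have e2 := smul_right_injective C2 q1.1.ne' e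
    have e3 := le_antisymm (b1 _ _ _ _ _ _ p2 p5.2 q5.1 e2) (b1 _ _ _ _ _ _ q2 q5.2 p5.1 e2.symm)
    have e4 := back _ _ _ _ e2
    rw [e3, sub_self, h.zero] at e4
    have e5 := le_antisymm (b2 _ _ _ _ p4.2 q4.1 e4) (b2 _ _ _ _ q4.2 p4.1 e4.symm)
    rw [e5] at e4
    obtain ⟨n, hn⟩ := exp_eq_exp_iff_exists_int.1 (smul_left_injective ℂ (h.ne _ y0) e4)
    have e6 : p.1.im = q.1.im + n * (2 * Real.pi) := by simpa using congrArg im hn
    have e7 : n = 0 := by
      have hp := Real.two_pi_pos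
      have c1 : (n : ℝ) < 1 := by nlinarith [p3.2, q3.1]
      have c2 : (-1 : ℝ) < n := by nlinarith [p3.1, q3.2]
      have c3 : n < 1 := by exact_mod_cast c1
      have c4 : -1 < n := by exact_mod_cast c2
      omega
    rw [e7, Int.cast_zero, zero_mul, add_zero] at e6
    exact Prod.ext (Complex.ext e1 e6) (Complex.ext e5 e3)

end Pool.Agent.MP_c01216_gt.Zoll

end

section

set_option autoImplicit false

namespace Pool.Agent.MP_c01216_gt.Zoll

open Set Filter Topology MeasureTheory Complex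
open scoped ComplexConjugate

theorem I3_polar {x y : ℂ} (h : (x * conj y).im = 0) : ∃ (ζ : ℂ) (s : ℝ), s ∈ Icc 0 Real.pi ∧
    x = ζ * Real.cos s ∧ y = ζ * Real.sin s := by
  by_cases hy : y = 0
  · exact ⟨x, 0, ⟨le_rfl, Real.pi_pos.le⟩, by simp, by simp [hy]⟩
  obtain ⟨l, hl⟩ : ∃ l : ℝ, x = l * y := by
    refine ⟨(x * conj y).re / normSq y, ?_⟩
    have e : ((x * conj y).re : ℂ) = x * conj y := Complex.ext (ofReal_re _) h.symm
    have n : conj y ≠ 0 := by simpa using hy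
    rw [ofReal_div, e, ← mul_conj]
    field_simp
  have c := norm_mul_cos_arg (l + I)
  have s := norm_mul_sin_arg (l + I)
  simp only [add_re, ofReal_re, I_re, add_zero, add_im, ofReal_im, I_im, zero_add] at c s
  refine ⟨y * ‖l + I‖, arg (l + I), ⟨arg_nonneg_iff.2 (by simp), arg_le_pi _⟩, ?_, ?_⟩
  · rw [mul_assoc, ← ofReal_mul, c, hl, mul_comm]
  · rw [mul_assoc, ← ofReal_mul, s, ofReal_one, mul_one]

theorem I3_prod {f g : ℝ → ENNReal} (hf : Measurable f) (hg : Measurable g) :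
    ∫⁻ z : ℂ, f z.re * g z.im = (∫⁻ x, f x) * ∫⁻ y, g y := by
  rw [← lintegral_prod_mul hf.aemeasurable hg.aemeasurable]
  exact volume_preserving_equiv_real_prod.lintegral_comp_emb
    measurableEquivRealProd.measurableEmbedding fun p => f p.1 * g p.2

theorem I3_sin : ∫⁻ b in Icc (-Real.pi) Real.pi, ENNReal.ofReal |Real.sin (2 * b)| =
    ENNReal.ofReal 4 := by
  have c : Continuous fun b : ℝ => |Real.sin (2 * b)| := by fun_prop
  have p : Function.Periodic (fun b : ℝ => |Real.sin (2 * b)|) (Real.pi / 2) := fun b => by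
    simp only []
    rw [show 2 * (b + Real.pi / 2) = 2 * b + Real.pi by ring, Real.sin_add_pi, abs_neg]
  have pp := Real.pi_pos
  have a := p.intervalIntegral_add_zsmul_eq 4 (-Real.pi) fun a b => c.intervalIntegrable a b
  have b : ∫ x in (0 : ℝ)..0 + Real.pi / 2, |Real.sin (2 * x)| = 1 := by
    rw [zero_add, intervalIntegral.integral_congr (g := fun x => Real.sin (2 * x)) fun x hx => ?_,
      intervalIntegral.integral_comp_mul_left _ two_ne_zero, integral_sin,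
      show 2 * (Real.pi / 2) = Real.pi by ring]
    · norm_num
    · rw [uIcc_of_le (by linarith)] at hx
      exact abs_of_nonneg (Real.sin_nonneg_of_nonneg_of_le_pi (by linarith [hx.1])
        (by linarith [hx.2]))
  rw [p.intervalIntegral_add_eq _ 0, b, show -Real.pi + (4 : ℤ) • (Real.pi / 2) = Real.pi by
    simp; ring, intervalIntegral.integral_of_le (by linarith), ← integral_Icc_eq_integral_Ioc] at a
  rw [← ofReal_integral_eq_lintegral_ofReal c.integrableOn_Icc (.of_forall fun _ => abs_nonneg _),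
    a]
  simp

theorem I3_rad {a K : ℝ} (ha : 0 < a) (hK : 0 ≤ K) :
    ∫⁻ r in Icc 0 (√a)⁻¹, ENNReal.ofReal (|r| ^ 3 * a * K) = ENNReal.ofReal (K / a / 4) := by
  have c : Continuous fun r : ℝ => |r| ^ 3 * a * K := by fun_prop
  have p : (0 : ℝ) ≤ (√a)⁻¹ := by positivity
  rw [← ofReal_integral_eq_lintegral_ofReal c.integrableOn_Icc (.of_forall fun _ => by positivity),
    integral_Icc_eq_integral_Ioc, ← intervalIntegral.integral_of_le p,
    intervalIntegral.integral_congr (g := fun r => r ^ 3 * (a * K)) fun x hx => ?_,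
    intervalIntegral.integral_mul_const, integral_pow]
  · congr 1
    rw [show (√a)⁻¹ ^ (3 + 1) = ((√a ^ 2)⁻¹) ^ 2 by rw [← inv_pow, ← pow_mul], Real.sq_sqrt ha.le]
    field_simp
    norm_num [mul_comm]
  · rw [uIcc_of_le p] at hx
    simp only [abs_of_nonneg hx.1, mul_assoc]

theorem I3_meas {n : ℝ → ℝ} (hn : Continuous n) (c : ℝ) :
    MeasurableSet {q : C2 | q.1.re ∈ Icc 0 (√(n q.2.re))⁻¹ ∧
      q.1.im ∈ Icc (-Real.pi) Real.pi ∧ q.2.re ∈ Icc 0 Real.pi ∧ q.2.im ∈ Icc 0 c} := by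
  simp only [mem_Icc]
  measurability

theorem I3_int {n : ℝ → ℝ} {K c : ℝ} (hn : Continuous n) (p : ∀ s, 0 < n s) (hK : 0 ≤ K)
    (hc : 0 < c) : ∫⁻ q in {q : C2 | q.1.re ∈ Icc 0 (√(n q.2.re))⁻¹ ∧
      q.1.im ∈ Icc (-Real.pi) Real.pi ∧ q.2.re ∈ Icc 0 Real.pi ∧ q.2.im ∈ Icc 0 c},
      ENNReal.ofReal (|q.1.re| ^ 3 * n q.2.re * K) * ENNReal.ofReal |Real.sin (2 * q.1.im)| =
      ENNReal.ofReal (c * ∫ s in (0 : ℝ)..Real.pi, K / n s) := by
  have mS := I3_meas hn c
  have cK : Continuous fun s => K / n s := continuous_const.div hn fun s => (p s).ne'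
  rw [← lintegral_indicator mS, Measure.volume_eq_prod, lintegral_prod_symm _
    (Measurable.indicator (by fun_prop) mS).aemeasurable]
  have e : ∀ y : ℂ, ∫⁻ x : ℂ, indicator {q : C2 | q.1.re ∈ Icc 0 (√(n q.2.re))⁻¹ ∧
      q.1.im ∈ Icc (-Real.pi) Real.pi ∧ q.2.re ∈ Icc 0 Real.pi ∧ q.2.im ∈ Icc 0 c}
      (fun q => ENNReal.ofReal (|q.1.re| ^ 3 * n q.2.re * K) *
        ENNReal.ofReal |Real.sin (2 * q.1.im)|) (x, y) =
      (Icc 0 Real.pi).indicator (fun s => ENNReal.ofReal (K / n s)) y.re *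
        (Icc 0 c).indicator 1 y.im := fun y => by
    by_cases h : y.re ∈ Icc 0 Real.pi ∧ y.im ∈ Icc 0 c
    · have := I3_prod (f := (Icc 0 (√(n y.re))⁻¹).indicator
          fun r => ENNReal.ofReal (|r| ^ 3 * n y.re * K))
        (g := (Icc (-Real.pi) Real.pi).indicator fun b => ENNReal.ofReal |Real.sin (2 * b)|)
        (Measurable.indicator (by fun_prop) measurableSet_Icc)
        (Measurable.indicator (by fun_prop) measurableSet_Icc)
      rw [lintegral_indicator measurableSet_Icc, lintegral_indicator measurableSet_Icc,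
        I3_rad (p _) hK, I3_sin, ← ENNReal.ofReal_mul (by have := p y.re; positivity),
        div_mul_cancel₀ _ four_ne_zero] at this
      rw [indicator_of_mem h.1, indicator_of_mem h.2, Pi.one_apply, mul_one, ← this]
      refine lintegral_congr fun x => ?_
      by_cases h1 : x.re ∈ Icc 0 (√(n y.re))⁻¹
      · by_cases h2 : x.im ∈ Icc (-Real.pi) Real.pi
        · rw [indicator_of_mem h1, indicator_of_mem h2, indicator_of_mem (by exact ⟨h1, h2, h⟩)]
        · rw [indicator_of_notMem h2, indicator_of_notMem (by exact fun e => h2 e.2.1), mul_zero]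
      · rw [indicator_of_notMem h1, indicator_of_notMem (by exact fun e => h1 e.1), zero_mul]
    · rw [lintegral_congr fun x => indicator_of_notMem (by exact fun e => h e.2.2) _,
        lintegral_zero]
      rcases not_and_or.1 h with h | h <;> simp [indicator_of_notMem h]
  rw [lintegral_congr e, I3_prod (Measurable.indicator (by fun_prop) measurableSet_Icc)
    (measurable_one.indicator measurableSet_Icc), lintegral_indicator_one measurableSet_Icc,
    lintegral_indicator measurableSet_Icc, Real.volume_Icc, sub_zero,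
    ← ofReal_integral_eq_lintegral_ofReal cK.integrableOn_Icc
      (.of_forall fun s => div_nonneg hK (p s).le), ENNReal.ofReal_mul hc.le, mul_comm,
    integral_Icc_eq_integral_Ioc, intervalIntegral.integral_of_le Real.pi_pos.le]

theorem I3_circ (T : C2 →L[ℝ] C2) (w : C2) (ζ : ℂ) (s : ℝ) :
    ζ • circ T w s = (ζ * Real.cos s) • w + (ζ * Real.sin s) • T w := by
  rw [circ, smul_add, mul_smul, mul_smul, Complex.coe_smul, Complex.coe_smul]

theorem stI3 (h1 : StI1) : StI3 := by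
  intro N Y φ M c T h hc hT hφ w hw
  have m0 : dt w (T w) ≠ 0 := by
    rw [dt_swap]
    exact neg_ne_zero.2 (hT.dt_ne hw)
  have ne : ∀ s, circ T w s ≠ 0 := fun s e => by
    have := hT.form_coords w (Real.cos s) (Real.sin s)
    rw [← one_mul (Real.cos s : ℂ), ← one_mul (Real.sin s : ℂ), ← I3_circ, e, one_mul, one_mul,
      normSq_ofReal, normSq_ofReal, ← sq, ← sq, Real.cos_sq_add_sin_sq] at this
    exact hT.dt_ne hw (by simpa [dt] using this.symm)
  have d : ∀ s, HasDerivAt (circ T w) (-Real.sin s • w + Real.cos s • T w) s := fun s =>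
    ((Real.hasDerivAt_cos s).smul_const w).add ((Real.hasDerivAt_sin s).smul_const (T w))
  have cn : Continuous fun s => N (circ T w s) :=
    h.cN.continuousOn.comp_continuous
      (continuous_iff_continuousAt.2 fun s => (d s).continuousAt) ne
  choose D hD hd using fun p : C2 => h1 N Y φ M h (circ T w) _ p (d p.2.re) (ne _)
  rw [← I3_int cn (fun s => h.pos _ (ne s)) (abs_nonneg _) hc]
  have : Measure.IsAddHaarMeasure (volume : Measure C2) :=
    Measure.prod.instIsAddHaarMeasure volume volume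
  refine le_trans (measure_mono fun z hz => ?_) ((addHaar_image_le_lintegral_abs_det_fderiv volume
    (I3_meas cn c) fun p _ => (hD p).hasFDerivWithinAt).trans
    (le_of_eq (lintegral_congr fun p => ?_)))
  · by_cases z0 : z = 0
    · exact ⟨0, by simp [hc.le, Real.pi_pos.le], by simp [Psi, z0]⟩
    have f : ∀ x y : ℂ, (dt (x • w + y • T w) (T w) * conj (dt w (x • w + y • T w))).im =
        normSq (dt w (T w)) * (x * conj y).im := fun x y => by
      simp only [dt_add_left, dt_add_right, dt_smul_left, dt_smul_right, dt_self, mul_zero,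
        add_zero, zero_add, map_mul]
      rw [mul_mul_mul_comm, mul_conj, mul_comm, im_ofReal_mul]
    have cφ : Continuous fun t : ℝ => φ (-t) z :=
      (continuous_iff_continuousAt.2 fun t => (h.deriv t z0).continuousAt).comp continuous_neg
    have cg : Continuous fun t : ℝ => (dt (φ (-t) z) (T w) * conj (dt w (φ (-t) z))).im :=
      continuous_im.comp ((continuous_dt.comp (cφ.prodMk continuous_const)).mul
        (continuous_conj.comp (continuous_dt.comp (continuous_const.prodMk cφ))))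
    obtain ⟨t, ht, e⟩ := intermediate_value_uIcc (a := 0) (b := c) cg.continuousOn (show (0 : ℝ) ∈ _ by
      obtain ⟨x, y, e⟩ := exists_coords m0 (φ (-c) z)
      have e' : φ (-0) z = T (φ (-c) z) := by rw [← hφ, ← h.add, neg_zero, add_neg_cancel]
      rw [e', e, hT.apply_coords, f, f, conj_conj, neg_mul, neg_im, mul_comm (conj y), mul_neg,
        mem_uIcc]
      rcases le_total 0 (normSq (dt w (T w)) * (x * conj y).im) with k | k
      · exact .inl ⟨by linarith, k⟩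
      · exact .inr ⟨k, by linarith⟩)
    obtain ⟨x, y, e'⟩ := exists_coords m0 (φ (-t) z)
    simp only [] at e
    rw [e', f] at e
    obtain ⟨ζ, s, hs, rfl, rfl⟩ := I3_polar
      ((mul_eq_zero.1 e).resolve_left (by simpa using m0))
    rw [← I3_circ] at e'
    have ζ0 : ζ ≠ 0 := fun k => h.ne (-t) z0 (by rw [e', k, zero_smul])
    have hN : ‖ζ‖ ^ 2 * N (circ T w s) < 1 := by rwa [← h.hom, ← e', h.cons]
    have pN := h.pos _ (ne s)
    refine ⟨(⟨‖ζ‖, arg ζ⟩, ⟨s, t⟩), ⟨⟨norm_nonneg _, ?_⟩, ⟨(neg_pi_lt_arg _).le, arg_le_pi _⟩, hs,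
      uIcc_of_le hc.le ▸ ht⟩, ?_⟩
    · rw [← Real.sqrt_inv]
      refine Real.le_sqrt_of_sq_le ?_
      rw [inv_eq_one_div, le_div_iff₀ pN]
      exact hN.le
    · simp only [Psi]
      rw [← h.real _ _ _ (norm_ne_zero_iff.2 ζ0), ← Complex.coe_smul, smul_smul,
        norm_mul_exp_arg_mul_I, ← e', ← h.add, add_neg_cancel, h.zero]
  · have e : dt (circ T w p.2.re) (-Real.sin p.2.re • w + Real.cos p.2.re • T w) =
        -((dt (T w) w).re : ℂ) := by
      have : ((dt (T w) w).re : ℂ) = dt (T w) w := Complex.ext (by simp) (by simp [hT.im w])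
      rw [this]
      simp only [circ, dt_add_left, dt_add_right, dt_rsmul_left, dt_rsmul_right, dt_self,
        dt_swap w (T w)]
      push_cast
      linear_combination (-dt (T w) w) * Complex.cos_sq_add_sin_sq p.2.re
    rw [hd, e, ← ENNReal.ofReal_mul (by have := h.pos _ (ne p.2.re); positivity), mul_neg, neg_im,
      abs_neg, mul_comm (cexp _), im_ofReal_mul, abs_mul,
      show 2 * (p.1.im : ℂ) * I = ((2 * p.1.im : ℝ) : ℂ) * I by push_cast; ring,
      exp_ofReal_mul_I_im, ← mul_assoc]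

end Pool.Agent.MP_c01216_gt.Zoll

end

section

set_option autoImplicit false

namespace Pool.Agent.MP_c01216_gt.Zoll

open Set Filter Topology MeasureTheory Complex

theorem J_bound {ρ : C2 → ℝ} (hc : ContinuousOn ρ OO) (h0 : ρ 0 = 0)
    (hh : ∀ (r : ℝ) (w : C2), r ≠ 0 → ρ (r • w) = ρ w) : ∃ B, ∀ w, ‖ρ w‖ ≤ B := by
  obtain ⟨B, hB⟩ := (isCompact_sphere (0 : C2) 1).exists_bound_of_continuousOn
    (hc.mono fun w hw e => by simp [e] at hw)
  refine ⟨max B 0, fun w => ?_⟩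
  by_cases hw : w = 0
  · rw [hw, h0, norm_zero]
    exact le_max_right _ _
  · have hn : ‖w‖ ≠ 0 := norm_ne_zero_iff.2 hw
    rw [← hh ‖w‖⁻¹ w (inv_ne_zero hn)]
    refine (hB _ ?_).trans (le_max_left _ _)
    rw [mem_sphere_zero_iff_norm, norm_smul, norm_inv, norm_norm, inv_mul_cancel₀ hn]

theorem J_const {μ : Measure C2} [IsFiniteMeasure μ] {ρ : C2 → ℝ} (hm : Measurable ρ) {B c : ℝ}
    (hB : ∀ w, ‖ρ w‖ ≤ B) (hc : 0 < c) (hμ : μ.real univ = Real.pi ^ 2 / 2)
    (h1 : 2 * c ^ 2 ≤ ∫ w, ρ w ^ 2 ∂μ)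
    (h2 : (∫ w, ρ w ^ 2 ∂μ) * (Real.pi ^ 2 / 2) ≤ c * (Real.pi * ∫ w, ρ w ∂μ)) :
    ∃ k : ℝ, ρ =ᵐ[μ] fun _ => k := by
  have i1 : Integrable ρ μ :=
    (integrable_const B).mono' hm.aestronglyMeasurable (Eventually.of_forall hB)
  have i2 : Integrable (fun w => ρ w ^ 2) μ :=
    (integrable_const (B ^ 2)).mono' (hm.pow_const 2).aestronglyMeasurable
      (Eventually.of_forall fun w => by
        rw [norm_pow]
        exact pow_le_pow_left₀ (norm_nonneg _) (hB w) 2)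
  have hpi := Real.pi_pos
  generalize hV : ∫ w, ρ w ^ 2 ∂μ = V at h1 h2
  generalize ha : ∫ w, ρ w ∂μ = a at h2
  set k := a / (Real.pi ^ 2 / 2) with hk
  have e1 : (fun w => (ρ w - k) ^ 2) = fun w => ρ w ^ 2 - 2 * k * ρ w + k ^ 2 := by
    funext w
    ring
  have i3 : Integrable (fun w => ρ w ^ 2 - 2 * k * ρ w) μ := i2.sub (i1.const_mul _)
  have i4 : Integrable (fun w => (ρ w - k) ^ 2) μ := by
    rw [e1]
    exact i3.add (integrable_const _)
  have e2 : ∫ w, (ρ w - k) ^ 2 ∂μ = V - a ^ 2 / (Real.pi ^ 2 / 2) := by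
    rw [e1, integral_add i3 (integrable_const _), integral_sub i2 (i1.const_mul _),
      integral_const_mul, integral_const, hV, ha, hμ, smul_eq_mul, hk]
    field_simp
    ring
  have hVpos : 0 < V := lt_of_lt_of_le (by positivity) h1
  have h3 : V * Real.pi / (2 * c) ≤ a := by
    rw [div_le_iff₀ (by positivity)]
    refine le_of_mul_le_mul_left ?_ (half_pos hpi)
    linarith
  have h4 : V ≤ a ^ 2 / (Real.pi ^ 2 / 2) := by
    rw [le_div_iff₀ (by positivity)]
    refine le_trans ?_ (pow_le_pow_left₀ (by positivity) h3 2)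
    rw [div_pow, le_div_iff₀ (by positivity)]
    have := mul_le_mul_of_nonneg_left h1 (show 0 ≤ V * Real.pi ^ 2 by positivity)
    linarith
  have h5 : ∫ w, (ρ w - k) ^ 2 ∂μ = 0 :=
    le_antisymm (by linarith) (integral_nonneg fun w => sq_nonneg _)
  refine ⟨k, ?_⟩
  filter_upwards [(integral_eq_zero_iff_of_nonneg (fun w => sq_nonneg _) i4).1 h5] with w hw
  exact sub_eq_zero.1 (pow_eq_zero_iff two_ne_zero |>.1 hw)

theorem J_avg {μ : Measure C2} [IsFiniteMeasure μ] {ρ : C2 → ℝ} (hm : Measurable ρ) {B c V : ℝ}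
    (hB : ∀ w, ‖ρ w‖ ≤ B) (T : C2 →L[ℝ] C2) (hψ : ∀ s, MeasurePreserving (fun w => circ T w s) μ μ)
    (h : ∀ᵐ w ∂μ, V ≤ c * ∫ s in (0 : ℝ)..Real.pi, ρ (circ T w s)) :
    V * μ.real univ ≤ c * (Real.pi * ∫ w, ρ w ∂μ) := by
  have hpi := Real.pi_pos
  have hcont : Continuous fun p : ℝ × C2 => circ T p.2 p.1 := by
    unfold circ
    fun_prop
  have i1 : Integrable (Function.uncurry fun (s : ℝ) (w : C2) => ρ (circ T w s))
      ((volume.restrict (Ioc 0 Real.pi)).prod μ) :=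
    (integrable_const B).mono' (hm.comp hcont.measurable).aestronglyMeasurable
      (Eventually.of_forall fun p => hB _)
  simp only [intervalIntegral.integral_of_le hpi.le] at h
  have h1 := integral_mono_ae (integrable_const V) (i1.integral_prod_right.const_mul c) h
  have h2 : ∀ s, ∫ w, ρ (circ T w s) ∂μ = ∫ w, ρ w ∂μ := fun s => by
    rw [← integral_map (hψ s).measurable.aemeasurable hm.aestronglyMeasurable, (hψ s).map_eq]
  simp only [Function.uncurry_apply_pair] at h1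
  rw [integral_const, integral_const_mul, ← integral_integral_swap i1] at h1
  simp only [h2, integral_const, smul_eq_mul] at h1
  rw [measureReal_restrict_apply_univ, Real.volume_real_Ioc_of_le hpi.le, sub_zero] at h1
  linarith

theorem stJ (h1 : StJ1) (h2 : StJ2) : StJ := by
  intro N c T hN hpos hhom hc hT hlow hup
  obtain ⟨g1, g2, g3, g4⟩ := h2 T hT
  obtain ⟨h, hh⟩ : ∃ h : C2 → ℝ, h = fun w => |(dt (T w) w).re| := ⟨_, rfl⟩
  have hcont : Continuous h := by
    rw [hh]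
    unfold dt
    fun_prop
  have hhpos : ∀ w, w ≠ 0 → 0 < h w := fun w hw => by
    rw [hh]
    exact abs_pos.2 (g1 w hw)
  have hhhom : ∀ (r : ℝ) (w : C2), h (r • w) = r ^ 2 * h w := fun r w => by
    have : dt (T (r • w)) (r • w) = ((r ^ 2 : ℝ) : ℂ) * dt (T w) w := by
      rw [map_smul]
      simp only [dt, Prod.smul_fst, Prod.smul_snd, real_smul]
      push_cast
      ring
    simp only [hh]
    rw [this, re_ofReal_mul, abs_mul, abs_of_nonneg (sq_nonneg r)]
  have hinv : ∀ w s, h (circ T w s) = h w := fun w s => by simp only [hh, g2]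
  have hV := h1 N h hN hcont.continuousOn hpos hhpos hhom hhhom
  have hρc : ContinuousOn (fun w => h w / N w) OO :=
    hcont.continuousOn.div hN fun w hw => (hpos w hw).ne'
  have hρh : ∀ (r : ℝ) (w : C2), r ≠ 0 → h (r • w) / N (r • w) = h w / N w := fun r w hr => by
    rw [hhhom, hhom, mul_div_mul_left _ _ (pow_ne_zero 2 hr)]
  have hρm : Measurable fun w => h w / N w := measurable_of_continuousOn_compl_singleton 0 hρc
  obtain ⟨B, hB⟩ := J_bound hρc (by simp [hh, dt]) hρh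
  have hD : IsOpen {w : C2 | h w < 1} := isOpen_lt hcont continuous_const
  have hvol : volume {w : C2 | h w < 1} = ENNReal.ofReal (Real.pi ^ 2 / 2) := by
    rw [hh]
    exact g3
  have : IsFiniteMeasure (volume.restrict {w : C2 | h w < 1}) :=
    isFiniteMeasure_restrict.2 (hvol ▸ ENNReal.ofReal_ne_top)
  have hμ : (volume.restrict {w : C2 | h w < 1}).real univ = Real.pi ^ 2 / 2 := by
    rw [measureReal_restrict_apply_univ, Measure.real, hvol, ENNReal.toReal_ofReal (by positivity)]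
  have i2 : Integrable (fun w => (h w / N w) ^ 2) (volume.restrict {w : C2 | h w < 1}) :=
    (integrable_const (B ^ 2)).mono' (hρm.pow_const 2).aestronglyMeasurable
      (Eventually.of_forall fun w => by
        rw [norm_pow]
        exact pow_le_pow_left₀ (norm_nonneg _) (hB w) 2)
  rw [← ofReal_integral_eq_lintegral_ofReal i2 (Eventually.of_forall fun w => sq_nonneg _)] at hV
  rw [hV] at hlow hup
  have k1 := (ENNReal.ofReal_le_ofReal_iff (integral_nonneg fun w => sq_nonneg _)).1 hlow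
  have k2 := J_avg (μ := volume.restrict {w : C2 | h w < 1}) hρm (c := c)
    (V := ∫ w in {w : C2 | h w < 1}, (h w / N w) ^ 2) hB T
    (fun s => by
      have := (g4 s).restrict_preimage hD.measurableSet
      rwa [show (fun w => circ T w s) ⁻¹' {w : C2 | h w < 1} = {w : C2 | h w < 1} from
        Set.ext fun w => by simp only [mem_preimage, mem_ofPred_eq, hinv]] at this)
    (by
      refine ae_restrict_of_ae ?_
      have hz : (volume : Measure C2) {0} = 0 := by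
        rw [show ({0} : Set C2) = {0} ×ˢ {0} from singleton_prod_singleton.symm,
          Measure.volume_eq_prod, Measure.prod_prod]
        simp
      filter_upwards [compl_mem_ae_iff.2 hz] with w hw
      rcases ENNReal.ofReal_le_ofReal_iff'.1 (hup w hw) with g | g
      · simp only [hinv]
        simpa only [hh] using g
      · exact absurd (k1.trans g) (not_le.2 (by positivity)))
  rw [hμ] at k2
  obtain ⟨k, hk⟩ := J_const hρm hB hc hμ k1 k2
  have hU : IsOpen ({w : C2 | h w < 1} ∩ OO) := hD.inter isOpen_compl_singleton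
  have k3 := Measure.eqOn_open_of_ae_eq (ae_restrict_of_ae_restrict_of_subset inter_subset_left hk)
    hU (hρc.mono inter_subset_right) continuousOn_const
  refine ⟨k⁻¹, fun w hw => ?_⟩
  have p1 := hhpos w hw
  have p2 := hpos w hw
  have hr : (h w + 1)⁻¹ ≠ 0 := by positivity
  have k4 : h w / N w = k := by
    rw [← hρh _ w hr]
    refine k3 ⟨?_, smul_ne_zero hr hw⟩
    show h _ < 1
    rw [hhhom, inv_pow, inv_mul_lt_iff₀ (by positivity)]
    nlinarith
  show N w = k⁻¹ * |(dt (T w) w).re|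
  rw [← k4, show |(dt (T w) w).re| = h w by rw [hh]]
  field_simp

end Pool.Agent.MP_c01216_gt.Zoll

end

section

set_option autoImplicit false

namespace Pool.Agent.MP_c01216_gt.Zoll

open Set Filter Topology MeasureTheory Metric

theorem J1_key (f F : C2 → ℝ) (cf : ContinuousOn f OO) (cF : ContinuousOn F OO)
    (pf : ∀ w, w ≠ 0 → 0 < f w) (hf : ∀ (r : ℝ) (w : C2), f (r • w) = r ^ 2 * f w)
    (hF : ∀ (r : ℝ) (w : C2), 0 < r → F (r • w) = F w) :
    ∫⁻ w in {w : C2 | f w < 1}, ENNReal.ofReal (F w) =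
      ∫⁻ x : sphere (0 : C2) 1, ENNReal.ofReal (F x) * ENNReal.ofReal (1 / (4 * f x ^ 2))
        ∂(volume : Measure C2).toSphere := by
  have hH : (volume : Measure C2).IsAddHaarMeasure :=
    Measure.prod.instIsAddHaarMeasure (volume : Measure ℂ) (volume : Measure ℂ)
  have hd : Module.finrank ℝ C2 - 1 = 3 := by
    rw [Module.finrank_prod, Complex.finrank_real_complex]
  have hS : IsOpen (OO ∩ f ⁻¹' Iio 1) := cf.isOpen_inter_preimage isOpen_OO isOpen_Iio
  have e1 : {w : C2 | f w < 1} =ᵐ[volume] (OO ∩ f ⁻¹' Iio 1 : Set C2) := by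
    have : ∀ᵐ w : C2, w ≠ 0 := by
      rw [ae_iff]
      simp
    filter_upwards [this] with w hw
    exact propext ⟨fun h => ⟨hw, h⟩, fun h => h.2⟩
  have mp := (volume : Measure C2).measurePreserving_homeomorphUnitSphereProd
  rw [hd] at mp
  set G : C2 → ENNReal := (OO ∩ f ⁻¹' Iio 1).indicator fun w => ENNReal.ofReal (F w) with hG
  have ne0 : ∀ x : sphere (0 : C2) 1, (x : C2) ≠ 0 := fun x => ne_of_mem_sphere x.2 one_ne_zero
  have mem : ∀ q : sphere (0 : C2) 1 × Ioi (0 : ℝ), (q.2 : ℝ) • (q.1 : C2) ∈ OO := fun q =>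
    smul_ne_zero (ne_of_gt q.2.2) (ne0 q.1)
  have c0 : Continuous fun q : sphere (0 : C2) 1 × Ioi (0 : ℝ) => (q.2 : ℝ) • (q.1 : C2) := by
    fun_prop
  have mG : Measurable fun q : sphere (0 : C2) 1 × Ioi (0 : ℝ) => G ((q.2 : ℝ) • (q.1 : C2)) :=
    Measurable.indicator (ENNReal.measurable_ofReal.comp (cF.comp_continuous c0 mem).measurable)
      (hS.preimage c0).measurableSet
  rw [setLIntegral_congr e1, ← lintegral_indicator hS.measurableSet, ← hG,
    ← restrict_compl_singleton (μ := (volume : Measure C2)) 0,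
    ← lintegral_subtype_comap (measurableSet_singleton _).compl]
  have e2 := mp.lintegral_comp mG
  have e3 : ∀ w : ({0}ᶜ : Set C2), ((homeomorphUnitSphereProd C2 w).2 : ℝ) •
      ((homeomorphUnitSphereProd C2 w).1 : C2) = w := fun w => by
    have := (homeomorphUnitSphereProd C2).symm_apply_apply w
    rw [← homeomorphUnitSphereProd_symm_apply_coe, this]
  simp only [e3] at e2
  rw [restrict_compl_singleton, e2, lintegral_prod _ mG.aemeasurable]
  refine lintegral_congr fun x => ?_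
  have p1 := pf x (ne0 x)
  have p2 : 0 < √(f x) := Real.sqrt_pos.2 p1
  have e4 : (fun r : Ioi (0 : ℝ) => G ((r : ℝ) • (x : C2))) =
      (Iio (⟨(√(f x))⁻¹, inv_pos.2 p2⟩ : Ioi (0 : ℝ))).indicator
        fun _ => ENNReal.ofReal (F x) := by
    funext r
    have hr : (0 : ℝ) < r := r.2
    have i1 : (r : ℝ) • (x : C2) ∈ OO ∩ f ⁻¹' Iio 1 ↔
        r ∈ Iio (⟨(√(f x))⁻¹, inv_pos.2 p2⟩ : Ioi (0 : ℝ)) := by
      have i2 : (r : ℝ) ^ 2 * f x < 1 ↔ (r : ℝ) < (√(f x))⁻¹ := by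
        rw [← one_div, lt_div_iff₀ p2, ← sq_lt_one_iff₀ (mul_pos hr p2).le, mul_pow,
          Real.sq_sqrt p1.le]
      simp only [mem_inter_iff, mem_preimage, mem_Iio, hf, i2]
      exact ⟨fun h => h.2, fun h => ⟨mem (x, r), h⟩⟩
    by_cases h : (r : ℝ) • (x : C2) ∈ OO ∩ f ⁻¹' Iio 1
    · rw [hG, indicator_of_mem h, indicator_of_mem (i1.1 h), hF _ _ hr]
    · rw [hG, indicator_of_notMem h, indicator_of_notMem (mt i1.2 h)]
  rw [e4, lintegral_indicator_const measurableSet_Iio, Measure.volumeIoiPow_apply_Iio]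
  congr 2
  rw [show 3 + 1 = 2 * 2 from rfl, pow_mul, inv_pow, Real.sq_sqrt p1.le]
  push_cast
  field_simp
  norm_num

theorem stJ1 : StJ1 := by
  intro f h cf ch pf ph hf hh
  have e1 := J1_key f (fun _ => 1) cf continuousOn_const pf hf fun _ _ _ => rfl
  have e2 := J1_key h (fun w => (h w / f w) ^ 2) ch
    ((ch.div cf fun w hw => (pf w hw).ne').pow 2) ph hh fun r w hr => by
      rw [hf, hh, mul_div_mul_left _ _ (pow_ne_zero 2 hr.ne')]
  rw [e2, ← setLIntegral_one, ← ENNReal.ofReal_one, e1]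
  refine lintegral_congr fun x => ?_
  have hx : (x : C2) ≠ 0 := ne_of_mem_sphere x.2 one_ne_zero
  have p1 := (pf x hx).ne'
  have p2 := (ph x hx).ne'
  rw [← ENNReal.ofReal_mul zero_le_one, ← ENNReal.ofReal_mul (sq_nonneg _)]
  congr 1
  field_simp

end Pool.Agent.MP_c01216_gt.Zoll

end

section

set_option autoImplicit false

namespace Pool.Agent.MP_c01216_gt.Zoll

open Set Filter Topology MeasureTheory Complex
open scoped ComplexConjugate

theorem J2_ball : volume {y : C2 | normSq y.1 + normSq y.2 < 1} =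
    ENNReal.ofReal (Real.pi ^ 2 / 2) := by
  have h1 := Complex.volume_sum_rpow_lt_one (Fin 2) (p := 2) (by norm_num)
  have h2 := (volume_preserving_finTwoArrow ℂ).measure_preimage_equiv
    {y : C2 | normSq y.1 + normSq y.2 < 1}
  rw [← h2]
  have e : MeasurableEquiv.finTwoArrow ⁻¹' {y : C2 | normSq y.1 + normSq y.2 < 1} =
      {x : Fin 2 → ℂ | ∑ i, ‖x i‖ ^ (2 : ℝ) < 1} := by
    ext x
    simp [normSq_eq_norm_sq]
  rw [e, h1]
  congr 1
  have g2 : Real.Gamma (2 / 2 + 1) = 1 := by norm_num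
  have g3 : Real.Gamma (2 * ((Fintype.card (Fin 2) : ℕ) : ℝ) / 2 + 1) = 2 := by
    have : (2 * ((Fintype.card (Fin 2) : ℕ) : ℝ) / 2 + 1) = ((2 : ℕ) : ℝ) + 1 := by
      simp
    rw [this, Real.Gamma_nat_eq_factorial]
    norm_num [Nat.factorial]
  rw [g2, g3]
  simp

theorem J2_det (D : C2 →L[ℝ] C2) (e : ℝ)
    (h : ∀ ξ η, (dt (D ξ) (D η)).re = e * (dt ξ η).re) : D.det = e ^ 2 := by
  rw [det_eq_pf]
  simp only [h]
  simp [dt]
  ring

theorem J2_circ (T : C2 →L[ℝ] C2) (w : C2) (s : ℝ) :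
    circ T w s = ((Real.cos s : ℝ) : ℂ) • w + ((Real.sin s : ℝ) : ℂ) • T w := by
  rw [Complex.coe_smul, Complex.coe_smul]; rfl

theorem stJ2 : StJ2 := by
  intro T hT
  have hH : (volume : Measure C2).IsAddHaarMeasure :=
    Measure.prod.instIsAddHaarMeasure (volume : Measure ℂ) (volume : Measure ℂ)
  refine ⟨fun w hw => hT.re_ne hw, fun w s => ?_, ?_, fun s => ?_⟩
  · rw [J2_circ, hT.form_coords, normSq_ofReal, normSq_ofReal, re_ofReal_mul]
    have := Real.cos_sq_add_sin_sq s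
    linear_combination (dt (T w) w).re * this
  · obtain ⟨w, hw⟩ : ∃ w : C2, |(dt (T w) w).re| = 1 := by
      have h1 : ((1, 0) : C2) ≠ 0 := by simp
      have h2 := abs_pos.2 (hT.re_ne h1)
      refine ⟨(√|(dt (T (1, 0)) (1, 0)).re|)⁻¹ • (1, 0), ?_⟩
      rw [map_smul, dt_rsmul_left, dt_rsmul_right, re_ofReal_mul, re_ofReal_mul, ← mul_assoc,
        ← mul_inv, Real.mul_self_sqrt h2.le, abs_mul, abs_inv, abs_abs, inv_mul_cancel₀ h2.ne']
    have hw0 : w ≠ 0 := by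
      rintro rfl
      simp [dt] at hw
    have hre : dt (T w) w = ((dt (T w) w).re : ℝ) := Complex.ext rfl (by simp [hT.im])
    let L : C2 →L[ℝ] C2 := (((ContinuousLinearMap.fst ℂ ℂ ℂ).smulRight w +
      (ContinuousLinearMap.snd ℂ ℂ ℂ).smulRight (T w))).restrictScalars ℝ
    have hL : ∀ y : C2, L y = y.1 • w + y.2 • T w := fun y => rfl
    have hdet : L.det = 1 := by
      rw [J2_det L (-(dt (T w) w).re), neg_sq, ← sq_abs, hw, one_pow]
      intro ξ η
      have : dt (L ξ) (L η) = -dt (T w) w * dt ξ η := by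
        rw [hL, hL]
        simp only [dt_add_left, dt_add_right, dt_smul_left, dt_smul_right, dt_self,
          dt_swap w (T w)]
        simp only [dt]; ring
      rw [this, hre, ← ofReal_neg, re_ofReal_mul, ofReal_re]
    have key : ∀ y : C2, |(dt (T (L y)) (L y)).re| = normSq y.1 + normSq y.2 := by
      intro y
      rw [hL, hT.form_coords, re_ofReal_mul, abs_mul, hw, mul_one,
        abs_of_nonneg (add_nonneg (normSq_nonneg _) (normSq_nonneg _))]
    have hset : {w : C2 | |(dt (T w) w).re| < 1} = L '' {y : C2 | normSq y.1 + normSq y.2 < 1} := by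
      ext z
      constructor
      · intro hz
        have hne : dt w (T w) ≠ 0 := by
          rw [dt_swap]; exact neg_ne_zero.2 (hT.dt_ne hw0)
        obtain ⟨x, y, rfl⟩ := exists_coords hne z
        exact ⟨(x, y), (key (x, y)).symm.trans_lt hz, rfl⟩
      · rintro ⟨y, hy, rfl⟩
        exact (key y).trans_lt hy
    rw [hset, Measure.addHaar_image_continuousLinearMap,
      show LinearMap.det (L : C2 →ₗ[ℝ] C2) = 1 from hdet, J2_ball]
    simp
  · let A : C2 →L[ℝ] C2 := Real.cos s • ContinuousLinearMap.id ℝ C2 + Real.sin s • T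
    have hA : ∀ w, A w = circ T w s := fun w => rfl
    have hdet : A.det = 1 := by
      rw [J2_det A 1, one_pow]
      intro ξ η
      have h1 : dt (T ξ) η = -conj (dt ξ (T η)) := by
        rw [← hT.det, hT.sq, dt_neg_right, neg_neg]
      rw [hA, hA]
      simp only [circ, dt_add_left, dt_add_right, dt_rsmul_left, dt_rsmul_right, hT.det, h1,
        add_re, re_ofReal_mul, conj_re, neg_re, mul_add]
      have := Real.cos_sq_add_sin_sq s
      linear_combination (dt ξ η).re * this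
    refine ⟨A.continuous.measurable, ?_⟩
    have h2 := Measure.map_linearMap_addHaar_eq_smul_addHaar (volume : Measure C2)
      (f := (A : C2 →ₗ[ℝ] C2)) (by rw [show LinearMap.det (A : C2 →ₗ[ℝ] C2) = 1 from hdet]; simp)
    rw [show LinearMap.det (A : C2 →ₗ[ℝ] C2) = 1 from hdet] at h2
    simp only [inv_one, abs_one, ENNReal.ofReal_one, one_smul] at h2
    exact h2

end Pool.Agent.MP_c01216_gt.Zoll

end

section

set_option autoImplicit false

namespace Pool.Agent.MP_c01216_gt.Zoll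

open Set

/-- L1: existence of complete geodesics. -/
def StL1 : Prop := ∀ u : E3 → ℝ, ContDiff ℝ 3 u → ∀ p ∈ UT u,
  ∃ γ : ℝ → E3, (∀ a, IsGeod u γ a) ∧ γ 0 = p.1 ∧ deriv γ 0 = p.2

/-- L2: an isometry onto a round sphere maps geodesics to great circles. -/
def StL2 : Prop := ∀ u : E3 → ℝ, ContDiff ℝ 3 u → ∀ (r : ℝ) (Ψ : E3 → E3), 0 < r →
  MapsTo Ψ (Metric.sphere 0 1) (Metric.sphere 0 1) →
  (∀ x : E3, ‖x‖ = 1 → ContDiffAt ℝ 2 Ψ x ∧
      ∀ v : E3, inner ℝ x v = 0 → Real.exp (u x) * ‖v‖ = r * ‖fderiv ℝ Ψ x v‖) →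
  ∀ (γ : ℝ → E3) (a : ℝ), 0 < a → IsGeod u γ a → ∀ t ∈ Icc (0 : ℝ) a,
    Ψ (γ t) = Real.cos (t / r) • Ψ (γ 0) +
      (r * Real.sin (t / r)) • fderiv ℝ Ψ (γ 0) (deriv γ 0) ∧
    fderiv ℝ Ψ (γ t) (deriv γ t) = (-(Real.sin (t / r) / r)) • Ψ (γ 0) +
      Real.cos (t / r) • fderiv ℝ Ψ (γ 0) (deriv γ 0)

/-- L3: round metrics have theta-graphs in all directions. -/
def StL3 : Prop := ∀ u : E3 → ℝ, ContDiff ℝ 3 u → IsRound u → ThetaField u

end Pool.Agent.MP_c01216_gt.Zoll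

end

section

set_option autoImplicit false

namespace Pool.Agent.MP_c01216_gt.Zoll

open Set

theorem L2_curve {x e : E3} (hx : ‖x‖ = 1) (he : inner ℝ x e = 0) :
    ∃ c : ℝ → E3, c 0 = x ∧ HasDerivAt c e 0 ∧ ∀ t, ‖c t‖ = 1 := by
  by_cases h0 : e = 0
  · exact ⟨fun _ => x, rfl, h0 ▸ hasDerivAt_const _ _, fun _ => hx⟩
  have hn : ‖e‖ ≠ 0 := norm_ne_zero_iff.2 h0
  refine ⟨fun t => Real.cos (t * ‖e‖) • x + (Real.sin (t * ‖e‖) / ‖e‖) • e, by simp, ?_, fun t => ?_⟩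
  · have h1 := (hasDerivAt_mul_const (x := (0 : ℝ)) ‖e‖)
    exact ((h1.cos.smul_const x).add ((h1.sin.div_const ‖e‖).smul_const e)).congr_deriv
      (by simp [hn])
  · rw [← sq_eq_sq₀ (norm_nonneg _) zero_le_one, norm_add_sq_real, inner_smul_left,
      inner_smul_right, he, norm_smul, norm_smul, hx, mul_pow, mul_pow, Real.norm_eq_abs,
      Real.norm_eq_abs, sq_abs, sq_abs, div_pow, div_mul_cancel₀ _ (pow_ne_zero 2 hn)]
    simp

theorem L2_zero {g : ℝ → ℝ} {g' a t : ℝ} (ha : 0 < a) (ht : t ∈ Icc (0 : ℝ) a)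
    (h : HasDerivAt g g' t) (h0 : ∀ s ∈ Icc (0 : ℝ) a, g s = 0) : g' = 0 :=
  (uniqueDiffOn_Icc ha t ht).eq_deriv _ h.hasDerivWithinAt
    ((hasDerivWithinAt_const t _ (0 : ℝ)).congr h0 (h0 t ht))

theorem L2_ode {d d1 : ℝ → E3} {k a : ℝ} (hk : 0 < k)
    (h : ∀ t ∈ Icc (0 : ℝ) a, HasDerivAt d (d1 t) t ∧ HasDerivAt d1 (-(k • d t)) t)
    (h0 : d 0 = 0) (h1 : d1 0 = 0) : ∀ t ∈ Icc (0 : ℝ) a, d t = 0 ∧ d1 t = 0 := by
  have hE : ∀ t ∈ Icc (0 : ℝ) a,
      HasDerivAt (fun s => k * inner ℝ (d s) (d s) + inner ℝ (d1 s) (d1 s)) 0 t := fun t ht => by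
    refine ((((h t ht).1.inner ℝ (h t ht).1).const_mul k).add
      ((h t ht).2.inner ℝ (h t ht).2)).congr_deriv ?_
    simp only [inner_neg_left, inner_neg_right, inner_smul_left, inner_smul_right, conj_trivial,
      real_inner_comm (d t) (d1 t)]
    ring
  intro t ht
  have := constant_of_has_deriv_right_zero (fun s hs => (hE s hs).continuousAt.continuousWithinAt)
    (fun s hs => (hE s (Ico_subset_Icc_self hs)).hasDerivWithinAt) t ht
  simp only [h0, h1, inner_zero_left, mul_zero, add_zero] at this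
  have a1 := mul_nonneg hk.le (real_inner_self_nonneg (x := d t))
  have a2 := real_inner_self_nonneg (x := d1 t)
  exact ⟨inner_self_eq_zero.1 ((mul_eq_zero.1 (by linarith : k * inner ℝ (d t) (d t) = 0)).resolve_left
    hk.ne'), inner_self_eq_zero.1 (by linarith : inner ℝ (d1 t) (d1 t) = 0)⟩

theorem L2_span {x p z : E3} (hx : ‖x‖ = 1) (hp : ‖p‖ = 1) (A : E3 →L[ℝ] E3)
    (hA : ∀ v, inner ℝ x v = 0 → inner ℝ p (A v) = 0 ∧ (A v = 0 → v = 0))
    (hz : ∀ v, inner ℝ x v = 0 → inner ℝ z (A v) = 0) : z = inner ℝ p z • p := by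
  have hxx : inner ℝ x x = (1 : ℝ) := by rw [real_inner_self_eq_norm_sq, hx, one_pow]
  have hpp : inner ℝ p p = (1 : ℝ) := by rw [real_inner_self_eq_norm_sq, hp, one_pow]
  have ht : ∀ y : E3, inner ℝ x (y - inner ℝ x y • x) = 0 := fun y => by
    rw [inner_sub_right, inner_smul_right, hxx, mul_one, sub_self]
  let L : E3 →L[ℝ] E3 :=
    A.comp (ContinuousLinearMap.id ℝ E3 - (innerSL ℝ x).smulRight x) + (innerSL ℝ x).smulRight p
  have hL : ∀ y, L y = A (y - inner ℝ x y • x) + inner ℝ x y • p := fun y => rfl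
  have hinj : Function.Injective (L : E3 →ₗ[ℝ] E3) := by
    rw [injective_iff_map_eq_zero]
    intro y hy
    have h1 : A (y - inner ℝ x y • x) + inner ℝ x y • p = 0 := hy
    have h2 := congrArg (inner ℝ p) h1
    rw [inner_add_right, (hA _ (ht y)).1, inner_smul_right, hpp, inner_zero_right, zero_add,
      mul_one] at h2
    have h3 := (hA _ (ht y)).2 (by simpa [h2] using h1)
    rwa [h2, zero_smul, sub_zero] at h3
  obtain ⟨y, hy⟩ := LinearMap.injective_iff_surjective.1 hinj (z - inner ℝ p z • p)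
  have h1 : A (y - inner ℝ x y • x) + inner ℝ x y • p = z - inner ℝ p z • p := hy
  rw [← sub_eq_zero, ← inner_self_eq_zero (𝕜 := ℝ)]
  nth_rewrite 2 [← h1]
  rw [inner_add_right, inner_sub_left, inner_sub_left, hz _ (ht y), inner_smul_left,
    (hA _ (ht y)).1, inner_smul_right, inner_smul_left, inner_smul_right, hpp, real_inner_comm p z]
  simp [mul_comm]

section

variable {u : E3 → ℝ} {r : ℝ} {Ψ : E3 → E3}

theorem L2_pol (h : ∀ x : E3, ‖x‖ = 1 → ContDiffAt ℝ 2 Ψ x ∧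
      ∀ v : E3, inner ℝ x v = 0 → Real.exp (u x) * ‖v‖ = r * ‖fderiv ℝ Ψ x v‖)
    {x a b : E3} (hx : ‖x‖ = 1) (ha : inner ℝ x a = 0) (hb : inner ℝ x b = 0) :
    r ^ 2 * inner ℝ (fderiv ℝ Ψ x a) (fderiv ℝ Ψ x b) = Real.exp (u x) ^ 2 * inner ℝ a b := by
  have h1 := congrArg (· ^ 2) ((h x hx).2 a ha)
  have h2 := congrArg (· ^ 2) ((h x hx).2 b hb)
  have h3 := congrArg (· ^ 2) ((h x hx).2 (a + b) (by rw [inner_add_right, ha, hb, add_zero]))
  simp only [mul_pow, map_add, norm_add_sq_real] at h1 h2 h3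
  linarith

theorem L2_orth (hm : MapsTo Ψ (Metric.sphere 0 1) (Metric.sphere 0 1)) {x e : E3}
    (hc : ContDiffAt ℝ 2 Ψ x) (hx : ‖x‖ = 1) (he : inner ℝ x e = 0) :
    inner ℝ (Ψ x) (fderiv ℝ Ψ x e) = 0 := by
  obtain ⟨c, rfl, h1, h2⟩ := L2_curve hx he
  have h3 := (hc.differentiableAt (by norm_num)).hasFDerivAt.comp_hasDerivAt 0 h1
  have h4 := (h3.inner ℝ h3).unique ((hasDerivAt_const (0 : ℝ) (1 : ℝ)).congr_of_eventuallyEq
    (Filter.Eventually.of_forall fun t => by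
      have := mem_sphere_zero_iff_norm.1 (hm (mem_sphere_zero_iff_norm.2 (h2 t)))
      simp only [real_inner_self_eq_norm_sq, Function.comp, this, one_pow]))
  rw [real_inner_comm (Function.comp Ψ c 0)] at h4
  exact add_self_eq_zero.1 h4

theorem L2_kos (hu : ContDiff ℝ 3 u) (h : ∀ x : E3, ‖x‖ = 1 → ContDiffAt ℝ 2 Ψ x ∧
      ∀ v : E3, inner ℝ x v = 0 → Real.exp (u x) * ‖v‖ = r * ‖fderiv ℝ Ψ x v‖)
    {x e a b : E3} (hx : ‖x‖ = 1) (he : inner ℝ x e = 0) (ha : inner ℝ x a = 0)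
    (hb : inner ℝ x b = 0) :
    r ^ 2 * (inner ℝ (fderiv ℝ Ψ x a)
        (fderiv ℝ (fderiv ℝ Ψ) x e b - inner ℝ e b • fderiv ℝ Ψ x x) +
      inner ℝ (fderiv ℝ (fderiv ℝ Ψ) x e a - inner ℝ e a • fderiv ℝ Ψ x x) (fderiv ℝ Ψ x b)) =
      2 * Real.exp (u x) ^ 2 * inner ℝ (gradient u x) e * inner ℝ a b := by
  obtain ⟨c, rfl, h1, h2⟩ := L2_curve hx he
  have hA := (((h _ hx).1.fderiv_right (m := 1) (by norm_num)).differentiableAt
    (by norm_num)).hasFDerivAt.comp_hasDerivAt 0 h1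
  have hp : ∀ a : E3, inner ℝ (c 0) a = 0 →
      HasDerivAt (fun t => a - inner ℝ (c t) a • c t) (-(inner ℝ e a • c 0)) 0 := fun a ha => by
    exact (((h1.inner ℝ (hasDerivAt_const 0 a)).smul h1).const_sub a).congr_deriv (by simp [ha])
  have hU := ((hasGradientAt_iff_hasFDerivAt.1
    (hu.differentiable (by norm_num) (c 0)).hasGradientAt).comp_hasDerivAt 0 h1).exp.pow 2
  have h3 := (((hA.clm_apply (hp a ha)).inner ℝ (hA.clm_apply (hp b hb))).const_mul
    (r ^ 2)).unique ((hU.mul ((hp a ha).inner ℝ (hp b hb))).congr_of_eventuallyEq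
    (Filter.Eventually.of_forall fun t => by
      have ht : ∀ y : E3, inner ℝ (c t) (y - inner ℝ (c t) y • c t) = 0 := fun y => by
        rw [inner_sub_right, inner_smul_right, real_inner_self_eq_norm_sq, h2 t]; simp
      exact L2_pol h (h2 t) (ht a) (ht b)))
  simp only [Function.comp, ha, hb, zero_smul, sub_zero, map_neg, map_smul, inner_neg_left,
    inner_neg_right, inner_smul_left, inner_smul_right, real_inner_comm (c 0) a,
    InnerProductSpace.toDual_apply_apply, Pi.pow_apply, ← sub_eq_add_neg] at h3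
  rw [h3]
  push_cast
  ring

end

theorem stL2 : StL2 := by
  intro u hu r Ψ hr hm h γ a ha ⟨hγ, hg⟩
  have g1 : ∀ t, HasDerivAt γ (deriv γ t) t := fun t =>
    (hγ.differentiable (by norm_num) t).hasDerivAt
  have g2 : ∀ t, HasDerivAt (deriv γ) (deriv (deriv γ) t) t := fun t =>
    ((hγ.deriv' (n := 1)).differentiable (by norm_num) t).hasDerivAt
  have key : ∀ t ∈ Icc (0 : ℝ) a,
      HasDerivAt (fun s => Ψ (γ s)) (fderiv ℝ Ψ (γ t) (deriv γ t)) t ∧
      HasDerivAt (fun s => fderiv ℝ Ψ (γ s) (deriv γ s)) (-((1 / r ^ 2) • Ψ (γ t))) t := by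
    intro t ht
    obtain ⟨⟨hx, hv, hn⟩, κ, hκ⟩ := hg t ht
    have hc := (h _ hx).1
    have c1 : HasDerivAt (fun s => Ψ (γ s)) (fderiv ℝ Ψ (γ t) (deriv γ t)) t :=
      (hc.differentiableAt (by norm_num)).hasFDerivAt.comp_hasDerivAt t (g1 t)
    have c2 := (((hc.fderiv_right (m := 1) (by norm_num)).differentiableAt
      (by norm_num)).hasFDerivAt.comp_hasDerivAt t (g1 t)).clm_apply (g2 t)
    refine ⟨c1, ?_⟩
    have e1 := L2_zero ha ht ((g1 t).inner ℝ (g2 t)) fun s hs => (hg s hs).1.2.1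
    have e2 := L2_zero ha ht (c1.inner ℝ c2) fun s hs =>
      L2_orth hm (h _ (hg s hs).1.1).1 (hg s hs).1.1 (hg s hs).1.2.1
    have hs := hc.isSymmSndFDerivAt (by simp)
    have hp := mem_sphere_zero_iff_norm.1 (hm (mem_sphere_zero_iff_norm.2 hx))
    refine c2.congr_deriv ?_
    simp only [Function.comp] at e2 hx hv hn ⊢
    generalize deriv (deriv γ) t = w, deriv γ t = v, γ t = x at *
    have hxx : inner ℝ x x = (1 : ℝ) := by rw [real_inner_self_eq_norm_sq, hx, one_pow]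
    have hτ : inner ℝ x (w + inner ℝ v v • x) = 0 := by
      rw [inner_add_right, inner_smul_right, hxx]; linarith
    have e3 := L2_span (z := fderiv ℝ (fderiv ℝ Ψ) x v v + fderiv ℝ Ψ x w) hx hp (fderiv ℝ Ψ x)
      (fun y hy => ⟨L2_orth hm hc hx hy, fun h0 => by
        have := (h x hx).2 y hy
        rw [h0, norm_zero, mul_zero] at this
        exact norm_eq_zero.1 ((mul_eq_zero.1 this).resolve_left (Real.exp_ne_zero _))⟩)
      fun y hy => by
        have k1 := L2_kos hu h hx hv hv hy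
        have k2 := L2_kos hu h hx hy hv hv
        have k3 := L2_pol h hx hτ hy
        have k4 := congrArg (fun z => inner ℝ z y) hκ
        rw [hs.eq y v, real_inner_comm v y] at k2
        simp only [map_add, map_smul, inner_add_left, inner_sub_left, inner_sub_right,
          inner_smul_left, inner_smul_right, conj_trivial, hy, ← real_inner_self_eq_norm_sq,
          real_inner_comm (fderiv ℝ Ψ x v)] at k1 k2 k3 k4 ⊢
        refine (mul_eq_zero.1 (?_ : r ^ 2 * _ = 0)).resolve_left (by positivity)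
        linear_combination k1 - k2 / 2 + k3 + Real.exp (u x) ^ 2 * k4
    have e4 : r ^ 2 * inner ℝ (fderiv ℝ Ψ x v) (fderiv ℝ Ψ x v) = 1 := by
      rw [real_inner_self_eq_norm_sq, ← mul_pow, ← (h x hx).2 v hv, hn, one_pow]
    rw [e3, ← neg_smul]
    congr 1
    field_simp
    linear_combination r ^ 2 * e2 - e4
  have main := L2_ode (a := a) (k := 1 / r ^ 2) (by positivity)
    (d := fun t => Ψ (γ t) - (Real.cos (t / r) • Ψ (γ 0) +
      (r * Real.sin (t / r)) • fderiv ℝ Ψ (γ 0) (deriv γ 0)))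
    (d1 := fun t => fderiv ℝ Ψ (γ t) (deriv γ t) - ((-(Real.sin (t / r) / r)) • Ψ (γ 0) +
      Real.cos (t / r) • fderiv ℝ Ψ (γ 0) (deriv γ 0))) (fun t ht => by
      have d0 := (hasDerivAt_id' t).div_const r
      constructor
      · refine ((key t ht).1.sub ((d0.cos.smul_const _).add
          ((d0.sin.const_mul r).smul_const _))).congr_deriv ?_
        congr 3 <;> field_simp
      · refine ((key t ht).2.sub (((d0.sin.div_const r).neg.smul_const _).add
          (d0.cos.smul_const _))).congr_deriv ?_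
        match_scalars <;> field_simp) (by simp) (by simp)
  exact fun t ht => ⟨sub_eq_zero.1 (main t ht).1, sub_eq_zero.1 (main t ht).2⟩

end Pool.Agent.MP_c01216_gt.Zoll

end

section

set_option autoImplicit false

namespace Pool.Agent.MP_c01216_gt.Zoll

open Set

theorem L3_rot {x v : E3} (hx : ‖x‖ = 1) (hv : inner ℝ x v = 0) :
    inner ℝ x (rot x v) = 0 ∧ ‖rot x v‖ = ‖v‖ ∧ ‖-v - rot x v‖ = ‖v‖ := by
  have h3 := sqrt3_sq
  have hx2 : ‖x‖ ^ 2 = 1 := by rw [hx, one_pow]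
  rw [EuclideanSpace.real_norm_sq_eq, Fin.sum_univ_three] at hx2
  rw [← sq_eq_sq₀ (norm_nonneg _) (norm_nonneg _), ← sq_eq_sq₀ (norm_nonneg _) (norm_nonneg _)]
  simp only [EuclideanSpace.real_norm_sq_eq, PiLp.inner_apply, Fin.sum_univ_three, rot,
    RCLike.inner_apply, conj_trivial, PiLp.add_apply, PiLp.sub_apply, PiLp.neg_apply,
    PiLp.smul_apply, smul_eq_mul, Matrix.cons_val_zero, Matrix.cons_val_one,
    Matrix.cons_val] at hv ⊢
  have key : (x 1 * v 2 - x 2 * v 1) ^ 2 + (x 2 * v 0 - x 0 * v 2) ^ 2 +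
      (x 0 * v 1 - x 1 * v 0) ^ 2 = v 0 ^ 2 + v 1 ^ 2 + v 2 ^ 2 := by
    linear_combination (v 0 ^ 2 + v 1 ^ 2 + v 2 ^ 2) * hx2 -
      (v 0 * x 0 + v 1 * x 1 + v 2 * x 2) * hv
  refine ⟨by linear_combination (-1 / 2 : ℝ) * hv, ?_, ?_⟩ <;>
    linear_combination (3 / 4 : ℝ) * key + (((x 1 * v 2 - x 2 * v 1) ^ 2 +
      (x 2 * v 0 - x 0 * v 2) ^ 2 + (x 0 * v 1 - x 1 * v 0) ^ 2) / 4) * h3

theorem L3_three {x v : E3} (hx : ‖x‖ = 1) (hv : inner ℝ x v = 0) (h0 : v ≠ 0) :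
    ∃ V : Fin 3 → E3, V 0 = v ∧ V 1 = rot x v ∧ ∑ i, V i = 0 ∧
      (∀ i, inner ℝ x (V i) = 0 ∧ ‖V i‖ = ‖v‖) ∧ Function.Injective V := by
  obtain ⟨h1, h2, h3⟩ := L3_rot hx hv
  have hp : 0 < ‖v‖ := norm_pos_iff.2 h0
  generalize rot x v = w at *
  have key : ∀ a b c : E3, ‖a‖ = ‖v‖ → ‖c‖ = ‖v‖ → a + b + c = 0 → a ≠ b := by
    intro a b c ha hc h e
    have e1 : c = (-2 : ℝ) • a := by
      rw [← e] at h
      rw [eq_neg_of_add_eq_zero_right h]
      module
    rw [e1, norm_smul, ha] at hc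
    norm_num at hc
    linarith
  have k1 : v ≠ w := key v w (-v - w) rfl h3 (by abel)
  have k2 : v ≠ -v - w := key v (-v - w) w rfl h2 (by abel)
  have k3 : w ≠ -v - w := key w (-v - w) v h2 rfl (by abel)
  refine ⟨![v, w, -v - w], rfl, rfl, ?_, fun i => ?_, fun i j h => ?_⟩
  · rw [Fin.sum_univ_three]
    show v + w + (-v - w) = 0
    abel
  · fin_cases i
    · exact ⟨hv, rfl⟩
    · exact ⟨h1, h2⟩
    · refine ⟨?_, h3⟩
      show inner ℝ x (-v - w) = 0
      rw [inner_sub_right, inner_neg_right, hv, h1, neg_zero, sub_zero]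
  · fin_cases i <;> fin_cases j <;>
      first
        | rfl
        | exact absurd h k1
        | exact absurd h k2
        | exact absurd h k3
        | exact absurd h.symm k1
        | exact absurd h.symm k2
        | exact absurd h.symm k3

theorem L3_orth {y a : E3} {r c s : ℝ} (hy : ‖y‖ = 1) (ha : r * ‖a‖ = 1) (hc : 0 < c) (hs : 0 < s)
    (hr : 0 < r) (h1 : s ^ 2 + c ^ 2 = 1) (h : ‖c • y + (r * s) • a‖ = 1) : inner ℝ y a = 0 := by
  have h2 := norm_add_sq_real (c • y) ((r * s) • a)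
  rw [h, norm_smul, norm_smul, hy, real_inner_smul_left, real_inner_smul_right,
    Real.norm_of_nonneg hc.le, Real.norm_of_nonneg (mul_pos hr hs).le] at h2
  have h3 : c * (r * s) * inner ℝ y a = 0 := by
    linear_combination (-1 / 2 : ℝ) * h2 - (1 / 2 : ℝ) * h1 -
      (s ^ 2 * (r * ‖a‖ + 1) / 2) * ha
  exact (mul_eq_zero.1 h3).resolve_left (by positivity)

theorem stL3 (h1 : StL1) (h2 : StL2) : StL3 := by
  rintro u hu ⟨r, hr, Ψ, hb, hΨ⟩
  refine ⟨fun _ _ => Real.pi * r, fun _ => continuousOn_const, ?_⟩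
  rintro ⟨x, v⟩ ⟨hx, hv, hn⟩
  dsimp only at hx hv hn
  have hv0 : v ≠ 0 := fun h => by simp [h] at hn
  obtain ⟨V, V0, V1, Vs, Vn, Vi⟩ := L3_three hx hv hv0
  choose γ hg g0 g1 using fun i => h1 u hu (x, V i) ⟨hx, (Vn i).1, by
    show Real.exp (u x) * ‖V i‖ = 1
    rw [(Vn i).2, hn]⟩
  dsimp only at g0 g1
  have hπ := Real.pi_pos
  have ha : 0 < Real.pi * r := mul_pos hπ hr
  have hF := fun i => h2 u hu r Ψ hr hb.mapsTo hΨ (γ i) _ ha (hg i _)
  simp only [g0, g1] at hF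
  have hs : ∀ i t, t ∈ Icc (0 : ℝ) (Real.pi * r) → γ i t ∈ Metric.sphere (0 : E3) 1 :=
    fun i t ht => mem_sphere_zero_iff_norm.2 ((hg i _).2 t ht).1.1
  have hy : ‖Ψ x‖ = 1 := mem_sphere_zero_iff_norm.1 (hb.mapsTo (mem_sphere_zero_iff_norm.2 hx))
  have hinj : ∀ q w : E3, ‖q‖ = 1 → inner ℝ q w = 0 → fderiv ℝ Ψ q w = 0 → w = 0 := by
    intro q w hq hw h
    have := (hΨ q hq).2 w hw
    rw [h, norm_zero, mul_zero] at this
    exact norm_eq_zero.1 ((mul_eq_zero.1 this).resolve_left (Real.exp_pos _).ne')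
  have ho : ∀ i, inner ℝ (Ψ x) (fderiv ℝ Ψ x (V i)) = 0 := by
    intro i
    have hm : Real.pi / 4 * r ∈ Icc (0 : ℝ) (Real.pi * r) := ⟨by positivity, by nlinarith⟩
    have a1 := mem_sphere_zero_iff_norm.1 (hb.mapsTo (hs i _ hm))
    rw [(hF i _ hm).1, mul_div_cancel_right₀ _ hr.ne'] at a1
    refine L3_orth hy ?_ ?_ ?_ hr (Real.sin_sq_add_cos_sq _) a1
    · rw [← (hΨ x hx).2 _ (Vn i).1, (Vn i).2, hn]
    · rw [Real.cos_pi_div_four]; positivity
    · rw [Real.sin_pi_div_four]; positivity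
  have hm : Real.pi * r ∈ Icc (0 : ℝ) (Real.pi * r) := ⟨ha.le, le_rfl⟩
  have he : ∀ i, Ψ (γ i (Real.pi * r)) = -Ψ x ∧
      fderiv ℝ Ψ (γ i (Real.pi * r)) (deriv (γ i) (Real.pi * r)) = -fderiv ℝ Ψ x (V i) := by
    intro i
    have := hF i _ hm
    rw [mul_div_cancel_right₀ _ hr.ne', Real.cos_pi, Real.sin_pi] at this
    simpa using this
  have hq : ∀ i, γ i (Real.pi * r) = γ 0 (Real.pi * r) := fun i =>
    hb.injOn (hs i _ hm) (hs 0 _ hm) ((he i).1.trans (he 0).1.symm)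
  have hd : ∀ t ∈ Icc (0 : ℝ) (Real.pi * r), t / r ∈ Icc (0 : ℝ) Real.pi := fun t ht =>
    ⟨div_nonneg ht.1 hr.le, (div_le_iff₀ hr).2 ht.2⟩
  refine ⟨γ, ⟨fun i => ⟨ha, hg i _⟩, fun h => ?_, fun i => ⟨by rw [g0, g0], hq i⟩,
    fun i j s hs' t ht h => ?_, by simp only [g1, Vs], ?_⟩, g0 0, by rw [g1, V0], by rw [g1, V1]⟩
  · have a1 := (he 0).1
    rw [← h, g0] at a1
    have a2 := congrArg (inner ℝ (Ψ x)) a1
    rw [inner_neg_right, real_inner_self_eq_norm_sq, hy] at a2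
    norm_num at a2
  · have a1 := congrArg Ψ h
    rw [(hF i s hs').1, (hF j t ht).1] at a1
    have a2 := congrArg (inner ℝ (Ψ x)) a1
    simp only [inner_add_right, real_inner_smul_right, ho, real_inner_self_eq_norm_sq, hy,
      mul_zero, add_zero, one_pow, mul_one] at a2
    have a3 : s = t := (div_left_inj' hr.ne').1 (Real.injOn_cos (hd s hs') (hd t ht) a2)
    subst a3
    rcases hs'.1.eq_or_lt with e | e
    · exact Or.inr (Or.inl ⟨e.symm, e.symm⟩)
    rcases hs'.2.eq_or_lt with e' | e'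
    · exact Or.inr (Or.inr ⟨e', e'⟩)
    have a4 : 0 < r * Real.sin (s / r) :=
      mul_pos hr (Real.sin_pos_of_pos_of_lt_pi (div_pos e hr) ((div_lt_iff₀ hr).2 e'))
    have a5 := smul_right_injective E3 a4.ne' (add_left_cancel a1)
    refine Or.inl ⟨Vi (sub_eq_zero.1 (hinj x _ hx ?_ ?_)), rfl⟩
    · rw [inner_sub_right, (Vn i).1, (Vn j).1, sub_zero]
    · rw [map_sub, a5, sub_self]
  · refine hinj (γ 0 (Real.pi * r)) _ (mem_sphere_zero_iff_norm.1 (hs 0 _ hm)) ?_ ?_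
    · rw [inner_sum]
      exact Finset.sum_eq_zero fun i _ => hq i ▸ ((hg i _).2 _ hm).1.2.1
    · rw [map_sum, Finset.sum_congr rfl fun i _ => hq i ▸ (he i).2, Finset.sum_neg_distrib,
        ← map_sum, Vs, map_zero, neg_zero]

end Pool.Agent.MP_c01216_gt.Zoll

end
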